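import Pool.Agent.Helper94.GSpMain

/-!
# MP_3e7cbe_nt: smooth representations, without irreducibility or admissibility
-/

set_option autoImplicit false

namespace Pool.Agent.Helper94.GSpComp

open Matrix Pool.Agent.Helper94.GSpLemmaB Pool.Agent.Helper94.GSpLemmaC
  Pool.Agent.Helper94.GSpLemmaD Pool.Agent.Helper94.GSpLemmaA Pool.Agent.Helper94.GSpMain

section field

variable {K : Type*} [Field K] {m : ℕ} {V : Type*} [AddCommGroup V] [Module ℂ V]

/-- The transpose of a similitude. -/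
theorem sim_transpose {c : K} {g : Matrix (Fin m ⊕ Fin m) (Fin m ⊕ Fin m) K} (hg : Sim c g) :
    Sim c gᵀ := by
  refine ⟨hg.1, ?_⟩
  have h1 : (c⁻¹ • (-(J (Fin m) K) * gᵀ * J (Fin m) K)) * g = 1 := by
    rw [Matrix.smul_mul, Matrix.mul_assoc (-(J (Fin m) K) * gᵀ), Matrix.mul_assoc (-(J (Fin m) K)),
      ← Matrix.mul_assoc gᵀ, hg.2, Matrix.mul_smul, smul_smul, inv_mul_cancel₀ hg.1, one_smul,
      Matrix.neg_mul, J_squared, neg_neg]
  have h2 := mul_eq_one_comm.1 h1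
  rw [Matrix.mul_smul] at h2
  have h3 : g * (-(J (Fin m) K) * gᵀ * J (Fin m) K) = c • 1 := by
    rw [← h2, smul_smul, mul_inv_cancel₀ hg.1, one_smul]
  have h4 : g * J (Fin m) K * gᵀ * J (Fin m) K = -(c • 1) := by
    rw [← h3]
    simp only [Matrix.mul_assoc, Matrix.neg_mul, Matrix.mul_neg, neg_neg]
  rw [transpose_transpose]
  calc g * J (Fin m) K * gᵀ = -((g * J (Fin m) K * gᵀ * J (Fin m) K) * J (Fin m) K) := by
        rw [Matrix.mul_assoc _ (J (Fin m) K) (J (Fin m) K), J_squared, Matrix.mul_neg,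
          Matrix.mul_one, neg_neg]
    _ = c • J (Fin m) K := by
        rw [h4, Matrix.neg_mul, neg_neg, Matrix.smul_mul, Matrix.one_mul]

theorem exists_sym_aux (B D : Matrix (Fin m) (Fin m) K) (c : K) (n : ℕ) :
    ∀ A C : Matrix (Fin m) (Fin m) K, Sim c (fromBlocks A B C D) →
      Module.finrank K (LinearMap.ker A.mulVecLin) = n →
      ∃ Y : Matrix (Fin m) (Fin m) K, Yᵀ = Y ∧ (A + B * Y).det ≠ 0 := by
  classical
  induction n using Nat.strong_induction_on with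
  | _ n ih =>
    intro A C hg hn
    by_cases hdet : A.det = 0
    swap
    · exact ⟨0, by simp, by simpa using hdet⟩
    have hdetT : Aᵀ.det = 0 := by rw [det_transpose]; exact hdet
    obtain ⟨y, hy0, hy⟩ := Matrix.exists_mulVec_eq_zero_iff.2 hdetT
    have hT := sim_transpose hg
    rw [fromBlocks_transpose] at hT
    obtain ⟨r1, r2, -, -⟩ := sim_blocks.1 hT.2
    rw [transpose_transpose, transpose_transpose] at r1
    rw [transpose_transpose, transpose_transpose] at r2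
    -- r1 : B * Aᵀ = A * Bᵀ, r2 : A * Dᵀ - B * Cᵀ = c • 1
    set z : Fin m → K := Bᵀ *ᵥ y with hz
    have hz0 : z ≠ 0 := by
      intro h0
      apply hy0
      have h1 : y ᵥ* (A * Dᵀ - B * Cᵀ) = c • y := by
        rw [r2, Matrix.vecMul_smul, Matrix.vecMul_one]
      rw [Matrix.vecMul_sub, ← Matrix.vecMul_vecMul, ← Matrix.vecMul_vecMul,
        ← Matrix.mulVec_transpose A, ← Matrix.mulVec_transpose B, hy, ← hz, h0,
        Matrix.zero_vecMul, Matrix.zero_vecMul, sub_zero] at h1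
      exact (smul_eq_zero.1 h1.symm).resolve_left hg.1
    have hAz : A *ᵥ z = 0 := by
      rw [hz, Matrix.mulVec_mulVec, ← r1, ← Matrix.mulVec_mulVec, hy, Matrix.mulVec_zero]
    obtain ⟨i, hi⟩ : ∃ i, z i ≠ 0 := by
      by_contra hcon
      push Not at hcon
      exact hz0 (funext hcon)
    set Y₁ : Matrix (Fin m) (Fin m) K := Matrix.single i i 1 with hY₁
    have hY₁s : Y₁ᵀ = Y₁ := by rw [hY₁, Matrix.transpose_single]
    have hYv : ∀ v : Fin m → K, y ⬝ᵥ ((B * Y₁) *ᵥ v) = z i * v i := by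
      intro v
      rw [← Matrix.mulVec_mulVec, Matrix.dotProduct_mulVec, ← Matrix.mulVec_transpose, ← hz, hY₁,
        Matrix.single_mulVec]
      simp [dotProduct, Function.update_apply]
    have hyA : ∀ v : Fin m → K, y ⬝ᵥ (A *ᵥ v) = 0 := by
      intro v
      rw [Matrix.dotProduct_mulVec, ← Matrix.mulVec_transpose, hy, zero_dotProduct]
    have hlt : LinearMap.ker (A + B * Y₁).mulVecLin < LinearMap.ker A.mulVecLin := by
      refine lt_of_le_of_ne ?_ ?_
      · intro v hv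
        rw [LinearMap.mem_ker, Matrix.mulVecLin_apply] at hv ⊢
        have h1 : z i * v i = 0 := by
          have e : y ⬝ᵥ ((A + B * Y₁) *ᵥ v) = z i * v i := by
            rw [Matrix.add_mulVec, dotProduct_add, hyA, hYv, zero_add]
          rw [← e, hv, dotProduct_zero]
        have h2 : v i = 0 := (mul_eq_zero.1 h1).resolve_left hi
        have h3 : (B * Y₁) *ᵥ v = 0 := by
          rw [← Matrix.mulVec_mulVec, hY₁, Matrix.single_mulVec, h2]
          simp
        rwa [Matrix.add_mulVec, h3, add_zero] at hv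
      · intro heq
        have h1 : z ∈ LinearMap.ker A.mulVecLin := by
          rw [LinearMap.mem_ker, Matrix.mulVecLin_apply]; exact hAz
        rw [← heq, LinearMap.mem_ker, Matrix.mulVecLin_apply, Matrix.add_mulVec, hAz,
          zero_add] at h1
        have h2 := hYv z
        rw [h1, dotProduct_zero] at h2
        exact (mul_ne_zero hi hi) h2.symm
    have hlt' := Submodule.finrank_lt_finrank_of_lt hlt
    rw [hn] at hlt'
    have hg' : Sim c (fromBlocks (A + B * Y₁) B (C + D * Y₁) D) := by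
      have := sim_mul hg (sim_nl hY₁s)
      rw [fromBlocks_multiply] at this
      simpa using this
    obtain ⟨Y₂, hY₂, hd⟩ := ih _ hlt' _ _ hg' rfl
    refine ⟨Y₁ + Y₂, by rw [transpose_add, hY₁s, hY₂], ?_⟩
    rwa [Matrix.mul_add, ← add_assoc]

/-- A Lagrangian subspace has a symmetric complement of a special form. -/
theorem exists_sym {A B C D : Matrix (Fin m) (Fin m) K} {c : K}
    (hg : Sim c (fromBlocks A B C D)) :
    ∃ Y : Matrix (Fin m) (Fin m) K, Yᵀ = Y ∧ (A + B * Y).det ≠ 0 :=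
  exists_sym_aux B D c _ A C hg rfl

/-- If the Siegel unipotent acts trivially, then `ρ g` depends only on the multiplier. -/
theorem eq_of_trivial {ρ : Matrix (Fin m ⊕ Fin m) (Fin m ⊕ Fin m) K → (V →ₗ[ℂ] V)}
    (hρ : IsRep ρ)
    (hN : ∀ X : Matrix (Fin m) (Fin m) K, Xᵀ = X → ρ (fromBlocks 1 X 0 1) = LinearMap.id)
    (g : Matrix (Fin m ⊕ Fin m) (Fin m ⊕ Fin m) K) (c : K) (hg : Sim c g) :
    ρ g = ρ (fromBlocks 1 0 0 (c • 1)) := by
  obtain ⟨A, B, C, D, rfl⟩ : ∃ A B C D, g = fromBlocks A B C D :=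
    ⟨_, _, _, _, (fromBlocks_toBlocks g).symm⟩
  obtain ⟨Y, hY, hd⟩ := exists_sym hg
  have h1 : Sim (c * 1) (fromBlocks A B C D * fromBlocks 1 0 Y 1) := sim_mul hg (sim_nl hY)
  have h2 : fromBlocks A B C D * fromBlocks 1 0 Y 1
      = fromBlocks (A + B * Y) B (C + D * Y) D := by
    rw [fromBlocks_multiply]; simp
  have h3 : ρ (fromBlocks A B C D * fromBlocks 1 0 Y 1) = ρ (fromBlocks A B C D) := by
    rw [hρ.mul _ _ _ _ hg (sim_nl hY), lower_trivial hρ hN Y hY, LinearMap.comp_id]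
  rw [← h3, h2]
  rw [h2, mul_one] at h1
  exact bigcell hρ hN _ _ _ _ c h1 hd

end field

variable {p : ℕ} [hp : Fact p.Prime] {m : ℕ} {V : Type*} [AddCommGroup V] [Module ℂ V]

/-- The main construction, for smooth representations on which the Siegel unipotent acts
non-trivially. -/
theorem exists_R
    {ρ : Matrix (Fin m ⊕ Fin m) (Fin m ⊕ Fin m) ℚ_[p] → (V →ₗ[ℂ] V)} (hρ : IsRep ρ)
    (hsm : ∀ v : V, ∃ k : ℕ, ∀ g c, Sim c g → Close k g → ρ g v = v)
    (X₀ : Matrix (Fin m) (Fin m) ℚ_[p]) (hX₀ : X₀ᵀ = X₀)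
    (hX₀ne : ρ (fromBlocks 1 X₀ 0 1) ≠ LinearMap.id) :
    ∃ n : ℕ, ∃ v : V, v ≠ 0 ∧ ∀ g c, Sim c g →
      (∃ a : ℚ_[p], ‖a‖ = 1 ∧ ∀ i j,
          ‖(g - Matrix.diagonal (Sum.elim (fun _ : Fin m => (1 : ℚ_[p])) (fun _ : Fin m => a))) i j‖
            ≤ (p : ℝ) ^ (-(n : ℤ))) → ρ g v = v := by
  classical
  have hp1 : (1 : ℝ) < p := by exact_mod_cast hp.out.one_lt
  have hp0 : (0 : ℝ) < p := by linarith
  obtain ⟨v₀, hv₀⟩ : ∃ v₀, ρ (fromBlocks 1 X₀ 0 1) v₀ ≠ v₀ := by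
    by_contra hcon
    push Not at hcon
    exact hX₀ne (LinearMap.ext hcon)
  have hsym : ∀ x : ℚ_[p], (x • X₀)ᵀ = x • X₀ := by
    intro x; rw [transpose_smul, hX₀]
  obtain ⟨w, hw0, hw⟩ := exists_fixed (p := p)
    (fun x => ρ (fromBlocks 1 (x • X₀) 0 1)) (fun a => ρ (fromBlocks 1 0 0 (a • 1)))
    (by
      simp only [zero_smul, fromBlocks_one]; exact hρ.one)
    (by
      intro x y
      rw [← hρ.mul _ _ _ _ (sim_n (hsym x)) (sim_n (hsym y)), fromBlocks_multiply]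
      congr 2 <;> simp [add_smul, add_comm])
    (by
      simp only [one_smul, fromBlocks_one]; exact hρ.one)
    (by
      intro a b ha hb
      rw [← hρ.mul _ _ _ _ (sim_t ha) (sim_t hb), fromBlocks_multiply]
      congr 2 <;> simp [smul_smul, mul_comm])
    (by
      intro a x ha
      rw [← hρ.mul _ _ _ _ (sim_n (hsym x)) (sim_t ha),
        ← hρ.mul _ _ _ _ (sim_t ha) (sim_n (hsym (a * x))), fromBlocks_multiply,
        fromBlocks_multiply]
      congr 2 <;> simp [smul_smul])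
    (by
      intro v
      obtain ⟨k, hk⟩ := hsm v
      obtain ⟨N, hN⟩ := pow_unbounded_of_one_lt (∑ i, ∑ j, ‖X₀ i j‖) hp1
      refine ⟨N + k, fun x hx => hk _ _ (sim_n (hsym x)) ?_⟩
      intro i j
      rw [← fromBlocks_one, fromBlocks_sub']
      have hε0 : (0 : ℝ) ≤ (p : ℝ) ^ (-(k : ℤ)) := by positivity
      rcases i with i | i <;> rcases j with j | j
      · simpa using hε0
      · simp only [sub_self, sub_zero, fromBlocks_apply₁₂, Matrix.smul_apply, smul_eq_mul, norm_mul]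
        have h1 : ‖X₀ i j‖ ≤ (p : ℝ) ^ N := by
          have h2 : ‖X₀ i j‖ ≤ ∑ j, ‖X₀ i j‖ :=
            Finset.single_le_sum (f := fun j => ‖X₀ i j‖) (fun _ _ => norm_nonneg _)
              (Finset.mem_univ j)
          have h3 : ∑ j, ‖X₀ i j‖ ≤ ∑ i, ∑ j, ‖X₀ i j‖ :=
            Finset.single_le_sum (f := fun i => ∑ j, ‖X₀ i j‖)
              (fun _ _ => Finset.sum_nonneg fun _ _ => norm_nonneg _) (Finset.mem_univ i)
          exact (h2.trans h3).trans hN.le
        calc ‖x‖ * ‖X₀ i j‖ ≤ (p : ℝ) ^ (-((N + k : ℕ) : ℤ)) * (p : ℝ) ^ N := by gcongr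
          _ = (p : ℝ) ^ (-(k : ℤ)) := by
            rw [← zpow_natCast, ← zpow_add₀ hp0.ne']
            congr 1; push_cast; ring
      · simpa using hε0
      · simpa using hε0)
    (by
      intro v
      obtain ⟨k, hk⟩ := hsm v
      refine ⟨k + 1, fun a ha => ?_⟩
      have ha0 : a ≠ 0 := by
        rintro rfl
        have h1 : ‖(0 : ℚ_[p]) - 1‖ = 1 := by simp
        rw [h1] at ha
        have h2 : (p : ℝ) ^ (-((k + 1 : ℕ) : ℤ)) < 1 := by
          rw [_root_.zpow_neg]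
          apply inv_lt_one_of_one_lt₀
          exact one_lt_zpow₀ hp1 (by positivity)
        linarith
      refine hk _ _ (sim_t ha0) ?_
      intro i j
      rw [← fromBlocks_one, fromBlocks_sub']
      have hε0 : (0 : ℝ) ≤ (p : ℝ) ^ (-(k : ℤ)) := by positivity
      rcases i with i | i <;> rcases j with j | j
      · simpa using hε0
      · simpa using hε0
      · simpa using hε0
      · simp only [sub_self, fromBlocks_apply₂₂]
        have h1 : (a • (1 : Matrix (Fin m) (Fin m) ℚ_[p]) - 1) i j = (a - 1) * (1 : Matrix (Fin m) (Fin m) ℚ_[p]) i j := by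
          simp [sub_mul]
        rw [h1, norm_mul]
        have h2 : ‖(1 : Matrix (Fin m) (Fin m) ℚ_[p]) i j‖ ≤ 1 := by
          by_cases h : i = j
          · subst h; simp
          · simp [Matrix.one_apply_ne h]
        calc ‖a - 1‖ * ‖(1 : Matrix (Fin m) (Fin m) ℚ_[p]) i j‖ ≤
            (p : ℝ) ^ (-((k + 1 : ℕ) : ℤ)) * 1 := by gcongr
          _ ≤ (p : ℝ) ^ (-(k : ℤ)) := by
            rw [mul_one]
            exact zpow_le_zpow_right₀ hp1.le (by push_cast; omega))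
    v₀ 1 (by simpa using hv₀)
  obtain ⟨n, hn⟩ := hsm w
  refine ⟨n, w, hw0, ?_⟩
  rintro g c hg ⟨a, ha, hclose⟩
  have ha0 : a ≠ 0 := by
    rintro rfl; simp at ha
  have ht : (fromBlocks 1 0 0 (a⁻¹ • 1) : Matrix (Fin m ⊕ Fin m) (Fin m ⊕ Fin m) ℚ_[p]) *
      (fromBlocks 1 0 0 (a • 1) : Matrix (Fin m ⊕ Fin m) (Fin m ⊕ Fin m) ℚ_[p]) = 1 := by
    rw [fromBlocks_multiply, ← fromBlocks_one]
    congr 1 <;> simp [smul_smul, mul_inv_cancel₀ ha0]
  have ht' : (fromBlocks 1 0 0 (a • 1) : Matrix (Fin m ⊕ Fin m) (Fin m ⊕ Fin m) ℚ_[p]) *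
      (fromBlocks 1 0 0 (a⁻¹ • 1) : Matrix (Fin m ⊕ Fin m) (Fin m ⊕ Fin m) ℚ_[p]) = 1 := by
    rw [fromBlocks_multiply, ← fromBlocks_one]
    congr 1 <;> simp [smul_smul, inv_mul_cancel₀ ha0]
  set g' := (fromBlocks 1 0 0 (a⁻¹ • 1) : Matrix (Fin m ⊕ Fin m) (Fin m ⊕ Fin m) ℚ_[p]) * g with hg'
  have hgg' : g = (fromBlocks 1 0 0 (a • 1) : Matrix (Fin m ⊕ Fin m) (Fin m ⊕ Fin m) ℚ_[p]) * g' := by
    rw [hg', ← Matrix.mul_assoc, ht', Matrix.one_mul]
  have hg's : Sim (a⁻¹ * c) g' := sim_mul (sim_t (inv_ne_zero ha0)) hg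
  have hg'cl : Close n g' := by
    intro i j
    have h1 : g' - 1 = (fromBlocks 1 0 0 (a⁻¹ • 1) : Matrix (Fin m ⊕ Fin m) (Fin m ⊕ Fin m) ℚ_[p]) *
        (g - (fromBlocks 1 0 0 (a • 1) : Matrix (Fin m ⊕ Fin m) (Fin m ⊕ Fin m) ℚ_[p])) := by
      rw [Matrix.mul_sub, ht]
    have h2 : ∀ b : ℚ_[p], (fromBlocks 1 0 0 (b • 1) : Matrix (Fin m ⊕ Fin m) (Fin m ⊕ Fin m) ℚ_[p]) =
        diagonal (Sum.elim (fun _ => 1) (fun _ => b)) := by
      intro b
      rw [← fromBlocks_diagonal]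
      congr 1
      rw [smul_one_eq_diagonal]
    rw [h1, h2, h2, diagonal_mul, norm_mul]
    have h3 : ‖Sum.elim (fun _ : Fin m => (1 : ℚ_[p])) (fun _ : Fin m => a⁻¹) i‖ = 1 := by
      rcases i with i | i
      · simp
      · simp [ha]
    rw [h3, one_mul]
    exact hclose i j
  rw [hgg', hρ.mul _ _ _ _ (sim_t ha0) hg's, LinearMap.comp_apply, hn g' _ hg's hg'cl]
  exact hw a ha


end Pool.Agent.Helper94.GSpComp
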