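import Mathlib

set_option autoImplicit false

namespace Pool.Agent.Helper94.GSpLemmaA

open Finset

variable {p : ℕ} [hp : Fact p.Prime]

/-- An endomorphism-cyclic vector with a finite orbit relation gives an eigenvector in its span. -/
theorem exists_eigenvector_in_span {V : Type*} [AddCommGroup V] [Module ℂ V]
    (u : V →ₗ[ℂ] V) (v : V) (hv : v ≠ 0) (N : ℕ) (hN : 0 < N) (hu : (u ^ N) v = v) :
    ∃ f ∈ Submodule.span ℂ (Set.range fun i : ℕ => (u ^ i) v), f ≠ 0 ∧ ∃ μ : ℂ, u f = μ • f := by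
  classical
  set F : Submodule ℂ V := Submodule.span ℂ (Set.range fun i : Fin N => (u ^ (i : ℕ)) v) with hF
  have hpow : ∀ i : ℕ, (u ^ i) v ∈ F := by
    intro i
    have h1 : (u ^ i) v = (u ^ (i % N)) v := by
      have h2 : ∀ q : ℕ, (u ^ (N * q)) v = v := by
        intro q
        induction q with
        | zero => simp
        | succ q ih =>
          rw [Nat.mul_succ, pow_add, Module.End.mul_apply, hu, ih]
      conv_lhs => rw [← Nat.mod_add_div i N, pow_add, Module.End.mul_apply, h2]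
    rw [h1]
    exact Submodule.subset_span ⟨⟨i % N, Nat.mod_lt _ hN⟩, rfl⟩
  have hFu : ∀ x ∈ F, u x ∈ F := by
    intro x hx
    have : F ≤ F.comap u := by
      rw [hF, Submodule.span_le]
      rintro _ ⟨i, rfl⟩
      simp only [SetLike.mem_coe, Submodule.mem_comap]
      have := hpow (i + 1)
      rwa [pow_succ', Module.End.mul_apply] at this
    exact this hx
  have hfin : FiniteDimensional ℂ F := by
    rw [hF]
    exact FiniteDimensional.span_of_finite ℂ (Set.finite_range _)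
  have hvF : v ∈ F := by simpa using hpow 0
  have hnt : Nontrivial F := ⟨⟨⟨v, hvF⟩, 0, by simpa [Subtype.ext_iff] using hv⟩⟩
  obtain ⟨μ, hμ⟩ := Module.End.exists_eigenvalue (u.restrict hFu : Module.End ℂ F)
  obtain ⟨f, hf⟩ := hμ.exists_hasEigenvector
  refine ⟨(f : V), ?_, ?_, μ, ?_⟩
  · have hle : F ≤ Submodule.span ℂ (Set.range fun i : ℕ => (u ^ i) v) := by
      rw [hF, Submodule.span_le]
      rintro _ ⟨i, rfl⟩
      exact Submodule.subset_span ⟨(i : ℕ), rfl⟩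
    exact hle f.2
  · intro h
    exact hf.2 (Subtype.ext h)
  · have := hf.apply_eq_smul
    have h2 := congrArg (Subtype.val) this
    rw [LinearMap.restrict_apply] at h2
    exact h2

/-- The key lemma: a representation of `ℚ_p ⋊ ℤ_p^×` with a vector not fixed by `ℚ_p` has a
nonzero vector fixed by `ℤ_p^×`. -/
theorem exists_fixed {V : Type*} [AddCommGroup V] [Module ℂ V]
    (U τ : ℚ_[p] → (V →ₗ[ℂ] V))
    (hU0 : U 0 = LinearMap.id)
    (hUadd : ∀ x y, U (x + y) = U x ∘ₗ U y)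
    (hτ1 : τ 1 = LinearMap.id)
    (hτmul : ∀ a b, a ≠ 0 → b ≠ 0 → τ (a * b) = τ a ∘ₗ τ b)
    (hτU : ∀ a x, a ≠ 0 → U x ∘ₗ τ a = τ a ∘ₗ U (a * x))
    (hUsm : ∀ v, ∃ r : ℕ, ∀ x, ‖x‖ ≤ (p : ℝ) ^ (-(r : ℤ)) → U x v = v)
    (hτsm : ∀ v, ∃ k : ℕ, ∀ a, ‖a - 1‖ ≤ (p : ℝ) ^ (-(k : ℤ)) → τ a v = v)
    (v₀ : V) (x₀ : ℚ_[p]) (hx₀ : U x₀ v₀ ≠ v₀) :
    ∃ w : V, w ≠ 0 ∧ ∀ a, ‖a‖ = 1 → τ a w = w := by
  classical
  have hp1 : (1 : ℝ) < p := by exact_mod_cast hp.out.one_lt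
  have hp0 : (0 : ℝ) < p := by linarith
  obtain ⟨k₀, hk₀⟩ := hτsm v₀
  obtain ⟨r₀, hr₀⟩ := hUsm v₀
  -- the level of `v₀` with respect to `U`
  have hx₀ne : x₀ ≠ 0 := by
    rintro rfl
    exact hx₀ (by rw [hU0]; rfl)
  obtain ⟨r, hr, hr'⟩ : ∃ r : ℤ, (∀ x, ‖x‖ ≤ (p : ℝ) ^ (-r) → U x v₀ = v₀) ∧
      ¬ (∀ x, ‖x‖ ≤ (p : ℝ) ^ (-(r - 1)) → U x v₀ = v₀) := by
    by_contra hcon
    push Not at hcon
    have hall : ∀ n : ℕ, ∀ x, ‖x‖ ≤ (p : ℝ) ^ (-((r₀ : ℤ) - n)) → U x v₀ = v₀ := by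
      intro n
      induction n with
      | zero => simpa using hr₀
      | succ n ih =>
        have := hcon _ ih
        intro x hx
        apply this x
        convert hx using 3
        push_cast
        ring
    obtain ⟨n, hn⟩ : ∃ n : ℕ, ‖x₀‖ ≤ (p : ℝ) ^ (-((r₀ : ℤ) - n)) := by
      obtain ⟨n, hn⟩ := pow_unbounded_of_one_lt (‖x₀‖ * (p : ℝ) ^ (r₀ : ℤ)) hp1
      refine ⟨n, ?_⟩
      have : (p : ℝ) ^ (-((r₀ : ℤ) - n)) = (p : ℝ) ^ n / (p : ℝ) ^ (r₀ : ℤ) := by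
        rw [neg_sub, zpow_sub₀ hp0.ne']
        simp
      rw [this, le_div_iff₀ (by positivity)]
      exact hn.le
    exact hx₀ (hall n x₀ hn)
  push Not at hr'
  obtain ⟨x₁, hx₁, hUx₁⟩ := hr'
  -- set up `j`, `y₁`
  obtain ⟨j, hj⟩ : ∃ j : ℕ, j = k₀ + 1 := ⟨_, rfl⟩
  set y₁ : ℚ_[p] := x₁ / (p : ℚ_[p]) ^ k₀ with hy₁
  have hpQ : (p : ℚ_[p]) ≠ 0 := by exact_mod_cast hp.out.ne_zero
  have hx₁y : ((p ^ k₀ : ℕ) : ℚ_[p]) * y₁ = x₁ := by
    rw [hy₁]; push_cast; field_simp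
  -- norm facts
  have hsmall : ∀ z : ℚ_[p], ‖z‖ ≤ (p : ℝ) ^ (-(j : ℤ)) → ‖z * y₁‖ ≤ (p : ℝ) ^ (-r) := by
    intro z hz
    have h1 : ‖y₁‖ ≤ (p : ℝ) ^ (-(r - 1)) * (p : ℝ) ^ (k₀ : ℤ) := by
      rw [hy₁, norm_div, norm_pow, Padic.norm_p, inv_pow, div_inv_eq_mul, zpow_natCast]
      gcongr
    calc ‖z * y₁‖ = ‖z‖ * ‖y₁‖ := norm_mul _ _
      _ ≤ (p : ℝ) ^ (-(j : ℤ)) * ((p : ℝ) ^ (-(r - 1)) * (p : ℝ) ^ (k₀ : ℤ)) := by gcongr
      _ = (p : ℝ) ^ (-r) := by
        rw [← zpow_add₀ hp0.ne', ← zpow_add₀ hp0.ne']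
        congr 1
        rw [hj]; push_cast; ring
  set u : V →ₗ[ℂ] V := U y₁ with hu
  have hupow : ∀ n : ℕ, u ^ n = U ((n : ℚ_[p]) * y₁) := by
    intro n
    induction n with
    | zero => simp [hU0]; rfl
    | succ n ih =>
      rw [pow_succ, ih]
      have : ((n + 1 : ℕ) : ℚ_[p]) * y₁ = (n : ℚ_[p]) * y₁ + y₁ := by push_cast; ring
      rw [this, hUadd]
      rfl
  have hUcomm : ∀ x y, U x ∘ₗ U y = U y ∘ₗ U x := by
    intro x y; rw [← hUadd, ← hUadd, add_comm]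
  -- the good submodule
  let E : Submodule ℂ V :=
    { carrier := {v | (∀ a, ‖a - 1‖ ≤ (p : ℝ) ^ (-(j : ℤ)) → τ a v = v) ∧
        (∀ z, ‖z‖ ≤ (p : ℝ) ^ (-(j : ℤ)) → U (z * y₁) v = v)}
      add_mem' := by
        rintro a b ⟨ha1, ha2⟩ ⟨hb1, hb2⟩
        exact ⟨fun c hc => by rw [map_add, ha1 c hc, hb1 c hc],
          fun c hc => by rw [map_add, ha2 c hc, hb2 c hc]⟩
      zero_mem' := ⟨fun c _ => map_zero _, fun c _ => map_zero _⟩
      smul_mem' := by
        rintro c x ⟨h1, h2⟩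
        exact ⟨fun a ha => by rw [map_smul, h1 a ha], fun a ha => by rw [map_smul, h2 a ha]⟩ }
  have hpjpos : (0 : ℝ) < (p : ℝ) ^ (-(j : ℤ)) := by positivity
  have hpjlt : (p : ℝ) ^ (-(j : ℤ)) < 1 := by
    rw [zpow_neg]
    apply inv_lt_one_of_one_lt₀
    rw [zpow_natCast]
    exact one_lt_pow₀ hp1 (by omega)
  have hnorm1 : ∀ a : ℚ_[p], ‖a - 1‖ ≤ (p : ℝ) ^ (-(j : ℤ)) → ‖a‖ = 1 := by
    intro a ha
    have h1 : ‖a - 1‖ < ‖(1 : ℚ_[p])‖ := by rw [norm_one]; exact lt_of_le_of_lt ha hpjlt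
    have := Padic.add_eq_max_of_ne (p := p) (q := a - 1) (r := 1) h1.ne
    rw [sub_add_cancel, norm_one] at this
    rw [this]
    rw [norm_one] at h1
    exact max_eq_right h1.le
  have hEu : ∀ v ∈ E, u v ∈ E := by
    rintro v ⟨h1, h2⟩
    refine ⟨fun a ha => ?_, fun z hz => ?_⟩
    · have hane : a ≠ 0 := by
        rintro rfl
        have := hnorm1 0 ha
        simp at this
      have h3 : τ a (u v) = U (a⁻¹ * y₁) (τ a v) := by
        have := hτU a (a⁻¹ * y₁) hane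
        rw [← mul_assoc, mul_inv_cancel₀ hane, one_mul] at this
        exact (LinearMap.congr_fun this v).symm
      rw [h3, h1 a ha]
      have h4 : a⁻¹ * y₁ = y₁ + (a⁻¹ - 1) * y₁ := by ring
      rw [h4, hUadd, LinearMap.comp_apply, h2 (a⁻¹ - 1)]
      have h5 : a⁻¹ - 1 = a⁻¹ * (1 - a) := by field_simp
      rw [h5, norm_mul, norm_inv, hnorm1 a ha, inv_one, one_mul, norm_sub_rev]
      exact ha
    · have := LinearMap.congr_fun (hUcomm (z * y₁) y₁) v
      simp only [LinearMap.comp_apply] at this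
      rw [hu, this, h2 z hz]
  have hv₀E : v₀ ∈ E := by
    refine ⟨fun a ha => hk₀ a (ha.trans ?_), fun z hz => hr _ (hsmall z hz)⟩
    exact zpow_le_zpow_right₀ hp1.le (by rw [hj]; push_cast; omega)
  -- the vector `v₁`
  set v₁ : V := (u ^ (p ^ k₀)) v₀ - v₀ with hv₁
  have hv₁ne : v₁ ≠ 0 := by
    rw [hv₁, hupow, hx₁y, sub_ne_zero]
    exact hUx₁
  have hupowE : ∀ (n : ℕ) (v : V), v ∈ E → (u ^ n) v ∈ E := by
    intro n
    induction n with
    | zero => intro v hv; simpa using hv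
    | succ n ih =>
      intro v hv
      rw [pow_succ, Module.End.mul_apply]
      exact ih _ (hEu v hv)
  have hv₁E : v₁ ∈ E := E.sub_mem (hupowE _ _ hv₀E) hv₀E
  have hpj : p ^ j = p ^ k₀ * p := by rw [hj, pow_succ]
  have hupj : ∀ v ∈ E, (u ^ (p ^ j)) v = v := by
    rintro v ⟨h1, h2⟩
    rw [hupow]
    apply h2
    simp
  have hsum : (∑ i ∈ range p, (u ^ (p ^ k₀)) ^ i) v₁ = 0 := by
    have h1 : (∑ i ∈ range p, (u ^ (p ^ k₀)) ^ i) * ((u ^ (p ^ k₀)) - 1) = (u ^ (p ^ k₀)) ^ p - 1 :=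
      geom_sum_mul _ _
    have h2 : v₁ = ((u ^ (p ^ k₀)) - 1) v₀ := by
      rw [hv₁]; simp
    rw [h2, ← Module.End.mul_apply, h1, ← pow_mul, ← hpj]
    simp [hupj v₀ hv₀E]
  obtain ⟨f, hfspan, hfne, μ, hμ⟩ := exists_eigenvector_in_span u v₁ hv₁ne (p ^ j)
    (by have := hp.out.pos; positivity) (hupj v₁ hv₁E)
  have hfE : f ∈ E := by
    have : Submodule.span ℂ (Set.range fun i : ℕ => (u ^ i) v₁) ≤ E := by
      rw [Submodule.span_le]
      rintro _ ⟨i, rfl⟩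
      exact hupowE i v₁ hv₁E
    exact this hfspan
  have hfsum : (∑ i ∈ range p, (u ^ (p ^ k₀)) ^ i) f = 0 := by
    have : Submodule.span ℂ (Set.range fun i : ℕ => (u ^ i) v₁) ≤
        LinearMap.ker (∑ i ∈ range p, (u ^ (p ^ k₀)) ^ i) := by
      rw [Submodule.span_le]
      rintro _ ⟨i, rfl⟩
      simp only [SetLike.mem_coe, LinearMap.mem_ker]
      rw [← Module.End.mul_apply]
      have hc : (∑ i ∈ range p, (u ^ (p ^ k₀)) ^ i) * u ^ i =
          u ^ i * (∑ i ∈ range p, (u ^ (p ^ k₀)) ^ i) := by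
        rw [Finset.sum_mul, Finset.mul_sum]
        apply Finset.sum_congr rfl
        intro l _
        rw [← pow_mul, ← pow_add, ← pow_add, add_comm]
      rw [hc, Module.End.mul_apply, hsum, map_zero]
    exact this hfspan
  have hpowf : ∀ n : ℕ, (u ^ n) f = μ ^ n • f := by
    intro n
    induction n with
    | zero => simp
    | succ n ih =>
      rw [pow_succ, Module.End.mul_apply, hμ, map_smul, ih, smul_smul, pow_succ, mul_comm]
  have hμ1 : μ ^ (p ^ j) = 1 := by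
    have h1 := hupj f hfE
    rw [hpowf] at h1
    have h2 : (μ ^ (p ^ j) - 1) • f = 0 := by rw [sub_smul, h1, one_smul, sub_self]
    rcases smul_eq_zero.mp h2 with h3 | h3
    · exact sub_eq_zero.mp h3
    · exact absurd h3 hfne
  have hμ2 : μ ^ (p ^ k₀) ≠ 1 := by
    intro h
    rw [LinearMap.sum_apply] at hfsum
    have h1 : ∀ i ∈ range p, ((u ^ (p ^ k₀)) ^ i) f = f := by
      intro i _
      rw [← pow_mul, hpowf, pow_mul, h, one_pow, one_smul]
    rw [Finset.sum_congr rfl h1] at hfsum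
    simp only [sum_const, card_range] at hfsum
    rw [← Nat.cast_smul_eq_nsmul ℂ] at hfsum
    rcases smul_eq_zero.mp hfsum with h3 | h3
    · exact hp.out.ne_zero (by exact_mod_cast h3)
    · exact hfne h3
  have hord : orderOf μ = p ^ j := by
    rw [hj]
    rw [hj] at hμ1
    exact orderOf_eq_prime_pow hμ2 hμ1
  -- the family
  have : NeZero (p ^ j) := ⟨(pow_pos hp.out.pos j).ne'⟩
  have hcop : ∀ α : (ZMod (p ^ j))ˣ, ‖(((α : ZMod (p ^ j)).val : ℕ) : ℚ_[p])‖ = 1 := by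
    intro α
    rw [Padic.norm_natCast_eq_one_iff]
    have := ZMod.val_coe_unit_coprime α
    exact (Nat.Coprime.coprime_dvd_right (dvd_pow_self p (by omega)) this).symm
  set G : (ZMod (p ^ j))ˣ → V := fun α => τ (((α : ZMod (p ^ j)).val : ℕ) : ℚ_[p]) f with hG
  have hne_of_norm : ∀ a : ℚ_[p], ‖a‖ = 1 → a ≠ 0 := by
    rintro a ha rfl
    simp at ha
  have hτinj : ∀ a : ℚ_[p], a ≠ 0 → ∀ v, τ a v = 0 → v = 0 := by
    intro a ha v hv
    have h1 := hτmul a⁻¹ a (inv_ne_zero ha) ha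
    rw [inv_mul_cancel₀ ha, hτ1] at h1
    have h2 := LinearMap.congr_fun h1 v
    simp only [LinearMap.id_apply, LinearMap.comp_apply, hv, map_zero] at h2
    exact h2
  have hGeig : ∀ α : (ZMod (p ^ j))ˣ, Module.End.HasEigenvector (u : Module.End ℂ V) (μ ^ ((α : ZMod (p ^ j)).val)) (G α) := by
    intro α
    rw [Module.End.hasEigenvector_iff, Module.End.mem_eigenspace_iff]
    have hne := hne_of_norm _ (hcop α)
    refine ⟨?_, fun h => hfne (hτinj _ hne f h)⟩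
    have h1 := LinearMap.congr_fun (hτU _ y₁ hne) f
    simp only [LinearMap.comp_apply] at h1
    rw [hG]
    simp only
    rw [hu, h1, ← hupow, hpowf, map_smul]
  have hGinj : Function.Injective fun α : (ZMod (p ^ j))ˣ => μ ^ ((α : ZMod (p ^ j)).val) := by
    intro α β hαβ
    simp only at hαβ
    have h1 : (α : ZMod (p ^ j)).val = (β : ZMod (p ^ j)).val := by
      apply pow_injOn_Iio_orderOf (x := μ) _ _ hαβ
      · rw [Set.mem_Iio, hord]; exact ZMod.val_lt _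
      · rw [Set.mem_Iio, hord]; exact ZMod.val_lt _
    exact Units.ext (ZMod.val_injective _ h1)
  have hLI : LinearIndependent ℂ G :=
    Module.End.eigenvectors_linearIndependent' (u : Module.End ℂ V) _ hGinj G hGeig
  refine ⟨∑ α, G α, ?_, ?_⟩
  · intro h0
    have h1 := (Fintype.linearIndependent_iff.mp hLI) (fun _ => 1) (by simpa using h0) 1
    exact one_ne_zero h1
  · intro b hb
    have hbne := hne_of_norm b hb
    -- the class of `b`
    let b' : ℤ_[p] := ⟨b, hb.le⟩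
    have hb'unit : IsUnit b' := by
      rw [PadicInt.isUnit_iff]; exact hb
    let β : (ZMod (p ^ j))ˣ := Units.map (PadicInt.toZModPow (p := p) j).toMonoidHom hb'unit.unit
    have hβ : (β : ZMod (p ^ j)) = PadicInt.toZModPow j b' := rfl
    have key : ∀ α : (ZMod (p ^ j))ˣ, τ b (G α) = G (β * α) := by
      intro α
      set n : ℕ := (α : ZMod (p ^ j)).val with hn
      set l : ℕ := ((β * α : (ZMod (p ^ j))ˣ) : ZMod (p ^ j)).val with hl
      have hnn : ‖(n : ℚ_[p])‖ = 1 := hcop α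
      have hln : ‖(l : ℚ_[p])‖ = 1 := hcop (β * α)
      have hnne := hne_of_norm _ hnn
      have hlne := hne_of_norm _ hln
      have h1 : τ b (G α) = τ (b * n) f := by
        rw [hτmul b n hbne hnne]; rfl
      have h2 : b * n = l * ((l : ℚ_[p])⁻¹ * (b * n)) := by field_simp
      have h3 : ‖(l : ℚ_[p])⁻¹ * (b * n) - 1‖ ≤ (p : ℝ) ^ (-(j : ℤ)) := by
        have h4 : (l : ℚ_[p])⁻¹ * (b * n) - 1 = (l : ℚ_[p])⁻¹ * (b * n - l) := by field_simp
        rw [h4, norm_mul, norm_inv, hln, inv_one, one_mul]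
        have h5 : (b' * n - l : ℤ_[p]) ∈ RingHom.ker (PadicInt.toZModPow (p := p) j) := by
          rw [RingHom.mem_ker, map_sub, map_mul, map_natCast, map_natCast]
          rw [hl, hn, ZMod.natCast_val, ZMod.natCast_val, ZMod.cast_id, ZMod.cast_id,
            Units.val_mul, hβ, sub_self]
        rw [PadicInt.ker_toZModPow] at h5
        have h6 := (PadicInt.norm_le_pow_iff_mem_span_pow (b' * n - l : ℤ_[p]) j).mpr h5
        have h7 : ‖(b' * n - l : ℤ_[p])‖ = ‖(b * n - l : ℚ_[p])‖ := by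
          rw [← PadicInt.padic_norm_e_of_padicInt]
          push_cast
          rfl
        rw [← h7]
        exact h6
      rw [h1, h2, hτmul _ _ hlne (by
        apply mul_ne_zero (inv_ne_zero hlne) (mul_ne_zero hbne hnne))]
      rw [LinearMap.comp_apply, hfE.1 _ h3]
    rw [map_sum]
    simp_rw [key]
    exact Equiv.sum_comp (Equiv.mulLeft β) G

end Pool.Agent.Helper94.GSpLemmaA
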