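import Mathlib

set_option autoImplicit false

namespace Pool.Agent.Helper94.GSpLemmaB

open Matrix

variable {K : Type*} [Field K] {m : ℕ}

/-- The similitude relation with multiplier `c`. -/
def Sim (c : K) (g : Matrix (Fin m ⊕ Fin m) (Fin m ⊕ Fin m) K) : Prop :=
  c ≠ 0 ∧ gᵀ * J (Fin m) K * g = c • J (Fin m) K

theorem sim_mul {c d : K} {g h : Matrix (Fin m ⊕ Fin m) (Fin m ⊕ Fin m) K}
    (hg : Sim c g) (hh : Sim d h) : Sim (c * d) (g * h) := by
  refine ⟨mul_ne_zero hg.1 hh.1, ?_⟩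
  have h1 : (g * h)ᵀ * J (Fin m) K * (g * h) = hᵀ * (gᵀ * J (Fin m) K * g) * h := by
    rw [transpose_mul]; simp only [Matrix.mul_assoc]
  rw [h1, hg.2, Matrix.mul_smul, Matrix.smul_mul, hh.2, smul_smul]

theorem sim_one : Sim (1 : K) (1 : Matrix (Fin m ⊕ Fin m) (Fin m ⊕ Fin m) K) := by
  refine ⟨one_ne_zero, ?_⟩
  simp

theorem sim_blocks {A B C D : Matrix (Fin m) (Fin m) K} {c : K} :
    (fromBlocks A B C D)ᵀ * J (Fin m) K * (fromBlocks A B C D) = c • J (Fin m) K ↔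
      (Cᵀ * A = Aᵀ * C) ∧ (Aᵀ * D - Cᵀ * B = c • (1 : Matrix (Fin m) (Fin m) K)) ∧
      (Dᵀ * A - Bᵀ * C = c • (1 : Matrix (Fin m) (Fin m) K)) ∧ (Dᵀ * B = Bᵀ * D) := by
  rw [J, fromBlocks_transpose, fromBlocks_multiply, fromBlocks_multiply, fromBlocks_smul]
  rw [fromBlocks_inj]
  simp only [Matrix.mul_zero, Matrix.mul_one, Matrix.mul_neg, zero_add, add_zero, smul_zero,
    Matrix.neg_mul, smul_neg]
  constructor
  · rintro ⟨h1, h2, h3, h4⟩
    refine ⟨?_, ?_, ?_, ?_⟩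
    · rw [add_neg_eq_zero] at h1; exact h1
    · rw [← neg_inj, ← h2]; abel
    · rw [← h3]; abel
    · rw [add_neg_eq_zero] at h4; exact h4
  · rintro ⟨h1, h2, h3, h4⟩
    refine ⟨?_, ?_, ?_, ?_⟩
    · rw [add_neg_eq_zero]; exact h1
    · rw [← neg_inj, neg_neg, ← h2]; abel
    · rw [← h3]; abel
    · rw [add_neg_eq_zero]; exact h4

theorem sim_n {X : Matrix (Fin m) (Fin m) K} (hX : Xᵀ = X) :
    Sim (1 : K) (fromBlocks 1 X 0 1) := by
  refine ⟨one_ne_zero, ?_⟩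
  rw [sim_blocks]
  simp [hX]

theorem sim_nl {Y : Matrix (Fin m) (Fin m) K} (hY : Yᵀ = Y) :
    Sim (1 : K) (fromBlocks 1 0 Y 1) := by
  refine ⟨one_ne_zero, ?_⟩
  rw [sim_blocks]
  simp [hY]

theorem sim_t {a : K} (ha : a ≠ 0) :
    Sim a (fromBlocks (1 : Matrix (Fin m) (Fin m) K) 0 0 (a • 1)) := by
  refine ⟨ha, ?_⟩
  rw [sim_blocks]
  simp

theorem sim_m {A : Matrix (Fin m) (Fin m) K} (hA : A.det ≠ 0) :
    Sim (1 : K) (fromBlocks A 0 0 (A⁻¹)ᵀ) := by
  refine ⟨one_ne_zero, ?_⟩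
  rw [sim_blocks]
  have hu : IsUnit A.det := isUnit_iff_ne_zero.mpr hA
  refine ⟨by simp, ?_, ?_, by simp⟩
  · rw [← transpose_mul, nonsing_inv_mul A hu]; simp
  · rw [transpose_transpose, nonsing_inv_mul A hu]; simp

theorem sim_scalar {s : K} (hs : s ≠ 0) :
    Sim (s * s) (s • (1 : Matrix (Fin m ⊕ Fin m) (Fin m ⊕ Fin m) K)) := by
  refine ⟨mul_ne_zero hs hs, ?_⟩
  simp [smul_smul]

/-- Symmetric factorisation of a transvection. -/
theorem transvection_factor (i j : Fin m) (hij : i ≠ j) (c : K) :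
    ∃ S₁ S₂ : Matrix (Fin m) (Fin m) K, S₁ᵀ = S₁ ∧ S₂ᵀ = S₂ ∧ S₁.det ≠ 0 ∧ S₂.det ≠ 0 ∧
      transvection i j c = S₁ * S₂ := by
  classical
  set S₂ : Matrix (Fin m) (Fin m) K := (Equiv.swap i j).toPEquiv.toMatrix with hS₂
  have h22 : S₂ * S₂ = 1 := by
    rw [hS₂, ← PEquiv.toMatrix_trans, ← Equiv.toPEquiv_trans]
    simp
  have hS₂t : S₂ᵀ = S₂ := by
    rw [hS₂, ← PEquiv.toMatrix_symm, ← Equiv.toPEquiv_symm]
    simp
  have hdet2 : S₂.det ≠ 0 := by
    intro h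
    have := congrArg Matrix.det h22
    rw [det_mul, h, det_one] at this
    simp at this
  refine ⟨transvection i j c * S₂, S₂, ?_, hS₂t, ?_, hdet2, ?_⟩
  · have h3 : transvection i j c * S₂ = S₂ + Matrix.single i i c := by
      rw [transvection, Matrix.add_mul, Matrix.one_mul]
      congr 1
      ext a b
      rw [Matrix.mul_apply]
      simp only [Matrix.single_apply, hS₂, PEquiv.toMatrix_apply, Equiv.toPEquiv_apply,
        Option.mem_def, Option.some.injEq]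
      rw [Finset.sum_eq_single j]
      · by_cases ha : i = a
        · subst ha
          by_cases hb : i = b
          · subst hb; simp
          · simp [hb]
        · simp [ha]
      · intro x _ hx
        simp [Ne.symm hx]
      · intro h; exact absurd (Finset.mem_univ _) h
    rw [h3, transpose_add, hS₂t, Matrix.transpose_single]
  · rw [det_mul, det_transvection_of_ne i j hij, one_mul]; exact hdet2
  · rw [Matrix.mul_assoc, h22, Matrix.mul_one]

end Pool.Agent.Helper94.GSpLemmaB
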