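import Pool.Agent.Helper94.GSpLemmaB

set_option autoImplicit false

namespace Pool.Agent.Helper94.GSpLemmaC

open Matrix Pool.Agent.Helper94.GSpLemmaB

variable {K : Type*} [Field K] {m : ℕ} {V : Type*} [AddCommGroup V] [Module ℂ V]

/-- Multiplicativity on the similitude group. -/
structure IsRep (ρ : Matrix (Fin m ⊕ Fin m) (Fin m ⊕ Fin m) K → (V →ₗ[ℂ] V)) : Prop where
  one : ρ 1 = LinearMap.id
  mul : ∀ (c d : K) (g h : Matrix (Fin m ⊕ Fin m) (Fin m ⊕ Fin m) K),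
    Sim c g → Sim d h → ρ (g * h) = ρ g ∘ₗ ρ h

variable {ρ : Matrix (Fin m ⊕ Fin m) (Fin m ⊕ Fin m) K → (V →ₗ[ℂ] V)}

theorem sim_J : Sim (1 : K) (J (Fin m) K) := by
  refine ⟨one_ne_zero, ?_⟩
  have := (sim_blocks (m := m) (A := (0 : Matrix (Fin m) (Fin m) K)) (B := -1) (C := 1) (D := 0)
    (c := (1 : K))).mpr (by simp)
  exact this

theorem sim_negJ : Sim (1 : K) (fromBlocks (0 : Matrix (Fin m) (Fin m) K) 1 (-1) 0) := by
  refine ⟨one_ne_zero, ?_⟩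
  rw [sim_blocks]; simp

theorem lower_trivial (hρ : IsRep ρ)
    (hN : ∀ X : Matrix (Fin m) (Fin m) K, Xᵀ = X → ρ (fromBlocks 1 X 0 1) = LinearMap.id)
    (Y : Matrix (Fin m) (Fin m) K) (hY : Yᵀ = Y) : ρ (fromBlocks 1 0 Y 1) = LinearMap.id := by
  have h1 : fromBlocks 1 0 Y 1 =
      J (Fin m) K * (fromBlocks 1 (-Y) 0 1 * fromBlocks (0 : Matrix (Fin m) (Fin m) K) 1 (-1) 0) := by
    rw [J, fromBlocks_multiply, fromBlocks_multiply]
    simp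
  have h2 : J (Fin m) K * fromBlocks (0 : Matrix (Fin m) (Fin m) K) 1 (-1) 0 = 1 := by
    rw [J, fromBlocks_multiply]; simp
  have hnY : (-Y)ᵀ = -Y := by rw [transpose_neg, hY]
  rw [h1, hρ.mul _ _ _ _ sim_J (sim_mul (sim_n hnY) sim_negJ),
    hρ.mul _ _ _ _ (sim_n hnY) sim_negJ, hN _ hnY, LinearMap.id_comp,
    ← hρ.mul _ _ _ _ sim_J sim_negJ, h2, hρ.one]

theorem w_trivial (hρ : IsRep ρ)
    (hN : ∀ X : Matrix (Fin m) (Fin m) K, Xᵀ = X → ρ (fromBlocks 1 X 0 1) = LinearMap.id)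
    (S : Matrix (Fin m) (Fin m) K) (hS : Sᵀ = S) (hdet : S.det ≠ 0) :
    Sim (1 : K) (fromBlocks 0 S (-S⁻¹) 0) ∧ ρ (fromBlocks 0 S (-S⁻¹) 0) = LinearMap.id := by
  have hu : IsUnit S.det := isUnit_iff_ne_zero.mpr hdet
  have h1 : fromBlocks 0 S (-S⁻¹) 0 =
      fromBlocks 1 S 0 1 * (fromBlocks 1 0 (-S⁻¹) 1 * fromBlocks 1 S 0 1) := by
    rw [fromBlocks_multiply, fromBlocks_multiply]
    simp [mul_nonsing_inv S hu, nonsing_inv_mul S hu]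
  have hSi : (-S⁻¹)ᵀ = -S⁻¹ := by rw [transpose_neg, transpose_nonsing_inv, hS]
  have hs : Sim (1 : K) (fromBlocks 1 0 (-S⁻¹) 1 * fromBlocks 1 S 0 1) := by
    simpa using sim_mul (sim_nl hSi) (sim_n hS)
  constructor
  · rw [h1]
    simpa using sim_mul (sim_n hS) hs
  · rw [h1, hρ.mul _ _ _ _ (sim_n hS) hs, hρ.mul _ _ _ _ (sim_nl hSi) (sim_n hS), hN _ hS,
      lower_trivial hρ hN _ hSi]
    rfl

theorem J_trivial (hρ : IsRep ρ)
    (hN : ∀ X : Matrix (Fin m) (Fin m) K, Xᵀ = X → ρ (fromBlocks 1 X 0 1) = LinearMap.id) :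
    ρ (J (Fin m) K) = LinearMap.id := by
  have h := (w_trivial hρ hN (-1) (by simp) (by
    rw [det_neg, det_one]; simp)).2
  have h2 : (-(-1 : Matrix (Fin m) (Fin m) K)⁻¹) = 1 := by
    have : (-1 : Matrix (Fin m) (Fin m) K)⁻¹ = -1 := by
      apply inv_eq_left_inv; simp
    rw [this, neg_neg]
  rw [h2] at h
  exact h

theorem mS_trivial (hρ : IsRep ρ)
    (hN : ∀ X : Matrix (Fin m) (Fin m) K, Xᵀ = X → ρ (fromBlocks 1 X 0 1) = LinearMap.id)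
    (S : Matrix (Fin m) (Fin m) K) (hS : Sᵀ = S) (hdet : S.det ≠ 0) :
    ρ (fromBlocks S 0 0 (S⁻¹)ᵀ) = LinearMap.id := by
  have h1 : fromBlocks S 0 0 (S⁻¹)ᵀ = fromBlocks 0 S (-S⁻¹) 0 * J (Fin m) K := by
    rw [J, fromBlocks_multiply, transpose_nonsing_inv, hS]
    simp
  obtain ⟨h2, h3⟩ := w_trivial hρ hN S hS hdet
  rw [h1, hρ.mul _ _ _ _ h2 sim_J, h3, J_trivial hρ hN]
  rfl

theorem mA_trivial (hρ : IsRep ρ)
    (hN : ∀ X : Matrix (Fin m) (Fin m) K, Xᵀ = X → ρ (fromBlocks 1 X 0 1) = LinearMap.id)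
    (A : Matrix (Fin m) (Fin m) K) (hdet : A.det ≠ 0) :
    ρ (fromBlocks A 0 0 (A⁻¹)ᵀ) = LinearMap.id := by
  have hmul : ∀ A B : Matrix (Fin m) (Fin m) K, A.det ≠ 0 → B.det ≠ 0 →
      ρ (fromBlocks A 0 0 (A⁻¹)ᵀ) = LinearMap.id → ρ (fromBlocks B 0 0 (B⁻¹)ᵀ) = LinearMap.id →
      ρ (fromBlocks (A * B) 0 0 ((A * B)⁻¹)ᵀ) = LinearMap.id := by
    intro A B hA hB h1 h2
    have h3 : fromBlocks (A * B) 0 0 ((A * B)⁻¹)ᵀ =
        fromBlocks A 0 0 (A⁻¹)ᵀ * fromBlocks B 0 0 (B⁻¹)ᵀ := by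
      rw [fromBlocks_multiply, Matrix.mul_inv_rev, transpose_mul]
      simp
    rw [h3, hρ.mul _ _ _ _ (sim_m hA) (sim_m hB), h1, h2]
    rfl
  refine diagonal_transvection_induction_of_det_ne_zero
    (fun A => ρ (fromBlocks A 0 0 (A⁻¹)ᵀ) = LinearMap.id) A hdet ?_ ?_ hmul
  · intro D hD
    exact mS_trivial hρ hN _ (diagonal_transpose D) hD
  · intro t
    obtain ⟨S₁, S₂, h1, h2, h3, h4, h5⟩ := transvection_factor t.i t.j t.hij t.c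
    have h6 : t.toMatrix = S₁ * S₂ := by
      rw [← h5]; rfl
    rw [h6]
    exact hmul _ _ h3 h4 (mS_trivial hρ hN _ h1 h3) (mS_trivial hρ hN _ h2 h4)

/-- If the Siegel unipotent acts trivially, then `ρ g` only depends on the multiplier of `g`, for
`g` in the big cell. -/
theorem bigcell (hρ : IsRep ρ)
    (hN : ∀ X : Matrix (Fin m) (Fin m) K, Xᵀ = X → ρ (fromBlocks 1 X 0 1) = LinearMap.id)
    (A B C D : Matrix (Fin m) (Fin m) K) (c : K) (hg : Sim c (fromBlocks A B C D))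
    (hdet : A.det ≠ 0) :
    ρ (fromBlocks A B C D) = ρ (fromBlocks 1 0 0 (c • 1)) := by
  have hu : IsUnit A.det := isUnit_iff_ne_zero.mpr hdet
  obtain ⟨hc, hrel⟩ := hg
  rw [sim_blocks] at hrel
  obtain ⟨r1, r2, r3, r4⟩ := hrel
  have hAi : A * A⁻¹ = 1 := mul_nonsing_inv A hu
  have hiA : A⁻¹ * A = 1 := nonsing_inv_mul A hu
  have hAiT : Aᵀ * (A⁻¹)ᵀ = 1 := by rw [← transpose_mul, hiA, transpose_one]
  have hiAT : (A⁻¹)ᵀ * Aᵀ = 1 := by rw [← transpose_mul, hAi, transpose_one]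
  -- `C A⁻¹` is symmetric
  have hY : (C * A⁻¹)ᵀ = C * A⁻¹ := by
    rw [transpose_mul]
    calc (A⁻¹)ᵀ * Cᵀ = (A⁻¹)ᵀ * (Cᵀ * (A * A⁻¹)) := by rw [hAi, Matrix.mul_one]
      _ = (A⁻¹)ᵀ * ((Cᵀ * A) * A⁻¹) := by simp only [Matrix.mul_assoc]
      _ = ((A⁻¹)ᵀ * Aᵀ) * (C * A⁻¹) := by rw [r1]; simp only [Matrix.mul_assoc]
      _ = C * A⁻¹ := by rw [hiAT, Matrix.one_mul]
  -- the Schur complement
  have hD : D = C * A⁻¹ * B + c • (A⁻¹)ᵀ := by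
    have h1 : D = (A⁻¹)ᵀ * (Aᵀ * D) := by rw [← Matrix.mul_assoc, hiAT, Matrix.one_mul]
    have h2 : Aᵀ * D = Cᵀ * B + c • 1 := by rw [← r2]; abel
    have h3 : (A⁻¹)ᵀ * Cᵀ = C * A⁻¹ := by rw [← transpose_mul]; exact hY
    rw [h1, h2, Matrix.mul_add, ← Matrix.mul_assoc, h3, Matrix.mul_smul, Matrix.mul_one]
  -- `A⁻¹ B` is symmetric
  have hX : (A⁻¹ * B)ᵀ = A⁻¹ * B := by
    have h1 : Dᵀ = Bᵀ * (C * A⁻¹) + c • A⁻¹ := by
      rw [hD, transpose_add, transpose_smul, transpose_transpose, transpose_mul, hY]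
    rw [h1, hD, Matrix.add_mul, Matrix.mul_add] at r4
    have h2 : c • A⁻¹ * B = Bᵀ * (c • (A⁻¹)ᵀ) := by
      have h3 : Bᵀ * (C * A⁻¹) * B = Bᵀ * (C * A⁻¹ * B) := by simp only [Matrix.mul_assoc]
      rw [h3] at r4
      exact add_left_cancel r4
    rw [transpose_mul]
    rw [Matrix.smul_mul, Matrix.mul_smul] at h2
    exact (smul_right_injective _ hc h2).symm
  have hfac : fromBlocks A B C D = fromBlocks 1 0 (C * A⁻¹) 1 *
      ((fromBlocks 1 0 0 (c • 1) * fromBlocks A 0 0 (A⁻¹)ᵀ) * fromBlocks 1 (A⁻¹ * B) 0 1) := by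
    rw [fromBlocks_multiply, fromBlocks_multiply, fromBlocks_multiply]
    simp only [Matrix.one_mul, Matrix.zero_mul, Matrix.mul_zero, add_zero, zero_add,
      Matrix.mul_one, Matrix.smul_mul]
    congr 1
    · rw [← Matrix.mul_assoc, hAi, Matrix.one_mul]
    · rw [Matrix.mul_assoc, hiA, Matrix.mul_one]
    · have h5 : C * A⁻¹ * (A * (A⁻¹ * B)) = C * A⁻¹ * B := by
        rw [← Matrix.mul_assoc A, hAi, Matrix.one_mul]
      rw [h5]; exact hD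
  have s1 := sim_mul (sim_t hc) (sim_m hdet)
  have s2 := sim_mul s1 (sim_n hX)
  rw [hfac, hρ.mul _ _ _ _ (sim_nl hY) s2, hρ.mul _ _ _ _ s1 (sim_n hX),
    hρ.mul _ _ _ _ (sim_t hc) (sim_m hdet), lower_trivial hρ hN _ hY, hN _ hX,
    mA_trivial hρ hN A hdet]
  rfl

end Pool.Agent.Helper94.GSpLemmaC
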