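import Pool.Agent.Helper94.GSpLemmaA
import Pool.Agent.Helper94.GSpLemmaC

set_option autoImplicit false

namespace Pool.Agent.Helper94.GSpLemmaD

open Matrix Pool.Agent.Helper94.GSpLemmaB Pool.Agent.Helper94.GSpLemmaC

variable {p : ℕ} [hp : Fact p.Prime] {m : ℕ}

theorem det_ne_zero_of_close (A : Matrix (Fin m) (Fin m) ℚ_[p])
    (hA : ∀ i j, ‖(A - 1) i j‖ ≤ (p : ℝ)⁻¹) : A.det ≠ 0 := by
  classical
  have hp1 : (1 : ℝ) < p := by exact_mod_cast hp.out.one_lt
  have hlt : (p : ℝ)⁻¹ < 1 := inv_lt_one_of_one_lt₀ hp1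
  let E : Matrix (Fin m) (Fin m) ℤ_[p] := fun i j => ⟨(A - 1) i j, (hA i j).trans hlt.le⟩
  have hE : ∀ i j, PadicInt.toZMod (E i j) = 0 := by
    intro i j
    rw [← RingHom.mem_ker, PadicInt.ker_toZMod, PadicInt.maximalIdeal_eq_span_p,
      ← pow_one (p : ℤ_[p]), ← PadicInt.norm_le_pow_iff_mem_span_pow]
    have h1 : ‖E i j‖ ≤ (p : ℝ)⁻¹ := hA i j
    simpa using h1
  have hAE : A = (1 + E).map (algebraMap ℤ_[p] ℚ_[p]) := by
    ext i j
    simp only [Matrix.map_apply, Matrix.add_apply, map_add]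
    have h1 : (algebraMap ℤ_[p] ℚ_[p]) (E i j) = A i j - (1 : Matrix (Fin m) (Fin m) ℚ_[p]) i j := rfl
    have h2 : (algebraMap ℤ_[p] ℚ_[p]) ((1 : Matrix (Fin m) (Fin m) ℤ_[p]) i j) =
        (1 : Matrix (Fin m) (Fin m) ℚ_[p]) i j := by
      by_cases h : i = j
      · subst h; simp
      · simp [Matrix.one_apply_ne h]
    rw [h1, h2]; ring
  have hdet : PadicInt.toZMod (1 + E).det = 1 := by
    rw [RingHom.map_det]
    have : (PadicInt.toZMod (p := p)).mapMatrix (1 + E) = 1 := by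
      rw [map_add, map_one]
      ext i j
      simp [RingHom.mapMatrix_apply, hE]
    rw [this, det_one]
  intro h0
  have h3 : (algebraMap ℤ_[p] ℚ_[p]) (1 + E).det = 0 := by
    rw [RingHom.map_det, RingHom.mapMatrix_apply, ← hAE, h0]
  have h4 : (1 + E).det = 0 := by
    have : Function.Injective (algebraMap ℤ_[p] ℚ_[p]) := Subtype.val_injective
    exact this (by rw [h3, map_zero])
  rw [h4, map_zero] at hdet
  exact zero_ne_one hdet

theorem sqrt_exists (c : ℚ_[p]) (hc : ‖c - 1‖ ≤ (p : ℝ) ^ (-(3 : ℤ))) :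
    ∃ s : ℚ_[p], s ≠ 0 ∧ s * s = c := by
  have hp1 : (1 : ℝ) < p := by exact_mod_cast hp.out.one_lt
  have hp0 : (0 : ℝ) < p := by linarith
  have hlt : (p : ℝ) ^ (-(3 : ℤ)) < 1 := by
    rw [_root_.zpow_neg]; apply inv_lt_one_of_one_lt₀
    exact one_lt_zpow₀ hp1 (by norm_num)
  let e : ℤ_[p] := ⟨c - 1, hc.trans hlt.le⟩
  have h2 : (p : ℝ) ^ (-(2 : ℤ)) ≤ ‖(2 : ℤ_[p])‖ ^ 2 := by
    by_cases h : p = 2
    · have : ‖(2 : ℤ_[p])‖ = (p : ℝ)⁻¹ := by
        have := PadicInt.norm_p (p := p)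
        subst h
        simpa using this
      rw [this, _root_.zpow_neg, inv_pow]
      exact le_of_eq (by norm_cast)
    · have : ‖(2 : ℤ_[p])‖ = 1 := by
        have h3 : IsUnit ((2 : ℕ) : ℤ_[p]) := by
          rw [PadicInt.isUnit_iff]
          have h4 := (Padic.norm_natCast_eq_one_iff (p := p) (n := 2)).mpr
            ((Nat.coprime_primes hp.out Nat.prime_two).mpr h)
          rw [← PadicInt.padic_norm_e_of_padicInt]
          exact_mod_cast h4
        rw [PadicInt.isUnit_iff] at h3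
        exact_mod_cast h3
      rw [this, one_pow, _root_.zpow_neg]
      apply inv_le_one_of_one_le₀
      exact one_le_zpow₀ hp1.le (by norm_num)
  have hen : ‖e‖ ≤ (p : ℝ) ^ (-(3 : ℤ)) := hc
  have hH := hensels_lemma (p := p) (R := ℤ_[p]) (F := Polynomial.X ^ 2 - Polynomial.C (1 + e))
    (a := 1) (by
      simp only [map_sub, map_pow, Polynomial.aeval_X, Polynomial.aeval_C, one_pow,
        Polynomial.derivative_X_pow, Polynomial.derivative_C]
      simp only [Nat.cast_ofNat, map_mul, Algebra.algebraMap_self, RingHom.id_apply,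
        Nat.add_one_sub_one, pow_one, Polynomial.aeval_X, mul_one]
      have h5 : (1 : ℤ_[p]) - (1 + e) = -e := by ring
      rw [h5, norm_neg]
      have h6 : (Polynomial.aeval (1 : ℤ_[p])) (Polynomial.C (2 : ℤ_[p])) = 2 := by simp
      rw [h6, map_zero, sub_zero]
      refine lt_of_le_of_lt hen (lt_of_lt_of_le ?_ h2)
      exact zpow_lt_zpow_right₀ hp1 (by norm_num))
  obtain ⟨z, hz, -⟩ := hH
  simp only [map_sub, map_pow, Polynomial.aeval_X, Polynomial.aeval_C, Algebra.algebraMap_self,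
    RingHom.id_apply] at hz
  have hz2 : z * z = 1 + e := by
    have := sub_eq_zero.mp hz
    rw [← this]; ring
  have hzc : (z : ℚ_[p]) * z = c := by
    have h7 := congrArg (fun x : ℤ_[p] => (x : ℚ_[p])) hz2
    simp only [PadicInt.coe_mul, PadicInt.coe_add, PadicInt.coe_one] at h7
    rw [h7]
    have : (e : ℚ_[p]) = c - 1 := rfl
    rw [this]; ring
  refine ⟨z, ?_, hzc⟩
  intro h0
  rw [h0, mul_zero] at hzc
  rw [← hzc] at hc
  have : ‖(0 : ℚ_[p]) - 1‖ = 1 := by simp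
  rw [this] at hc
  linarith

end Pool.Agent.Helper94.GSpLemmaD
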