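import Pool.Agent.Helper94.GSpLemmaD

set_option autoImplicit false

namespace Pool.Agent.Helper94.GSpMain

open Matrix Pool.Agent.Helper94.GSpLemmaB Pool.Agent.Helper94.GSpLemmaC
  Pool.Agent.Helper94.GSpLemmaD Pool.Agent.Helper94.GSpLemmaA

variable {p : ℕ} [hp : Fact p.Prime] {m : ℕ} {V : Type*} [AddCommGroup V] [Module ℂ V]

/-- Congruence to the identity modulo `p ^ k`. -/
def Close (k : ℕ) (g : Matrix (Fin m ⊕ Fin m) (Fin m ⊕ Fin m) ℚ_[p]) : Prop :=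
  ∀ i j, ‖(g - 1) i j‖ ≤ (p : ℝ) ^ (-(k : ℤ))

theorem fromBlocks_sub' (A B C D A' B' C' D' : Matrix (Fin m) (Fin m) ℚ_[p]) :
    fromBlocks A B C D - fromBlocks A' B' C' D' =
      fromBlocks (A - A') (B - B') (C - C') (D - D') := by
  ext i j
  rcases i with i | i <;> rcases j with j | j <;> simp

theorem mult_close (hm : 1 ≤ m) (k : ℕ) (A B C D : Matrix (Fin m) (Fin m) ℚ_[p]) (c : ℚ_[p])
    (hg : Sim c (fromBlocks A B C D)) (hcl : Close k (fromBlocks A B C D)) :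
    ‖c - 1‖ ≤ (p : ℝ) ^ (-(k : ℤ)) := by
  classical
  have hp1 : (1 : ℝ) < p := by exact_mod_cast hp.out.one_lt
  have hp0 : (0 : ℝ) < p := by linarith
  set ε : ℝ := (p : ℝ) ^ (-(k : ℤ)) with hε
  have hε0 : 0 < ε := by positivity
  have hε1 : ε ≤ 1 := by
    rw [hε, _root_.zpow_neg]
    apply inv_le_one_of_one_le₀
    exact one_le_zpow₀ hp1.le (by positivity)
  have hA : ∀ i j, ‖(A - 1) i j‖ ≤ ε := by
    intro i j
    have := hcl (Sum.inl i) (Sum.inl j)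
    rw [← fromBlocks_one, fromBlocks_sub'] at this
    simpa [hε] using this
  have hB : ∀ i j, ‖B i j‖ ≤ ε := by
    intro i j
    have := hcl (Sum.inl i) (Sum.inr j)
    rw [← fromBlocks_one, fromBlocks_sub'] at this
    simpa [hε] using this
  have hC : ∀ i j, ‖C i j‖ ≤ ε := by
    intro i j
    have := hcl (Sum.inr i) (Sum.inl j)
    rw [← fromBlocks_one, fromBlocks_sub'] at this
    simpa [hε] using this
  have hD : ∀ i j, ‖(D - 1) i j‖ ≤ ε := by
    intro i j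
    have := hcl (Sum.inr i) (Sum.inr j)
    rw [← fromBlocks_one, fromBlocks_sub'] at this
    simpa [hε] using this
  have hrel := hg.2
  rw [sim_blocks] at hrel
  obtain ⟨-, r2, -, -⟩ := hrel
  let i₀ : Fin m := ⟨0, hm⟩
  have h1 : c - 1 = ((A - 1)ᵀ * (D - 1) : Matrix (Fin m) (Fin m) ℚ_[p]) i₀ i₀ + (A - 1) i₀ i₀ + (D - 1) i₀ i₀ - (Cᵀ * B) i₀ i₀ := by
    have h2 := congrFun (congrFun r2 i₀) i₀
    have h3 : ((A - 1)ᵀ * (D - 1)) = Aᵀ * D - Aᵀ - D + 1 := by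
      rw [transpose_sub, transpose_one, Matrix.sub_mul, Matrix.mul_sub, Matrix.mul_one,
        Matrix.one_mul]
      abel
    rw [h3]
    simp only [Matrix.sub_apply, Matrix.smul_apply, Matrix.one_apply_eq, smul_eq_mul, mul_one,
      Matrix.add_apply, Matrix.transpose_apply] at h2 ⊢
    rw [← h2]; ring
  have hmul : ∀ (M N : Matrix (Fin m) (Fin m) ℚ_[p]), (∀ i j, ‖M i j‖ ≤ ε) →
      (∀ i j, ‖N i j‖ ≤ ε) → ∀ i j, ‖(M * N) i j‖ ≤ ε := by
    intro M N hM hN i j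
    rw [Matrix.mul_apply]
    refine IsUltrametricDist.norm_sum_le_of_forall_le_of_nonneg hε0.le ?_
    intro l _
    rw [norm_mul]
    calc ‖M i l‖ * ‖N l j‖ ≤ ε * 1 := by
          gcongr
          · exact hM i l
          · exact (hN l j).trans hε1
      _ = ε := mul_one _
  have n1 := hmul (A - 1)ᵀ (D - 1) (fun i j => hA j i) hD i₀ i₀
  have n2 := hmul Cᵀ B (fun i j => hC j i) hB i₀ i₀
  rw [h1]
  rw [sub_eq_add_neg]
  refine (IsUltrametricDist.norm_add_le_max _ _).trans (max_le ?_ (by rw [norm_neg]; exact n2))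
  refine (IsUltrametricDist.norm_add_le_max _ _).trans (max_le ?_ (hD _ _))
  exact (IsUltrametricDist.norm_add_le_max _ _).trans (max_le n1 (hA _ _))

/-- Case (ii): if the Siegel unipotent acts trivially, then `V` is finite dimensional. -/
theorem finite_of_trivial (hm : 1 ≤ m)
    {ρ : Matrix (Fin m ⊕ Fin m) (Fin m ⊕ Fin m) ℚ_[p] → (V →ₗ[ℂ] V)} (hρ : IsRep ρ)
    (hsm : ∀ v : V, ∃ k : ℕ, ∀ g c, Sim c g → Close k g → ρ g v = v)
    (hadm : ∀ k : ℕ, ∃ s : Finset V, ∀ v : V, (∀ g c, Sim c g → Close k g → ρ g v = v) →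
      v ∈ Submodule.span ℂ (s : Set V))
    (hnt : Nontrivial V)
    (hirr : ∀ W : Submodule ℂ V, (∀ g c, Sim c g → ∀ w ∈ W, ρ g w ∈ W) → W = ⊥ ∨ W = ⊤)
    (hN : ∀ X : Matrix (Fin m) (Fin m) ℚ_[p], Xᵀ = X → ρ (fromBlocks 1 X 0 1) = LinearMap.id) :
    Module.Finite ℂ V := by
  classical
  have hp1 : (1 : ℝ) < p := by exact_mod_cast hp.out.one_lt
  obtain ⟨v₀, hv₀⟩ := exists_ne (0 : V)
  obtain ⟨k, hk⟩ := hsm v₀
  set k' := max k 3 with hk'
  have hmono : ∀ a b : ℕ, a ≤ b → ∀ g : Matrix (Fin m ⊕ Fin m) (Fin m ⊕ Fin m) ℚ_[p],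
      Close b g → Close a g := by
    intro a b hab g hg i j
    exact (hg i j).trans (zpow_le_zpow_right₀ hp1.le (by omega))
  let W : Submodule ℂ V :=
    { carrier := {v | ∀ g c, Sim c g → Close k' g → ρ g v = v}
      add_mem' := by
        intro a b ha hb g c h1 h2
        rw [map_add, ha g c h1 h2, hb g c h1 h2]
      zero_mem' := fun g c _ _ => map_zero _
      smul_mem' := by
        intro t x hx g c h1 h2
        rw [map_smul, hx g c h1 h2] }
  have hv₀W : v₀ ∈ W := fun g c h1 h2 => hk g c h1 (hmono k k' (le_max_left _ _) g h2)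
  have hbig : ∀ (h : Matrix (Fin m ⊕ Fin m) (Fin m ⊕ Fin m) ℚ_[p]) (c : ℚ_[p]), Sim c h →
      Close k' h → ∃ s : ℚ_[p], s ≠ 0 ∧ ρ h = ρ (s • 1) := by
    intro h c hc hcl
    obtain ⟨A, B, C, D, rfl⟩ : ∃ A B C D, h = fromBlocks A B C D :=
      ⟨_, _, _, _, (fromBlocks_toBlocks h).symm⟩
    have hc1 := mult_close hm k' A B C D c hc hcl
    obtain ⟨s, hs0, hs⟩ := sqrt_exists c
      (hc1.trans (zpow_le_zpow_right₀ hp1.le (by
        have := le_max_right k 3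
        omega)))
    have hdetA : A.det ≠ 0 := by
      apply det_ne_zero_of_close
      intro i j
      have h5 := hcl (Sum.inl i) (Sum.inl j)
      rw [← fromBlocks_one, fromBlocks_sub'] at h5
      have h6 : ‖(A - 1) i j‖ ≤ (p : ℝ) ^ (-(k' : ℤ)) := by simpa using h5
      refine h6.trans ?_
      have : (p : ℝ)⁻¹ = (p : ℝ) ^ (-(1 : ℤ)) := by simp
      rw [this]
      exact zpow_le_zpow_right₀ hp1.le (by
        have := le_max_right k 3
        omega)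
    refine ⟨s, hs0, ?_⟩
    rw [bigcell hρ hN A B C D c hc hdetA]
    have h7 : (s • (1 : Matrix (Fin m ⊕ Fin m) (Fin m ⊕ Fin m) ℚ_[p])) =
        fromBlocks (s • 1) 0 0 (s • 1) := by
      rw [← fromBlocks_one, fromBlocks_smul]; simp
    rw [h7]
    have h8 : Sim (s * s) (fromBlocks (s • (1 : Matrix (Fin m) (Fin m) ℚ_[p])) 0 0 (s • 1)) := by
      rw [← h7]; exact sim_scalar hs0
    rw [bigcell hρ hN _ _ _ _ (s * s) h8 (by
      rw [det_smul, det_one, mul_one]; exact pow_ne_zero _ hs0), hs]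
  have hWinv : ∀ g c, Sim c g → ∀ w ∈ W, ρ g w ∈ W := by
    intro g d hg w hw h c hc hcl
    obtain ⟨s, hs0, hs⟩ := hbig h c hc hcl
    have h1 : ρ h w = w := hw h c hc hcl
    rw [hs] at h1 ⊢
    rw [← LinearMap.comp_apply, ← hρ.mul _ _ _ _ (sim_scalar hs0) hg]
    have h2 : s • (1 : Matrix (Fin m ⊕ Fin m) (Fin m ⊕ Fin m) ℚ_[p]) * g = g * (s • 1) := by simp
    rw [h2, hρ.mul _ _ _ _ hg (sim_scalar hs0), LinearMap.comp_apply, h1]
  rcases hirr W hWinv with h | h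
  · rw [h] at hv₀W
    exact absurd ((Submodule.mem_bot ℂ).mp hv₀W) hv₀
  · obtain ⟨s, hs⟩ := hadm k'
    refine ⟨⟨s, ?_⟩⟩
    rw [eq_top_iff]
    intro v _
    apply hs v
    have : v ∈ W := by rw [h]; trivial
    exact this

theorem main (hm : 1 ≤ m)
    {ρ : Matrix (Fin m ⊕ Fin m) (Fin m ⊕ Fin m) ℚ_[p] → (V →ₗ[ℂ] V)} (hρ : IsRep ρ)
    (hsm : ∀ v : V, ∃ k : ℕ, ∀ g c, Sim c g → Close k g → ρ g v = v)
    (hadm : ∀ k : ℕ, ∃ s : Finset V, ∀ v : V, (∀ g c, Sim c g → Close k g → ρ g v = v) →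
      v ∈ Submodule.span ℂ (s : Set V))
    (hnt : Nontrivial V)
    (hirr : ∀ W : Submodule ℂ V, (∀ g c, Sim c g → ∀ w ∈ W, ρ g w ∈ W) → W = ⊥ ∨ W = ⊤)
    (hinf : ¬ Module.Finite ℂ V) :
    ∃ n : ℕ, ∃ v : V, v ≠ 0 ∧ ∀ g c, Sim c g →
      (∃ a : ℚ_[p], ‖a‖ = 1 ∧ ∀ i j,
          ‖(g - Matrix.diagonal (Sum.elim (fun _ : Fin m => (1 : ℚ_[p])) (fun _ : Fin m => a))) i j‖
            ≤ (p : ℝ) ^ (-(n : ℤ))) → ρ g v = v := by
  classical
  have hp1 : (1 : ℝ) < p := by exact_mod_cast hp.out.one_lt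
  have hp0 : (0 : ℝ) < p := by linarith
  -- the Siegel unipotent does not act trivially
  obtain ⟨X₀, hX₀, hX₀ne⟩ : ∃ X : Matrix (Fin m) (Fin m) ℚ_[p], Xᵀ = X ∧
      ρ (fromBlocks 1 X 0 1) ≠ LinearMap.id := by
    by_contra hcon
    push Not at hcon
    exact hinf (finite_of_trivial hm hρ hsm hadm hnt hirr hcon)
  obtain ⟨v₀, hv₀⟩ : ∃ v₀, ρ (fromBlocks 1 X₀ 0 1) v₀ ≠ v₀ := by
    by_contra hcon
    push Not at hcon
    exact hX₀ne (LinearMap.ext hcon)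
  have hsym : ∀ x : ℚ_[p], (x • X₀)ᵀ = x • X₀ := by
    intro x; rw [transpose_smul, hX₀]
  obtain ⟨w, hw0, hw⟩ := exists_fixed (p := p)
    (fun x => ρ (fromBlocks 1 (x • X₀) 0 1)) (fun a => ρ (fromBlocks 1 0 0 (a • 1)))
    (by
      simp only [zero_smul, fromBlocks_one]; exact hρ.one)
    (by
      intro x y
      rw [← hρ.mul _ _ _ _ (sim_n (hsym x)) (sim_n (hsym y)), fromBlocks_multiply]
      congr 2 <;> simp [add_smul, add_comm])
    (by
      simp only [one_smul, fromBlocks_one]; exact hρ.one)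
    (by
      intro a b ha hb
      rw [← hρ.mul _ _ _ _ (sim_t ha) (sim_t hb), fromBlocks_multiply]
      congr 2 <;> simp [smul_smul, mul_comm])
    (by
      intro a x ha
      rw [← hρ.mul _ _ _ _ (sim_n (hsym x)) (sim_t ha),
        ← hρ.mul _ _ _ _ (sim_t ha) (sim_n (hsym (a * x))), fromBlocks_multiply,
        fromBlocks_multiply]
      congr 2 <;> simp [smul_smul])
    (by
      intro v
      obtain ⟨k, hk⟩ := hsm v
      obtain ⟨N, hN⟩ := pow_unbounded_of_one_lt (∑ i, ∑ j, ‖X₀ i j‖) hp1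
      refine ⟨N + k, fun x hx => hk _ _ (sim_n (hsym x)) ?_⟩
      intro i j
      rw [← fromBlocks_one, fromBlocks_sub']
      have hε0 : (0 : ℝ) ≤ (p : ℝ) ^ (-(k : ℤ)) := by positivity
      rcases i with i | i <;> rcases j with j | j
      · simpa using hε0
      · simp only [sub_self, sub_zero, fromBlocks_apply₁₂, Matrix.smul_apply, smul_eq_mul, norm_mul]
        have h1 : ‖X₀ i j‖ ≤ (p : ℝ) ^ N := by
          have h2 : ‖X₀ i j‖ ≤ ∑ j, ‖X₀ i j‖ :=
            Finset.single_le_sum (f := fun j => ‖X₀ i j‖) (fun _ _ => norm_nonneg _)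
              (Finset.mem_univ j)
          have h3 : ∑ j, ‖X₀ i j‖ ≤ ∑ i, ∑ j, ‖X₀ i j‖ :=
            Finset.single_le_sum (f := fun i => ∑ j, ‖X₀ i j‖)
              (fun _ _ => Finset.sum_nonneg fun _ _ => norm_nonneg _) (Finset.mem_univ i)
          exact (h2.trans h3).trans hN.le
        calc ‖x‖ * ‖X₀ i j‖ ≤ (p : ℝ) ^ (-((N + k : ℕ) : ℤ)) * (p : ℝ) ^ N := by gcongr
          _ = (p : ℝ) ^ (-(k : ℤ)) := by
            rw [← zpow_natCast, ← zpow_add₀ hp0.ne']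
            congr 1; push_cast; ring
      · simpa using hε0
      · simpa using hε0)
    (by
      intro v
      obtain ⟨k, hk⟩ := hsm v
      refine ⟨k + 1, fun a ha => ?_⟩
      have ha0 : a ≠ 0 := by
        rintro rfl
        have h1 : ‖(0 : ℚ_[p]) - 1‖ = 1 := by simp
        rw [h1] at ha
        have h2 : (p : ℝ) ^ (-((k + 1 : ℕ) : ℤ)) < 1 := by
          rw [_root_.zpow_neg]
          apply inv_lt_one_of_one_lt₀
          exact one_lt_zpow₀ hp1 (by positivity)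
        linarith
      refine hk _ _ (sim_t ha0) ?_
      intro i j
      rw [← fromBlocks_one, fromBlocks_sub']
      have hε0 : (0 : ℝ) ≤ (p : ℝ) ^ (-(k : ℤ)) := by positivity
      rcases i with i | i <;> rcases j with j | j
      · simpa using hε0
      · simpa using hε0
      · simpa using hε0
      · simp only [sub_self, fromBlocks_apply₂₂]
        have h1 : (a • (1 : Matrix (Fin m) (Fin m) ℚ_[p]) - 1) i j = (a - 1) * (1 : Matrix (Fin m) (Fin m) ℚ_[p]) i j := by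
          simp [sub_mul]
        rw [h1, norm_mul]
        have h2 : ‖(1 : Matrix (Fin m) (Fin m) ℚ_[p]) i j‖ ≤ 1 := by
          by_cases h : i = j
          · subst h; simp
          · simp [Matrix.one_apply_ne h]
        calc ‖a - 1‖ * ‖(1 : Matrix (Fin m) (Fin m) ℚ_[p]) i j‖ ≤
            (p : ℝ) ^ (-((k + 1 : ℕ) : ℤ)) * 1 := by gcongr
          _ ≤ (p : ℝ) ^ (-(k : ℤ)) := by
            rw [mul_one]
            exact zpow_le_zpow_right₀ hp1.le (by push_cast; omega))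
    v₀ 1 (by simpa using hv₀)
  obtain ⟨n, hn⟩ := hsm w
  refine ⟨n, w, hw0, ?_⟩
  rintro g c hg ⟨a, ha, hclose⟩
  have ha0 : a ≠ 0 := by
    rintro rfl; simp at ha
  have ht : (fromBlocks 1 0 0 (a⁻¹ • 1) : Matrix (Fin m ⊕ Fin m) (Fin m ⊕ Fin m) ℚ_[p]) *
      (fromBlocks 1 0 0 (a • 1) : Matrix (Fin m ⊕ Fin m) (Fin m ⊕ Fin m) ℚ_[p]) = 1 := by
    rw [fromBlocks_multiply, ← fromBlocks_one]
    congr 1 <;> simp [smul_smul, mul_inv_cancel₀ ha0]
  have ht' : (fromBlocks 1 0 0 (a • 1) : Matrix (Fin m ⊕ Fin m) (Fin m ⊕ Fin m) ℚ_[p]) *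
      (fromBlocks 1 0 0 (a⁻¹ • 1) : Matrix (Fin m ⊕ Fin m) (Fin m ⊕ Fin m) ℚ_[p]) = 1 := by
    rw [fromBlocks_multiply, ← fromBlocks_one]
    congr 1 <;> simp [smul_smul, inv_mul_cancel₀ ha0]
  set g' := (fromBlocks 1 0 0 (a⁻¹ • 1) : Matrix (Fin m ⊕ Fin m) (Fin m ⊕ Fin m) ℚ_[p]) * g with hg'
  have hgg' : g = (fromBlocks 1 0 0 (a • 1) : Matrix (Fin m ⊕ Fin m) (Fin m ⊕ Fin m) ℚ_[p]) * g' := by
    rw [hg', ← Matrix.mul_assoc, ht', Matrix.one_mul]
  have hg's : Sim (a⁻¹ * c) g' := sim_mul (sim_t (inv_ne_zero ha0)) hg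
  have hg'cl : Close n g' := by
    intro i j
    have h1 : g' - 1 = (fromBlocks 1 0 0 (a⁻¹ • 1) : Matrix (Fin m ⊕ Fin m) (Fin m ⊕ Fin m) ℚ_[p]) *
        (g - (fromBlocks 1 0 0 (a • 1) : Matrix (Fin m ⊕ Fin m) (Fin m ⊕ Fin m) ℚ_[p])) := by
      rw [Matrix.mul_sub, ht]
    have h2 : ∀ b : ℚ_[p], (fromBlocks 1 0 0 (b • 1) : Matrix (Fin m ⊕ Fin m) (Fin m ⊕ Fin m) ℚ_[p]) =
        diagonal (Sum.elim (fun _ => 1) (fun _ => b)) := by
      intro b
      rw [← fromBlocks_diagonal]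
      congr 1
      rw [smul_one_eq_diagonal]
    rw [h1, h2, h2, diagonal_mul, norm_mul]
    have h3 : ‖Sum.elim (fun _ : Fin m => (1 : ℚ_[p])) (fun _ : Fin m => a⁻¹) i‖ = 1 := by
      rcases i with i | i
      · simp
      · simp [ha]
    rw [h3, one_mul]
    exact hclose i j
  rw [hgg', hρ.mul _ _ _ _ (sim_t ha0) hg's, LinearMap.comp_apply, hn g' _ hg's hg'cl]
  exact hw a ha

end Pool.Agent.Helper94.GSpMain
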