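import Pool.Agent.Helper94.RevF

set_option autoImplicit false

namespace Pool.Agent.Helper94.Rev

open Finset Filter

theorem ev_small (C r ε : ℝ) (m : ℕ) (hr0 : 0 < r) (hr1 : r < 1) (hε : 0 < ε) :
    ∀ᶠ k : ℕ in atTop, C * ((k : ℝ) + 2) ^ m * r ^ k ≤ ε := by
  have h1 := tendsto_pow_const_mul_const_pow_of_abs_lt_one m (r := r)
    (by rw [abs_of_pos hr0]; exact hr1)
  have h2 : Tendsto (fun k : ℕ => ((k + 2 : ℕ) : ℝ) ^ m * r ^ (k + 2)) atTop (nhds 0) :=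
    (tendsto_add_atTop_iff_nat (f := fun n : ℕ => (n : ℝ) ^ m * r ^ n) 2).mpr h1
  have h3 : Tendsto (fun k : ℕ => (C / r ^ 2) * (((k + 2 : ℕ) : ℝ) ^ m * r ^ (k + 2))) atTop
      (nhds ((C / r ^ 2) * 0)) := h2.const_mul _
  rw [mul_zero] at h3
  have h4 := (tendsto_order.mp h3).2 ε hε
  filter_upwards [h4] with k hk
  have e : C * ((k : ℝ) + 2) ^ m * r ^ k = (C / r ^ 2) * (((k + 2 : ℕ) : ℝ) ^ m * r ^ (k + 2)) := by
    push_cast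
    rw [pow_add]
    field_simp
  rw [e]; exact hk.le

theorem error_asym (b : ℕ) (hb : 2 ≤ b) : ∃ k₀ : ℕ, ∀ k ≥ k₀, ∀ L : ℕ, k ^ 4 ≤ L → L < (k + 1) ^ 4 →
    (4 ^ 17 * (1 + (L : ℝ) * Real.log b) ^ 3) *
        ((2 + (L : ℝ) * Real.log b) / Real.sqrt ((b : ℝ) ^ k) +
          ((b : ℝ) ^ k) ^ 2 * (1 - cc b) ^ (L / (k + 2))) * (L : ℝ) ^ 2 ≤ 1 := by
  have hb' : (2 : ℝ) ≤ b := by exact_mod_cast hb
  have hb0 : (0 : ℝ) < b := by linarith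
  set β := Real.log b with hβ
  have hβ0 : 0 ≤ β := Real.log_nonneg (by linarith)
  set ρ := 1 - cc b with hρ
  have hρ0 : 0 < ρ := by have := cc_lt_one b hb; linarith
  have hρ1 : ρ < 1 := by have := cc_pos b hb; linarith
  have hsb : 1 < Real.sqrt b := by
    rw [show (1 : ℝ) = Real.sqrt 1 by simp]
    exact Real.sqrt_lt_sqrt (by norm_num) (by linarith)
  have hr1 : 1 / Real.sqrt b < 1 := by
    rw [div_lt_one (by linarith)]; exact hsb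
  have e1 := ev_small (4 ^ 17 * 2 * (1 + β) ^ 4) (1 / Real.sqrt b) (1 / 2) 24 (by positivity) hr1
    (by norm_num)
  have e2 := ev_small (4 ^ 17 * (1 + β) ^ 3) (1 / 2) (1 / 2) 20 (by norm_num) (by norm_num)
    (by norm_num)
  have e3 := ev_small ((b : ℝ) ^ 2) ρ (1 / 2) 0 hρ0 hρ1 (by norm_num)
  have e4 := e1.and (e2.and (e3.and (eventually_ge_atTop 2)))
  rw [eventually_atTop] at e4
  obtain ⟨k₀, hk₀⟩ := e4
  refine ⟨k₀, fun k hk L hL1 hL2 => ?_⟩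
  obtain ⟨f1, f2, f3, hk2⟩ := hk₀ k hk
  have hL1' : ((k : ℝ)) ^ 4 ≤ L := by exact_mod_cast hL1
  have hL2' : (L : ℝ) + 1 ≤ ((k : ℝ) + 2) ^ 4 := by
    have h1 : L + 1 ≤ (k + 1) ^ 4 := hL2
    have h2 : (k + 1) ^ 4 ≤ (k + 2) ^ 4 := Nat.pow_le_pow_left (by omega) 4
    exact_mod_cast h1.trans h2
  set X : ℝ := (k : ℝ) + 2 with hX
  have hX0 : 0 < X := by positivity
  have hLX : (L : ℝ) ≤ X ^ 4 := by linarith
  have hL0 : (0 : ℝ) ≤ L := Nat.cast_nonneg L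
  have g1 : 1 + (L : ℝ) * β ≤ (1 + β) * X ^ 4 := by nlinarith
  have g2 : 2 + (L : ℝ) * β ≤ 2 * (1 + β) * X ^ 4 := by nlinarith
  have g3 : (L : ℝ) ^ 2 ≤ X ^ 8 := by
    calc (L : ℝ) ^ 2 ≤ (X ^ 4) ^ 2 := by gcongr
      _ = X ^ 8 := by ring
  have hsq : Real.sqrt ((b : ℝ) ^ k) = (Real.sqrt b) ^ k := by
    have h1 : (b : ℝ) ^ k = ((Real.sqrt b) ^ k) ^ 2 := by
      rw [← pow_mul, mul_comm, pow_mul, Real.sq_sqrt hb0.le]
    rw [h1, Real.sqrt_sq (by positivity)]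
  have t1 : (4 ^ 17 * (1 + (L : ℝ) * β) ^ 3) * ((2 + (L : ℝ) * β) / Real.sqrt ((b : ℝ) ^ k)) *
      (L : ℝ) ^ 2 ≤ 1 / 2 := by
    rw [hsq]
    have hs0 : 0 < (Real.sqrt b) ^ k := by positivity
    calc _ ≤ (4 ^ 17 * ((1 + β) * X ^ 4) ^ 3) * ((2 * (1 + β) * X ^ 4) / (Real.sqrt b) ^ k) *
          X ^ 8 := by gcongr
      _ = 4 ^ 17 * 2 * (1 + β) ^ 4 * X ^ 24 * (1 / Real.sqrt b) ^ k := by
          rw [div_pow, one_pow]; ring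
      _ ≤ 1 / 2 := f1
  have hdiv : k ^ 2 ≤ L / (k + 2) := by
    rw [Nat.le_div_iff_mul_le (by omega)]
    calc k ^ 2 * (k + 2) ≤ k ^ 2 * k ^ 2 := by
          apply Nat.mul_le_mul_left; nlinarith
      _ = k ^ 4 := by ring
      _ ≤ L := hL1
  have t2 : (4 ^ 17 * (1 + (L : ℝ) * β) ^ 3) * (((b : ℝ) ^ k) ^ 2 * ρ ^ (L / (k + 2))) *
      (L : ℝ) ^ 2 ≤ 1 / 2 := by
    have h1 : ρ ^ (L / (k + 2)) ≤ ρ ^ (k ^ 2) := pow_le_pow_of_le_one hρ0.le hρ1.le hdiv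
    have h2 : ((b : ℝ) ^ k) ^ 2 * ρ ^ (k ^ 2) ≤ (1 / 2) ^ k := by
      have h3 : ((b : ℝ) ^ k) ^ 2 * ρ ^ (k ^ 2) = ((b : ℝ) ^ 2 * X ^ 0 * ρ ^ k) ^ k := by
        rw [pow_zero, mul_one, mul_pow, ← pow_mul, ← pow_mul, ← pow_mul, sq k, mul_comm k 2]
      rw [h3]
      gcongr
    calc _ ≤ (4 ^ 17 * ((1 + β) * X ^ 4) ^ 3) * ((1 / 2) ^ k) * X ^ 8 := by
          have h4 : ((b : ℝ) ^ k) ^ 2 * ρ ^ (L / (k + 2)) ≤ (1 / 2) ^ k :=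
            le_trans (by gcongr) h2
          gcongr
      _ = 4 ^ 17 * (1 + β) ^ 3 * X ^ 20 * (1 / 2) ^ k := by ring
      _ ≤ 1 / 2 := f2
  have : (4 ^ 17 * (1 + (L : ℝ) * β) ^ 3) *
        ((2 + (L : ℝ) * β) / Real.sqrt ((b : ℝ) ^ k) +
          ((b : ℝ) ^ k) ^ 2 * ρ ^ (L / (k + 2))) * (L : ℝ) ^ 2 =
      (4 ^ 17 * (1 + (L : ℝ) * β) ^ 3) * ((2 + (L : ℝ) * β) / Real.sqrt ((b : ℝ) ^ k)) *
      (L : ℝ) ^ 2 + (4 ^ 17 * (1 + (L : ℝ) * β) ^ 3) * (((b : ℝ) ^ k) ^ 2 * ρ ^ (L / (k + 2))) *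
      (L : ℝ) ^ 2 := by ring
  rw [this]
  linarith

theorem GG_asym (b : ℕ) (hb : 2 ≤ b) (Q : ℕ) (hQ : 1 ≤ Q) : ∃ c : ℝ, 0 < c ∧ ∃ L₀ : ℕ, ∀ L ≥ L₀,
    c * L ≤ GG (b ^ (L / 8)) Q := by
  have hb' : (2 : ℝ) ≤ b := by exact_mod_cast hb
  have hβ : 0 < Real.log b := Real.log_pos (by linarith)
  have hQ0 : (0 : ℝ) < Q := by exact_mod_cast hQ
  have hlogQ : 0 ≤ Real.log Q := Real.log_nonneg (by exact_mod_cast hQ)
  obtain ⟨L₀, hL₀⟩ := exists_nat_ge ((Real.log b + Real.log Q) * 16 / Real.log b)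
  refine ⟨Real.log b / (32 * Q), by positivity, L₀, fun L hL => ?_⟩
  refine le_trans ?_ (GG_lower (b ^ (L / 8)) Q (b ^ (L / 8) / Q) hQ (Nat.mul_div_le _ _))
  have h1 : ((b : ℝ) ^ (L / 8)) / Q ≤ ((b ^ (L / 8) / Q : ℕ) : ℝ) + 1 := by
    have := Nat.lt_div_mul_add (a := b ^ (L / 8)) hQ
    rw [div_le_iff₀ hQ0]
    have h2 : b ^ (L / 8) ≤ (b ^ (L / 8) / Q + 1) * Q := by
      rw [add_mul, one_mul]; omega
    exact_mod_cast h2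
  have h2 : Real.log (((b : ℝ) ^ (L / 8)) / Q) ≤ Real.log (((b ^ (L / 8) / Q : ℕ) : ℝ) + 1) :=
    Real.log_le_log (by positivity) h1
  rw [Real.log_div (by positivity) hQ0.ne', Real.log_pow] at h2
  have h3 : (L : ℝ) / 8 - 1 ≤ ((L / 8 : ℕ) : ℝ) := by
    have : L ≤ 8 * (L / 8) + 8 := by omega
    have h' : (L : ℝ) ≤ 8 * ((L / 8 : ℕ) : ℝ) + 8 := by exact_mod_cast this
    linarith
  have h4 : (Real.log b + Real.log Q) * 16 ≤ L * Real.log b := by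
    rw [div_le_iff₀ hβ] at hL₀
    have : (L₀ : ℝ) ≤ L := by exact_mod_cast hL
    nlinarith
  have h5 : L * Real.log b / 16 ≤ Real.log (((b ^ (L / 8) / Q : ℕ) : ℝ) + 1) := by
    nlinarith
  rw [div_mul_eq_mul_div, div_le_div_iff₀ (by positivity) (by positivity)]
  nlinarith

theorem main_bound (b : ℕ) (hb : 2 ≤ b) : ∃ C : ℝ, 0 < C ∧ ∃ L₀ : ℕ, ∀ L ≥ L₀,
    (∀ a : ℤ, ¬ ((b : ℤ) ^ L ∣ a) →
      ‖FF b L (b ^ (L / 8)) (b * (b ^ 2 - 1)) a‖ ≤ (b : ℝ) ^ L / (L : ℝ) ^ 2) ∧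
    ‖FF b L (b ^ (L / 8)) (b * (b ^ 2 - 1)) 0‖ ≤ C * (b : ℝ) ^ L / L := by
  have hb' : (2 : ℝ) ≤ b := by exact_mod_cast hb
  have hb0 : (0 : ℝ) < b := by linarith
  have hβ : 0 < Real.log b := Real.log_pos (by linarith)
  have hQ : 1 ≤ b * (b ^ 2 - 1) := by
    have h1 : 2 ^ 2 ≤ b ^ 2 := Nat.pow_le_pow_left hb 2
    have h2 : 1 ≤ b ^ 2 - 1 := by omega
    exact Nat.one_le_iff_ne_zero.mpr (Nat.mul_ne_zero (by omega) (by omega))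
  obtain ⟨c, hc, L₁, hL₁⟩ := GG_asym b hb _ hQ
  obtain ⟨k₀, hk₀⟩ := error_asym b hb
  refine ⟨1 / c + 1, by positivity, max (max L₁ ((k₀ + 1) ^ 4)) 1, fun L hL => ?_⟩
  have hLL1 : L₁ ≤ L := (le_max_left _ _).trans ((le_max_left _ _).trans hL)
  have hLk : (k₀ + 1) ^ 4 ≤ L := (le_max_right _ _).trans ((le_max_left _ _).trans hL)
  have hL1 : 1 ≤ L := (le_max_right _ _).trans hL
  have hLpos : (0 : ℝ) < L := by exact_mod_cast hL1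
  set k := Nat.sqrt (Nat.sqrt L) with hk
  have hk4 : k ^ 4 ≤ L := by
    have h1 : k ^ 2 ≤ Nat.sqrt L := by rw [sq]; exact Nat.sqrt_le _
    calc k ^ 4 = (k ^ 2) ^ 2 := by ring
      _ ≤ (Nat.sqrt L) ^ 2 := Nat.pow_le_pow_left h1 2
      _ ≤ L := by rw [sq]; exact Nat.sqrt_le _
  have hk5 : L < (k + 1) ^ 4 := by
    have h1 : Nat.sqrt L < (k + 1) * (k + 1) := Nat.lt_succ_sqrt (Nat.sqrt L)
    have h2 : L < (Nat.sqrt L + 1) * (Nat.sqrt L + 1) := Nat.lt_succ_sqrt L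
    calc L < (Nat.sqrt L + 1) * (Nat.sqrt L + 1) := h2
      _ ≤ ((k + 1) * (k + 1)) * ((k + 1) * (k + 1)) := Nat.mul_le_mul h1 h1
      _ = (k + 1) ^ 4 := by ring
  have hkk : k₀ ≤ k := by
    by_contra hcon
    push Not at hcon
    have h1 : (k + 1) ^ 4 ≤ (k₀ + 1) ^ 4 := Nat.pow_le_pow_left (by omega) 4
    omega
  have herr := hk₀ k hkk L hk4 hk5
  set z := b ^ (L / 8) with hz
  have hz1 : 1 ≤ z := Nat.one_le_pow _ _ (by omega)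
  have hzJ : (z ^ 2) ^ 2 ≤ b ^ (L / 2) := by
    rw [hz, ← pow_mul, ← pow_mul]
    exact Nat.pow_le_pow_right (by omega) (by omega)
  have hlogz : Real.log z ≤ L * Real.log b := by
    rw [hz]; push_cast
    rw [Real.log_pow]
    have : ((L / 8 : ℕ) : ℝ) ≤ L := by exact_mod_cast Nat.div_le_self L 8
    gcongr
  have hlogz0 : 0 ≤ Real.log z := Real.log_nonneg (by exact_mod_cast hz1)
  have hcc : 0 ≤ 1 - cc b := by have := cc_lt_one b hb; linarith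
  have hE : ∀ a : ℝ, ∑ x ∈ Frac (z ^ 2) (b * (b ^ 2 - 1)), ‖P b L a x‖ *
      ww z (b * (b ^ 2 - 1)) x.den ≤ (b : ℝ) ^ L / (L : ℝ) ^ 2 := by
    intro a
    refine (error_le b hb L z k (L / 2) hz1 (by omega) hzJ a).trans ?_
    have h1 : (4 ^ 17 * (1 + Real.log z) ^ 3) *
        ((2 + ((L / 2 : ℕ) : ℝ) * Real.log b) / Real.sqrt ((b : ℝ) ^ k) +
          ((b : ℝ) ^ k) ^ 2 * (1 - cc b) ^ (L / (k + 2))) ≤ 1 / (L : ℝ) ^ 2 := by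
      rw [le_div_iff₀ (by positivity)]
      refine le_trans ?_ herr
      have h2 : ((L / 2 : ℕ) : ℝ) ≤ L := by exact_mod_cast Nat.div_le_self L 2
      gcongr
    calc _ = (b : ℝ) ^ L * ((4 ^ 17 * (1 + Real.log z) ^ 3) *
        ((2 + ((L / 2 : ℕ) : ℝ) * Real.log b) / Real.sqrt ((b : ℝ) ^ k) +
          ((b : ℝ) ^ k) ^ 2 * (1 - cc b) ^ (L / (k + 2)))) := by ring
      _ ≤ (b : ℝ) ^ L * (1 / (L : ℝ) ^ 2) := by gcongr
      _ = _ := by ring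
  constructor
  · intro a ha
    refine (norm_FF_le b L z _ hz1 a).trans ?_
    rw [P_int_zero b (by omega) L a ha, norm_zero, mul_zero, zero_add]
    exact hE a
  · refine (norm_FF_le b L z _ hz1 0).trans ?_
    have h1 := hL₁ L hLL1
    have h2 : 0 < GG z (b * (b ^ 2 - 1)) := GG_pos hz1
    have h3 : 1 / GG z (b * (b ^ 2 - 1)) ≤ 1 / (c * L) :=
      one_div_le_one_div_of_le (by positivity) h1
    have h4 := norm_P_le b L 0 0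
    have h5 : (b : ℝ) ^ L / (L : ℝ) ^ 2 ≤ (b : ℝ) ^ L / L := by
      have : (L : ℝ) ≤ (L : ℝ) ^ 2 := by
        have : (1 : ℝ) ≤ L := by exact_mod_cast hL1
        nlinarith
      gcongr
    calc _ ≤ 1 / (c * L) * (b : ℝ) ^ L + (b : ℝ) ^ L / L := by
          gcongr
          exact (hE 0).trans h5
      _ = (1 / c + 1) * (b : ℝ) ^ L / L := by field_simp

end Pool.Agent.Helper94.Rev
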