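import Mathlib

set_option autoImplicit false

namespace Pool.Agent.Helper94.Rev

open Finset

/-- `ex t = exp (2 π i t)`. -/
noncomputable def ex (t : ℝ) : ℂ := Complex.exp ((2 * Real.pi * t : ℝ) * Complex.I)

theorem ex_add (s t : ℝ) : ex (s + t) = ex s * ex t := by
  unfold ex
  rw [← Complex.exp_add]
  congr 1
  push_cast
  ring

theorem ex_zero : ex 0 = 1 := by
  unfold ex; simp

theorem norm_ex (t : ℝ) : ‖ex t‖ = 1 := by
  unfold ex
  exact Complex.norm_exp_ofReal_mul_I _

theorem ex_ne_zero (t : ℝ) : ex t ≠ 0 := Complex.exp_ne_zero _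

theorem ex_int (n : ℤ) : ex n = 1 := by
  unfold ex
  rw [Complex.exp_eq_one_iff]
  exact ⟨n, by push_cast; ring⟩

theorem ex_nat (n : ℕ) : ex n = 1 := by
  have := ex_int n
  exact_mod_cast this

theorem ex_add_int (t : ℝ) (n : ℤ) : ex (t + n) = ex t := by
  rw [ex_add, ex_int, mul_one]

theorem ex_sub_int (t : ℝ) (n : ℤ) : ex (t - n) = ex t := by
  have := ex_add_int t (-n)
  rw [← this]; push_cast; ring_nf

theorem ex_neg (t : ℝ) : ex (-t) = (ex t)⁻¹ := by
  have h : ex (-t) * ex t = 1 := by rw [← ex_add]; simp [ex_zero]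
  exact eq_inv_of_mul_eq_one_left h

theorem conj_ex (t : ℝ) : (starRingEnd ℂ) (ex t) = ex (-t) := by
  unfold ex
  rw [← Complex.exp_conj]
  congr 1
  rw [map_mul, Complex.conj_ofReal, Complex.conj_I]
  push_cast
  ring

theorem ex_nat_mul (n : ℕ) (t : ℝ) : ex (n * t) = ex t ^ n := by
  induction n with
  | zero => simp [ex_zero]
  | succ n ih =>
    rw [pow_succ, ← ih, ← ex_add]
    congr 1; push_cast; ring

theorem norm_ex_sub_one_ge (t δ : ℝ) (h : ∀ n : ℤ, δ ≤ |t - n|) : 4 * δ ≤ ‖ex t - 1‖ := by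
  set u : ℝ := t - round t with hu
  have h1 : ex t = ex u := by
    rw [hu, ex_sub_int]
  have hu2 : |u| ≤ 1 / 2 := abs_sub_round t
  have hδ : δ ≤ |u| := h (round t)
  have h2 : ‖ex u - 1‖ = 2 * |Real.sin (Real.pi * u)| := by
    unfold ex
    have := Complex.norm_exp_I_mul_ofReal_sub_one (2 * Real.pi * u)
    rw [mul_comm, this]
    rw [norm_mul]
    have h3 : 2 * Real.pi * u / 2 = Real.pi * u := by ring
    rw [h3]; simp
  have h3 : 2 * |u| ≤ |Real.sin (Real.pi * u)| := by
    have h4 : |Real.sin (Real.pi * u)| = Real.sin (Real.pi * |u|) := by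
      rcases abs_cases u with ⟨h5, h6⟩ | ⟨h5, h6⟩
      · rw [h5]
        apply abs_of_nonneg
        apply Real.sin_nonneg_of_nonneg_of_le_pi
        · exact mul_nonneg Real.pi_pos.le h6
        · rw [h5] at hu2; nlinarith [Real.pi_pos]
      · rw [h5, mul_neg, Real.sin_neg]
        apply abs_of_nonpos
        have : Real.sin (Real.pi * u) = - Real.sin (Real.pi * (-u)) := by
          rw [mul_neg, Real.sin_neg, neg_neg]
        rw [this, neg_nonpos]
        apply Real.sin_nonneg_of_nonneg_of_le_pi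
        · exact mul_nonneg Real.pi_pos.le (by linarith)
        · rw [h5] at hu2; nlinarith [Real.pi_pos]
    rw [h4]
    have h5 := Real.mul_le_sin (x := Real.pi * |u|) (by positivity)
      (by nlinarith [Real.pi_pos])
    have h6 : 2 / Real.pi * (Real.pi * |u|) = 2 * |u| := by
      field_simp
    rwa [h6] at h5
  rw [h1, h2]
  linarith

/-- Geometric sum bound. -/
theorem norm_geom_le (N : ℕ) (t δ : ℝ) (hδ : 0 < δ) (h : ∀ n : ℤ, δ ≤ |t - n|) :
    ‖∑ m ∈ range N, ex (m * t)‖ ≤ 1 / (2 * δ) := by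
  have h1 := norm_ex_sub_one_ge t δ h
  have h2 : (∑ m ∈ range N, ex (m * t)) * (ex t - 1) = ex t ^ N - 1 := by
    have : ∀ m ∈ range N, ex (m * t) = ex t ^ m := fun m _ => ex_nat_mul m t
    rw [Finset.sum_congr rfl this]
    exact geom_sum_mul (ex t) N
  have h3 : ‖∑ m ∈ range N, ex (m * t)‖ * ‖ex t - 1‖ ≤ 2 := by
    rw [← norm_mul, h2]
    calc ‖ex t ^ N - 1‖ ≤ ‖ex t ^ N‖ + ‖(1 : ℂ)‖ := norm_sub_le _ _
      _ = 2 := by rw [norm_pow, norm_ex]; norm_num
  rw [le_div_iff₀ (by positivity)]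
  have h4 : ‖∑ m ∈ range N, ex (m * t)‖ * (4 * δ) ≤ 2 :=
    le_trans (mul_le_mul_of_nonneg_left h1 (norm_nonneg _)) h3
  linarith

/-- Orthogonality. -/
theorem sum_ex_div (e : ℕ) (he : 0 < e) (m : ℤ) :
    ∑ c ∈ range e, ex (c * m / e) = if (e : ℤ) ∣ m then (e : ℂ) else 0 := by
  have he' : (e : ℝ) ≠ 0 := by positivity
  have h1 : ∀ c ∈ range e, ex (c * m / e) = ex ((m : ℝ) / e) ^ c := by
    intro c _
    rw [← ex_nat_mul]; congr 1; ring
  rw [Finset.sum_congr rfl h1]
  split_ifs with hd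
  · obtain ⟨k, hk⟩ := hd
    have : ex ((m : ℝ) / e) = 1 := by
      rw [hk]; push_cast
      rw [mul_div_cancel_left₀ _ he']
      exact ex_int k
    rw [this]; simp
  · have hne : ex ((m : ℝ) / e) ≠ 1 := by
      intro h
      unfold ex at h
      rw [Complex.exp_eq_one_iff] at h
      obtain ⟨n, hn⟩ := h
      apply hd
      refine ⟨n, ?_⟩
      have h2 : ((2 * Real.pi * ((m : ℝ) / e) : ℝ) : ℂ) = ((n * (2 * Real.pi) : ℝ) : ℂ) := by
        have hI : Complex.I ≠ 0 := Complex.I_ne_zero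
        apply mul_right_cancel₀ hI
        rw [hn]; push_cast; ring
      have h3 : (2 * Real.pi * ((m : ℝ) / e) : ℝ) = n * (2 * Real.pi) := by exact_mod_cast h2
      have h4 : (m : ℝ) / e = n := by
        have hp : (2 * Real.pi) ≠ 0 := by positivity
        apply mul_left_cancel₀ hp
        rw [h3]; ring
      have h5 : (m : ℝ) = e * n := by
        rw [div_eq_iff he'] at h4
        rw [h4]; ring
      exact_mod_cast h5
    have h2 : (∑ c ∈ range e, ex ((m : ℝ) / e) ^ c) * (ex ((m : ℝ) / e) - 1) = 0 := by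
      rw [geom_sum_mul, ← ex_nat_mul, mul_div_cancel₀ _ he', ex_int, sub_self]
    rcases mul_eq_zero.mp h2 with h | h
    · exact h
    · exact absurd (sub_eq_zero.mp h) hne

/-- Digit reversal on `L` digits. -/
def rv (b : ℕ) : ℕ → ℕ → ℕ
  | 0, _ => 0
  | (L + 1), m => (m % b) * b ^ L + rv b L (m / b)

theorem rv_lt (b : ℕ) (hb : 0 < b) (L m : ℕ) : rv b L m < b ^ L := by
  induction L generalizing m with
  | zero => simp [rv]
  | succ L ih =>
    rw [rv, pow_succ]
    have h1 := ih (m / b)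
    have h2 := Nat.mod_lt m hb
    calc m % b * b ^ L + rv b L (m / b) < m % b * b ^ L + b ^ L := by omega
      _ = (m % b + 1) * b ^ L := by ring
      _ ≤ b * b ^ L := Nat.mul_le_mul_right _ h2
      _ = b ^ L * b := by ring

noncomputable def phi (b : ℕ) (t : ℝ) : ℂ := ∑ ε ∈ range b, ex (ε * t)

noncomputable def P (b L : ℕ) (α β : ℝ) : ℂ :=
  ∑ m ∈ range (b ^ L), ex (α * rv b L m / b ^ L + β * m)

theorem sum_range_mul' {M : Type*} [AddCommMonoid M] (b n : ℕ) (g : ℕ → M) :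
    ∑ m ∈ range (b * n), g m = ∑ m ∈ range n, ∑ ε ∈ range b, g (ε + b * m) := by
  induction n with
  | zero => simp
  | succ n ih =>
    rw [Nat.mul_succ, Finset.sum_range_add, ih, Finset.sum_range_succ]
    congr 1
    apply Finset.sum_congr rfl
    intro x _
    rw [add_comm]

theorem P_zero (b : ℕ) (α β : ℝ) : P b 0 α β = 1 := by
  simp [P, rv, ex_zero]

theorem P_succ (b L : ℕ) (hb : 0 < b) (α β : ℝ) :
    P b (L + 1) α β = phi b (α / b + β) * P b L (α / b) (b * β) := by
  have hb' : (b : ℝ) ≠ 0 := by positivity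
  unfold P phi
  rw [pow_succ, mul_comm (b ^ L) b, sum_range_mul', Finset.sum_mul_sum, Finset.sum_comm]
  apply Finset.sum_congr rfl
  intro ε hε
  apply Finset.sum_congr rfl
  intro m _
  rw [← ex_add]
  have hε' : ε < b := Finset.mem_range.mp hε
  have h1 : (ε + b * m) % b = ε := by
    rw [Nat.add_mul_mod_self_left, Nat.mod_eq_of_lt hε']
  have h2 : (ε + b * m) / b = m := by
    rw [Nat.add_mul_div_left _ _ hb, Nat.div_eq_of_lt hε', zero_add]
  rw [rv, h1, h2]
  congr 1
  push_cast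
  field_simp
  ring

theorem P_add (b : ℕ) (hb : 0 < b) (A B : ℕ) (α β : ℝ) :
    P b (A + B) α β = P b A α β * P b B (α / b ^ A) (b ^ A * β) := by
  induction A generalizing α β with
  | zero => simp [P_zero]
  | succ A ih =>
    have h : A + 1 + B = (A + B) + 1 := by ring
    rw [h, P_succ b _ hb, ih, P_succ b _ hb, mul_assoc]
    congr 3
    · rw [div_div, ← pow_succ']
    · rw [pow_succ]; ring

theorem norm_phi_le (b : ℕ) (t : ℝ) : ‖phi b t‖ ≤ b := by
  unfold phi
  refine (norm_sum_le _ _).trans ?_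
  simp [norm_ex]

theorem norm_P_le (b L : ℕ) (α β : ℝ) : ‖P b L α β‖ ≤ (b : ℝ) ^ L := by
  unfold P
  refine (norm_sum_le _ _).trans ?_
  simp [norm_ex]

end Pool.Agent.Helper94.Rev
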