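import Pool.Agent.Helper94.RevAsym

set_option autoImplicit false

namespace Pool.Agent.Helper94.Rev

open Finset

/-- primes with exactly `L` digits in base `b`. -/
def PR (b L : ℕ) : Finset ℕ := (range (b ^ L)).filter (fun p => p.Prime ∧ b ^ (L - 1) ≤ p)

theorem PR_card (b L : ℕ) (hb : 2 ≤ b) :
    (PR b L).card + Nat.count Nat.Prime (b ^ (L - 1)) = Nat.count Nat.Prime (b ^ L) := by
  rw [Nat.count_eq_card_filter_range, Nat.count_eq_card_filter_range]
  have hle : b ^ (L - 1) ≤ b ^ L := Nat.pow_le_pow_right (by omega) (by omega)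
  have hun : (range (b ^ L)).filter Nat.Prime =
      PR b L ∪ (range (b ^ (L - 1))).filter Nat.Prime := by
    ext x
    simp only [PR, Finset.mem_union, Finset.mem_filter, Finset.mem_range]
    constructor
    · rintro ⟨h1, h2⟩
      by_cases h : b ^ (L - 1) ≤ x
      · left; exact ⟨h1, h2, h⟩
      · right; exact ⟨by omega, h2⟩
    · rintro (⟨h1, h2, h3⟩ | ⟨h1, h2⟩)
      · exact ⟨h1, h2⟩
      · exact ⟨by omega, h2⟩
  rw [hun, Finset.card_union_of_disjoint]
  rw [Finset.disjoint_left]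
  intro x hx hy
  simp only [PR, Finset.mem_filter, Finset.mem_range] at hx hy
  omega

theorem prime_count (b : ℕ) (hb : 2 ≤ b) : ∃ c : ℝ, 0 < c ∧ ∃ L₀ : ℕ, ∀ L ≥ L₀,
    ∃ L' : ℕ, L' ≤ L ∧ L ≤ L' + 3 ∧ c * (b : ℝ) ^ L / L ≤ ((PR b L').card : ℝ) := by
  have hb' : (2 : ℝ) ≤ b := by exact_mod_cast hb
  have hb0 : (0 : ℝ) < b := by linarith
  have hβ : 0 < Real.log b := Real.log_pos (by linarith)
  have hlog2 : 0.6931471803 < Real.log 2 := Real.log_two_gt_d9
  have hlog2' : Real.log 2 < 0.6931471808 := Real.log_two_lt_d9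
  have hlog4 : Real.log 4 = 2 * Real.log 2 := by
    rw [show (4 : ℝ) = 2 ^ 2 by norm_num, Real.log_pow]; norm_num
  -- upper bound
  have hup := Chebyshev.eventually_primeCounting_le (ε := 2 - Real.log 4) (by rw [hlog4]; linarith)
  have hpow : Filter.Tendsto (fun n : ℕ => (b : ℝ) ^ n) Filter.atTop Filter.atTop :=
    tendsto_pow_atTop_atTop_of_one_lt (by linarith)
  have hup' := hpow.eventually hup
  rw [Filter.eventually_atTop] at hup'
  obtain ⟨n₁, hn₁⟩ := hup'
  -- small terms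
  obtain ⟨n₂, hn₂⟩ := Filter.eventually_atTop.mp
    (ev_small (10 * (1 + 2 * Real.log b)) (1 / 2) 1 1 (by norm_num) (by norm_num) (by norm_num))
  refine ⟨1 / (40 * Real.log b), by positivity, max (n₁ + 8) (n₂ + 8), ?_⟩
  intro L hL
  have hL1 : n₁ + 8 ≤ L := le_trans (le_max_left _ _) hL
  have hL2 : n₂ + 8 ≤ L := le_trans (le_max_right _ _) hL
  have hL8 : (8 : ℝ) ≤ L := by exact_mod_cast (show 8 ≤ L by omega)
  have hLpos : (0 : ℝ) < L := by linarith
  have hbL : (0 : ℝ) < (b : ℝ) ^ L := by positivity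
  -- the small term bound
  have hsmall : 10 * (1 + 2 * Real.log b) * L ≤ (b : ℝ) ^ L := by
    have h1 := hn₂ L (by omega)
    rw [pow_one] at h1
    have h2 : (2 : ℝ) ^ L ≤ (b : ℝ) ^ L := pow_le_pow_left₀ (by norm_num) hb' L
    have h3 : (10 * (1 + 2 * Real.log b) * L) * (1 / 2) ^ L ≤ 1 := by
      refine le_trans ?_ h1
      gcongr
      linarith
    have h4 : (1 / 2 : ℝ) ^ L * 2 ^ L = 1 := by rw [← mul_pow]; norm_num
    have h5 : 10 * (1 + 2 * Real.log b) * L ≤ 2 ^ L := by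
      calc 10 * (1 + 2 * Real.log b) * L
          = ((10 * (1 + 2 * Real.log b) * L) * (1 / 2) ^ L) * 2 ^ L := by
            rw [mul_assoc _ ((1 / 2 : ℝ) ^ L), h4, mul_one]
        _ ≤ 1 * 2 ^ L := by gcongr
        _ = 2 ^ L := one_mul _
    linarith
  -- lower bound for the count
  have hlow : (b : ℝ) ^ L * 0.59 / (L * Real.log b) ≤ (Nat.count Nat.Prime (b ^ L) : ℝ) := by
    have h1 := Chebyshev.pi_ge (b ^ L)
    have h2 : (Nat.primeCounting (b ^ L) : ℝ) ≤ Nat.count Nat.Prime (b ^ L) + 1 := by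
      have : Nat.primeCounting (b ^ L) ≤ Nat.count Nat.Prime (b ^ L) + 1 := by
        unfold Nat.primeCounting Nat.primeCounting'
        rw [Nat.count_succ]
        split_ifs <;> omega
      exact_mod_cast this
    push_cast at h1
    rw [Real.log_pow] at h1
    have h3 : Real.log ((b : ℝ) ^ L + 1) ≤ 1 + L * Real.log b := by
      have h4 : (b : ℝ) ^ L + 1 ≤ 2 * (b : ℝ) ^ L := by
        have : (1 : ℝ) ≤ (b : ℝ) ^ L := one_le_pow₀ (by linarith)
        linarith
      calc Real.log ((b : ℝ) ^ L + 1) ≤ Real.log (2 * (b : ℝ) ^ L) :=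
            Real.log_le_log (by positivity) h4
        _ = Real.log 2 + L * Real.log b := by
            rw [Real.log_mul (by norm_num) (by positivity), Real.log_pow]
        _ ≤ 1 + L * Real.log b := by linarith
    have h5 : (b : ℝ) ^ L * 0.59 / (L * Real.log b) + 1 ≤
        ((b : ℝ) ^ L * Real.log 2 - Real.log ((b : ℝ) ^ L + 1)) / (L * Real.log b) := by
      rw [div_add_one (by positivity)]
      apply div_le_div_of_nonneg_right _ (by positivity)
      have h6 : (b : ℝ) ^ L * 0.693 ≤ (b : ℝ) ^ L * Real.log 2 := by gcongr; linarith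
      have h7 : (1 : ℝ) ≤ L := by linarith
      nlinarith
    linarith
  -- upper bound for the small count
  have hupp : (Nat.count Nat.Prime (b ^ (L - 4)) : ℝ) ≤ (b : ℝ) ^ L * 0.25 / (L * Real.log b) := by
    have h1 := hn₁ (L - 4) (by omega)
    have h2 : ⌊(b : ℝ) ^ (L - 4)⌋₊ = b ^ (L - 4) := by
      rw [show (b : ℝ) ^ (L - 4) = ((b ^ (L - 4) : ℕ) : ℝ) by push_cast; ring, Nat.floor_natCast]
    rw [h2, Real.log_pow] at h1
    have h3 : (Nat.count Nat.Prime (b ^ (L - 4)) : ℝ) ≤ Nat.primeCounting (b ^ (L - 4)) := by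
      have : Nat.count Nat.Prime (b ^ (L - 4)) ≤ Nat.primeCounting (b ^ (L - 4)) := by
        unfold Nat.primeCounting Nat.primeCounting'
        exact Nat.count_monotone _ (by omega)
      exact_mod_cast this
    refine h3.trans (h1.trans ?_)
    have h4 : ((L - 4 : ℕ) : ℝ) = L - 4 := by rw [Nat.cast_sub (by omega)]; norm_num
    have h5 : (L : ℝ) / 2 ≤ L - 4 := by linarith
    have h6 : (b : ℝ) ^ L = (b : ℝ) ^ (L - 4) * (b : ℝ) ^ 4 := by
      rw [← pow_add]; congr 1; omega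
    have h7 : (16 : ℝ) ≤ (b : ℝ) ^ 4 := by
      calc (16 : ℝ) = 2 ^ 4 := by norm_num
        _ ≤ (b : ℝ) ^ 4 := pow_le_pow_left₀ (by norm_num) hb' 4
    have h8 : (0 : ℝ) < (b : ℝ) ^ (L - 4) := by positivity
    rw [h4, show Real.log 4 + (2 - Real.log 4) = 2 by ring]
    calc 2 * (b : ℝ) ^ (L - 4) / ((L - 4) * Real.log b)
        ≤ 2 * (b : ℝ) ^ (L - 4) / ((L / 2) * Real.log b) := by gcongr
      _ = (b : ℝ) ^ (L - 4) * 16 * 0.25 / (L * Real.log b) := by
          field_simp; norm_num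
      _ ≤ (b : ℝ) ^ (L - 4) * (b : ℝ) ^ 4 * 0.25 / (L * Real.log b) := by gcongr
      _ = _ := by rw [h6]
  -- telescoping
  by_contra hcon
  push Not at hcon
  have t0 := hcon L le_rfl (by omega)
  have t1 := hcon (L - 1) (by omega) (by omega)
  have t2 := hcon (L - 2) (by omega) (by omega)
  have t3 := hcon (L - 3) (by omega) (by omega)
  have u0 : ((PR b L).card : ℝ) + Nat.count Nat.Prime (b ^ (L - 1)) =
    Nat.count Nat.Prime (b ^ L) := by exact_mod_cast PR_card b L hb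
  have u1 : ((PR b (L - 1)).card : ℝ) + Nat.count Nat.Prime (b ^ (L - 2)) =
    Nat.count Nat.Prime (b ^ (L - 1)) := by exact_mod_cast PR_card b (L - 1) hb
  have u2 : ((PR b (L - 2)).card : ℝ) + Nat.count Nat.Prime (b ^ (L - 3)) =
    Nat.count Nat.Prime (b ^ (L - 2)) := by exact_mod_cast PR_card b (L - 2) hb
  have u3 : ((PR b (L - 3)).card : ℝ) + Nat.count Nat.Prime (b ^ (L - 4)) =
    Nat.count Nat.Prime (b ^ (L - 3)) := by exact_mod_cast PR_card b (L - 3) hb
  have hfin : (b : ℝ) ^ L * 0.59 / (L * Real.log b) < (b : ℝ) ^ L * 0.25 / (L * Real.log b) +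
      4 * (1 / (40 * Real.log b) * (b : ℝ) ^ L / L) := by linarith
  have hrw : (b : ℝ) ^ L * 0.25 / (L * Real.log b) +
      4 * (1 / (40 * Real.log b) * (b : ℝ) ^ L / L) = (b : ℝ) ^ L * 0.35 / (L * Real.log b) := by
    field_simp; norm_num
  rw [hrw] at hfin
  have : (b : ℝ) ^ L * 0.35 / (L * Real.log b) ≤ (b : ℝ) ^ L * 0.59 / (L * Real.log b) := by
    gcongr; norm_num
  linarith

end Pool.Agent.Helper94.Rev
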