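import Pool.Agent.Helper94.RevBasic

set_option autoImplicit false

namespace Pool.Agent.Helper94.Rev

open Finset

theorem rv_inj (b : ℕ) (hb : 0 < b) (L : ℕ) : ∀ m m' : ℕ, m < b ^ L → m' < b ^ L →
    rv b L m = rv b L m' → m = m' := by
  induction L with
  | zero => intro m m' h h' _; simp at h h'; omega
  | succ L ih =>
    intro m m' h h' heq
    rw [rv, rv] at heq
    have h1 := rv_lt b hb L (m / b)
    have h2 := rv_lt b hb L (m' / b)
    have hpos : 0 < b ^ L := Nat.pow_pos hb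
    have h3 : m % b = m' % b := by
      have e1 : (m % b * b ^ L + rv b L (m / b)) / b ^ L = m % b := by
        rw [mul_comm, Nat.mul_add_div hpos, Nat.div_eq_of_lt h1, add_zero]
      have e2 : (m' % b * b ^ L + rv b L (m' / b)) / b ^ L = m' % b := by
        rw [mul_comm, Nat.mul_add_div hpos, Nat.div_eq_of_lt h2, add_zero]
      rw [← e1, ← e2, heq]
    have h4 : rv b L (m / b) = rv b L (m' / b) := by rw [h3] at heq; omega
    have h5 : m / b = m' / b := by
      apply ih _ _ _ _ h4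
      · rw [Nat.div_lt_iff_lt_mul hb, ← pow_succ]; exact h
      · rw [Nat.div_lt_iff_lt_mul hb, ← pow_succ]; exact h'
    rw [← Nat.div_add_mod m b, ← Nat.div_add_mod m' b, h3, h5]

theorem parseval (M : ℕ) (hM : 0 < M) (c : ℕ → ℝ) :
    ∑ a ∈ range M, ‖∑ n ∈ range M, (c n : ℂ) * ex (a * n / M)‖ ^ 2 = M * ∑ n ∈ range M, c n ^ 2 := by
  have h1 : ((∑ a ∈ range M, ‖∑ n ∈ range M, (c n : ℂ) * ex (a * n / M)‖ ^ 2 : ℝ) : ℂ) =
      ((M * ∑ n ∈ range M, c n ^ 2 : ℝ) : ℂ) := by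
    push_cast
    have h2 : ∀ a ∈ range M, ((‖∑ n ∈ range M, (c n : ℂ) * ex (a * n / M)‖ : ℂ)) ^ 2 =
        ∑ n ∈ range M, ∑ n' ∈ range M, (c n : ℂ) * (c n' : ℂ) * ex (a * ((n : ℤ) - (n' : ℤ) : ℤ) / M) := by
      intro a _
      have e1 : ((‖∑ n ∈ range M, (c n : ℂ) * ex (a * n / M)‖ : ℂ)) ^ 2 =
          (∑ n ∈ range M, (c n : ℂ) * ex (a * n / M)) *
            (starRingEnd ℂ) (∑ n ∈ range M, (c n : ℂ) * ex (a * n / M)) := by
        rw [Complex.mul_conj, Complex.normSq_eq_norm_sq]; push_cast; rfl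
      rw [e1, map_sum, Finset.sum_mul_sum]
      apply Finset.sum_congr rfl; intro n _
      apply Finset.sum_congr rfl; intro n' _
      rw [map_mul, Complex.conj_ofReal, conj_ex]
      have e2 : (a : ℝ) * (((n : ℤ) - (n' : ℤ) : ℤ) : ℝ) / M = a * n / M + -(a * n' / M) := by
        push_cast; ring
      rw [e2, ex_add]; ring
    rw [Finset.sum_congr rfl h2, Finset.sum_comm, Finset.mul_sum]
    apply Finset.sum_congr rfl
    intro n hn
    rw [Finset.sum_comm]
    have h3 : ∀ n' ∈ range M, ∑ a ∈ range M, (c n : ℂ) * (c n' : ℂ) *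
        ex (a * ((n : ℤ) - (n' : ℤ) : ℤ) / M) = if n' = n then (M : ℂ) * (c n : ℂ) ^ 2 else 0 := by
      intro n' hn'
      rw [← Finset.mul_sum, sum_ex_div M hM]
      have h4 : ((M : ℤ) ∣ ((n : ℤ) - (n' : ℤ))) ↔ n' = n := by
        rw [Finset.mem_range] at hn hn'
        constructor
        · intro h
          have : |(n : ℤ) - n'| < M := by rw [abs_lt]; constructor <;> omega
          have := Int.eq_zero_of_abs_lt_dvd h this
          omega
        · rintro rfl; simp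
      simp only [h4]
      split_ifs with h5
      · subst h5; ring
      · ring
    rw [Finset.sum_congr rfl h3, Finset.sum_ite_eq' (range M) n, if_pos hn]
  exact_mod_cast h1

/-- The restriction (energy) argument. -/
theorem energy (M : ℕ) (hM : 0 < M) (S : Finset ℕ) (hS : S ⊆ range M) (μ : ℕ → ℝ)
    (hμ0 : ∀ n, 0 ≤ μ n) (hμ1 : ∀ n ∈ S, 1 ≤ μ n) (A T : ℝ) (hA : 0 ≤ A) (hT : 0 ≤ T)
    (hF0 : ‖∑ n ∈ range M, (μ n : ℂ) * ex (((0 : ℕ) : ℝ) * n / M)‖ ≤ A)
    (hF : ∀ a ∈ range M, a ≠ 0 → ‖∑ n ∈ range M, (μ n : ℂ) * ex ((a : ℝ) * n / M)‖ ≤ T) :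
    (S.card : ℝ) ^ 4 ≤ ((S ×ˢ S).image (fun q : ℕ × ℕ => q.1 + q.2)).card *
      ((S.card : ℝ) ^ 2 * A ^ 2 / M + T ^ 2 * S.card) := by
  classical
  have hM0 : (0 : ℝ) < M := by exact_mod_cast hM
  set s : ℝ := (S.card : ℝ) with hs
  set ind : ℕ → ℝ := fun n => if n ∈ S then 1 else 0 with hind
  -- representation functions
  set r : ℕ → ℝ := fun n => ∑ u ∈ S, ∑ v ∈ S, if (u + v) % M = n then (1 : ℝ) else 0 with hr
  set c : ℕ → ℝ := fun n => ∑ u ∈ S, ∑ v ∈ range M, if (u + v) % M = n then μ v else 0 with hc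
  have hrc : ∀ n, r n ≤ c n := by
    intro n
    simp only [hr, hc]
    apply Finset.sum_le_sum
    intro u _
    calc ∑ v ∈ S, (if (u + v) % M = n then (1 : ℝ) else 0) ≤
          ∑ v ∈ S, (if (u + v) % M = n then μ v else 0) := by
          apply Finset.sum_le_sum
          intro v hv
          split_ifs
          · exact hμ1 v hv
          · exact le_rfl
      _ ≤ _ := by
          apply Finset.sum_le_sum_of_subset_of_nonneg hS
          intro v _ _
          split_ifs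
          · exact hμ0 v
          · exact le_rfl
  have hr0 : ∀ n, 0 ≤ r n := by
    intro n; simp only [hr]
    apply Finset.sum_nonneg; intro _ _; apply Finset.sum_nonneg; intro _ _
    split_ifs <;> norm_num
  -- product of transforms
  have hprod : ∀ a : ℕ, (∑ n ∈ range M, (c n : ℂ) * ex ((a : ℝ) * n / M)) =
      (∑ u ∈ S, ex ((a : ℝ) * u / M)) * (∑ v ∈ range M, (μ v : ℂ) * ex ((a : ℝ) * v / M)) := by
    intro a
    rw [Finset.sum_mul_sum]
    have h1 : ∀ n ∈ range M, (c n : ℂ) * ex ((a : ℝ) * n / M) =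
        ∑ u ∈ S, ∑ v ∈ range M, if (u + v) % M = n then (μ v : ℂ) * ex ((a : ℝ) * n / M) else 0 := by
      intro n _
      simp only [hc]
      push_cast
      rw [Finset.sum_mul]
      apply Finset.sum_congr rfl; intro u _
      rw [Finset.sum_mul]
      apply Finset.sum_congr rfl; intro v _
      split_ifs <;> simp
    rw [Finset.sum_congr rfl h1, Finset.sum_comm]
    apply Finset.sum_congr rfl; intro u _
    rw [Finset.sum_comm]
    apply Finset.sum_congr rfl; intro v _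
    rw [Finset.sum_ite_eq, if_pos (Finset.mem_range.mpr (Nat.mod_lt _ hM))]
    have h2 : ex ((a : ℝ) * ((u + v) % M : ℕ) / M) = ex ((a : ℝ) * u / M) * ex ((a : ℝ) * v / M) := by
      rw [← ex_add]
      have h3 : (a : ℝ) * u / M + (a : ℝ) * v / M =
          (a : ℝ) * ((u + v) % M : ℕ) / M + ((a * ((u + v) / M) : ℕ) : ℝ) := by
        have h4 : ((u : ℝ) + v) = M * ((u + v) / M : ℕ) + ((u + v) % M : ℕ) := by
          have := Nat.div_add_mod (u + v) M
          exact_mod_cast this.symm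
        have h5 : (a : ℝ) * u / M + (a : ℝ) * v / M = (a : ℝ) * ((u : ℝ) + v) / M := by ring
        rw [h5, h4]; push_cast; field_simp; ring
      rw [h3, ex_add, ex_nat, mul_one]
    rw [h2]; ring
  have hShat : ∀ a : ℕ, ∑ u ∈ S, ex ((a : ℝ) * u / M) =
      ∑ n ∈ range M, (ind n : ℂ) * ex ((a : ℝ) * n / M) := by
    intro a
    simp only [hind]
    rw [← Finset.sum_subset hS]
    · apply Finset.sum_congr rfl; intro n hn; simp [hn]
    · intro n _ hn; simp [hn]
  have hSP : ∑ a ∈ range M, ‖∑ u ∈ S, ex ((a : ℝ) * u / M)‖ ^ 2 = M * s := by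
    have h1 : ∀ a ∈ range M, ‖∑ u ∈ S, ex ((a : ℝ) * u / M)‖ ^ 2 =
        ‖∑ n ∈ range M, (ind n : ℂ) * ex ((a : ℝ) * n / M)‖ ^ 2 := by
      intro a _; rw [hShat a]
    rw [Finset.sum_congr rfl h1, parseval M hM]
    congr 1
    simp only [hind]
    have h2 : ∀ n ∈ range M, (if n ∈ S then (1 : ℝ) else 0) ^ 2 = if n ∈ S then 1 else 0 := by
      intro n _; split_ifs <;> norm_num
    rw [Finset.sum_congr rfl h2, ← Finset.sum_filter]
    have h3 : (range M).filter (fun n => n ∈ S) = S := by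
      ext n; rw [Finset.mem_filter]
      exact ⟨fun h => h.2, fun h => ⟨hS h, h⟩⟩
    rw [h3]; simp [hs]
  -- the energy bound
  have hE : ∑ n ∈ range M, r n ^ 2 ≤ s ^ 2 * A ^ 2 / M + T ^ 2 * s := by
    have h1 : M * ∑ n ∈ range M, r n ^ 2 ≤ s ^ 2 * A ^ 2 + T ^ 2 * (M * s) := by
      calc M * ∑ n ∈ range M, r n ^ 2 ≤ M * ∑ n ∈ range M, c n ^ 2 := by
            have hh : ∀ n ∈ range M, r n ^ 2 ≤ c n ^ 2 := by
              intro n _
              have h0 := hr0 n
              have h1 := hrc n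
              nlinarith
            exact mul_le_mul_of_nonneg_left (Finset.sum_le_sum hh) hM0.le
        _ = ∑ a ∈ range M, ‖∑ n ∈ range M, (c n : ℂ) * ex ((a : ℝ) * n / M)‖ ^ 2 :=
            (parseval M hM c).symm
        _ = ∑ a ∈ range M, ‖∑ u ∈ S, ex ((a : ℝ) * u / M)‖ ^ 2 *
              ‖∑ v ∈ range M, (μ v : ℂ) * ex ((a : ℝ) * v / M)‖ ^ 2 := by
            apply Finset.sum_congr rfl; intro a _
            rw [hprod a, norm_mul, mul_pow]
        _ ≤ s ^ 2 * A ^ 2 + ∑ a ∈ (range M).erase 0, ‖∑ u ∈ S, ex ((a : ℝ) * u / M)‖ ^ 2 * T ^ 2 := by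
            rw [← Finset.add_sum_erase (range M) _ (Finset.mem_range.mpr hM)]
            gcongr with a ha
            · refine (norm_sum_le _ _).trans ?_
              simp [norm_ex, hs]
            · exact hF a (Finset.mem_of_mem_erase ha) (Finset.ne_of_mem_erase ha)
        _ ≤ s ^ 2 * A ^ 2 + ∑ a ∈ range M, ‖∑ u ∈ S, ex ((a : ℝ) * u / M)‖ ^ 2 * T ^ 2 := by
            have hh : ∑ a ∈ (range M).erase 0, ‖∑ u ∈ S, ex ((a : ℝ) * u / M)‖ ^ 2 * T ^ 2 ≤
                ∑ a ∈ range M, ‖∑ u ∈ S, ex ((a : ℝ) * u / M)‖ ^ 2 * T ^ 2 := by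
              apply Finset.sum_le_sum_of_subset_of_nonneg (Finset.erase_subset _ _)
              intro _ _ _; positivity
            linarith
        _ = s ^ 2 * A ^ 2 + T ^ 2 * (M * s) := by
            rw [← Finset.sum_mul, hSP]; ring
    have h2 : s ^ 2 * A ^ 2 / M + T ^ 2 * s = (s ^ 2 * A ^ 2 + T ^ 2 * (M * s)) / M := by
      field_simp
    rw [h2, le_div_iff₀ hM0]
    linarith
  -- Cauchy-Schwarz
  set D := (S ×ˢ S).image (fun q : ℕ × ℕ => q.1 + q.2) with hD
  set D' := D.image (fun n => n % M) with hD'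
  have hsum : ∑ n ∈ D', r n = s ^ 2 := by
    simp only [hr]
    rw [Finset.sum_comm]
    have h1 : ∀ u ∈ S, ∑ n ∈ D', ∑ v ∈ S, (if (u + v) % M = n then (1 : ℝ) else 0) = s := by
      intro u hu
      rw [Finset.sum_comm]
      have h2 : ∀ v ∈ S, ∑ n ∈ D', (if (u + v) % M = n then (1 : ℝ) else 0) = 1 := by
        intro v hv
        rw [Finset.sum_ite_eq, if_pos]
        rw [hD', Finset.mem_image]
        refine ⟨u + v, ?_, rfl⟩
        rw [hD, Finset.mem_image]
        exact ⟨(u, v), Finset.mem_product.mpr ⟨hu, hv⟩, rfl⟩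
      rw [Finset.sum_congr rfl h2]; simp [hs]
    rw [Finset.sum_congr rfl h1]
    simp [hs]; ring
  have hCS : (∑ n ∈ D', r n) ^ 2 ≤ D'.card * ∑ n ∈ D', r n ^ 2 := sq_sum_le_card_mul_sum_sq
  have hD'sub : D' ⊆ range M := by
    intro n hn
    rw [hD', Finset.mem_image] at hn
    obtain ⟨m, _, rfl⟩ := hn
    exact Finset.mem_range.mpr (Nat.mod_lt _ hM)
  calc s ^ 4 = (∑ n ∈ D', r n) ^ 2 := by rw [hsum]; ring
    _ ≤ D'.card * ∑ n ∈ D', r n ^ 2 := hCS
    _ ≤ D.card * ∑ n ∈ range M, r n ^ 2 := by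
        have hc1 : (D'.card : ℝ) ≤ D.card := by exact_mod_cast Finset.card_image_le
        have hc2 : ∑ n ∈ D', r n ^ 2 ≤ ∑ n ∈ range M, r n ^ 2 := by
          apply Finset.sum_le_sum_of_subset_of_nonneg hD'sub
          intro _ _ _; positivity
        have hc3 : 0 ≤ ∑ n ∈ D', r n ^ 2 := Finset.sum_nonneg (fun _ _ => by positivity)
        exact mul_le_mul hc1 hc2 hc3 (by positivity)
    _ ≤ D.card * (s ^ 2 * A ^ 2 / M + T ^ 2 * s) := by gcongr

end Pool.Agent.Helper94.Rev
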