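import Pool.Agent.Helper94.RevCount
import Pool.Agent.Helper94.RevEnergy

set_option autoImplicit false

namespace Pool.Agent.Helper94.Rev

open Finset

/-- reversals of the primes with exactly `L` digits. -/
def RT (b L : ℕ) : Finset ℕ := (PR b L).image (rv b L)

theorem RT_sub (b L : ℕ) (hb : 0 < b) : RT b L ⊆ range (b ^ L) := by
  intro x hx
  rw [RT, Finset.mem_image] at hx
  obtain ⟨p, _, rfl⟩ := hx
  exact Finset.mem_range.mpr (rv_lt b hb L p)

theorem RT_card (b L : ℕ) (hb : 0 < b) : (RT b L).card = (PR b L).card := by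
  apply Finset.card_image_of_injOn
  intro x hx y hy hxy
  simp only [PR, Finset.coe_filter, Finset.mem_range, Set.mem_ofPred_eq] at hx hy
  exact rv_inj b hb L x y hx.1 hy.1 hxy

theorem density_step (b : ℕ) (hb : 2 ≤ b) : ∃ δ : ℝ, 0 < δ ∧ ∃ L₀ : ℕ, ∀ L ≥ L₀,
    ∃ L' : ℕ, L' ≤ L ∧ L ≤ L' + 3 ∧
      δ * (b : ℝ) ^ L' ≤ ((RT b L' ×ˢ RT b L').image (fun q : ℕ × ℕ => q.1 + q.2)).card := by
  have hb' : (2 : ℝ) ≤ b := by exact_mod_cast hb
  have hb0 : (0 : ℝ) < b := by linarith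
  obtain ⟨C, hC, L₁, hL₁⟩ := main_bound b hb
  obtain ⟨c, hc, L₂, hL₂⟩ := prime_count b hb
  set c₂ := c / 4 with hc₂
  have hc₂0 : 0 < c₂ := by positivity
  refine ⟨c₂ ^ 2 / (C ^ 2 + 1 / c₂), by positivity, L₁ + L₂ + 5, ?_⟩
  intro L hL
  obtain ⟨L', h1, h2, h3⟩ := hL₂ L (by omega)
  refine ⟨L', h1, h2, ?_⟩
  have hL'2 : 2 ≤ L' := by omega
  have hL'r : (2 : ℝ) ≤ L' := by exact_mod_cast hL'2
  obtain ⟨hF, hF0⟩ := hL₁ L' (by omega)
  set M : ℕ := b ^ L' with hM
  have hMpos : 0 < M := Nat.pow_pos (by omega)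
  have hMr : (0 : ℝ) < M := by exact_mod_cast hMpos
  have hMcast : (M : ℝ) = (b : ℝ) ^ L' := by rw [hM]; push_cast; ring
  set z := b ^ (L' / 8) with hz
  set Q := b * (b ^ 2 - 1) with hQ
  have hz1 : 1 ≤ z := Nat.one_le_pow _ _ (by omega)
  set s : ℝ := ((RT b L').card : ℝ) with hs
  -- lower bound for `s`
  have hslow : c₂ * M / L' ≤ s := by
    rw [hs, RT_card b L' (by omega)]
    refine le_trans ?_ h3
    have hLL : (L : ℝ) ≤ 4 * L' := by
      have : L ≤ 4 * L' := by omega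
      exact_mod_cast this
    have hLpos : (0 : ℝ) < L := by
      have : 0 < L := by omega
      exact_mod_cast this
    have hpow : (M : ℝ) ≤ (b : ℝ) ^ L := by
      rw [hMcast]; exact pow_le_pow_right₀ (by linarith) h1
    calc c₂ * M / L' = c * M / (4 * L') := by rw [hc₂]; field_simp
      _ ≤ c * M / L := by gcongr
      _ ≤ c * (b : ℝ) ^ L / L := by gcongr
  -- the majorant
  set μ : ℕ → ℝ := fun n => ∑ m ∈ (range M).filter (fun m => rv b L' m = n), nu z Q m with hμ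
  have hμ0 : ∀ n, 0 ≤ μ n := fun n => Finset.sum_nonneg (fun m _ => nu_nonneg z Q m)
  have hμ1 : ∀ n ∈ RT b L', 1 ≤ μ n := by
    intro n hn
    rw [RT, Finset.mem_image] at hn
    obtain ⟨p, hp, rfl⟩ := hn
    simp only [PR, Finset.mem_filter, Finset.mem_range] at hp
    have hzp : z < p := by
      refine lt_of_lt_of_le ?_ hp.2.2
      rw [hz]; exact Nat.pow_lt_pow_right (by omega) (by omega)
    rw [← nu_prime z Q p hz1 hp.2.1 hzp]
    simp only [hμ]
    apply Finset.single_le_sum (f := fun m => nu z Q m) (fun m _ => nu_nonneg z Q m)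
    rw [Finset.mem_filter, Finset.mem_range]
    exact ⟨hp.1, rfl⟩
  have hFF : ∀ a : ℝ, ∑ n ∈ range M, (μ n : ℂ) * ex (a * n / M) = FF b L' z Q a := by
    intro a
    simp only [hμ, FF]
    have hfib := Finset.sum_fiberwise_of_maps_to (s := range (b ^ L')) (t := range M)
      (g := fun m => rv b L' m) (fun m _ => Finset.mem_range.mpr (rv_lt b (by omega) L' m))
      (fun m => (nu z Q m : ℂ) * ex (a * rv b L' m / b ^ L'))
    rw [← hfib]
    apply Finset.sum_congr rfl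
    intro n _
    push_cast
    rw [Finset.sum_mul]
    apply Finset.sum_congr rfl
    intro m hm
    rw [Finset.mem_filter] at hm
    rw [hm.2, hMcast]
  have hen := energy M hMpos (RT b L') (RT_sub b L' (by omega)) μ hμ0 hμ1
    (C * M / L') (M / L' ^ 2) (by positivity) (by positivity)
    (by rw [hFF, hMcast]; simpa using hF0)
    (by
      intro a ha ha0
      rw [hFF, hMcast]
      have := hF (a : ℤ) (by
        intro hdvd
        rw [Finset.mem_range] at ha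
        have h4 : (M : ℤ) ∣ (a : ℤ) := by rw [hM]; push_cast; exact hdvd
        have h5 : M ∣ a := by exact_mod_cast h4
        have h6 := Nat.le_of_dvd (by omega) h5
        omega)
      simpa using this)
  rw [← hs] at hen
  set D : ℝ := (((RT b L' ×ˢ RT b L').image (fun q : ℕ × ℕ => q.1 + q.2)).card : ℝ) with hD
  have hD0 : 0 ≤ D := by rw [hD]; positivity
  have hs0 : 0 < s := lt_of_lt_of_le (by positivity) hslow
  have hL'0 : (0 : ℝ) < L' := by linarith
  -- combine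
  have hMs : (M : ℝ) ≤ s * L' / c₂ := by
    rw [le_div_iff₀ hc₂0]
    rw [div_le_iff₀ hL'0] at hslow
    linarith
  have hb1 : s ^ 2 * (C * M / L') ^ 2 / M + (M / L' ^ 2) ^ 2 * s ≤
      s ^ 2 * (M / L' ^ 2) * (C ^ 2 + 1 / c₂) := by
    have e1 : s ^ 2 * (C * M / L') ^ 2 / M = s ^ 2 * (M / L' ^ 2) * C ^ 2 := by
      field_simp
    have e2 : ((M : ℝ) / L' ^ 2) ^ 2 * s ≤ s ^ 2 * (M / L' ^ 2) * (1 / c₂) := by
      have e3 : ((M : ℝ) / L' ^ 2) ^ 2 * s = (M / L' ^ 2) * s * (1 / L' ^ 2) * M := by ring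
      rw [e3]
      calc (M / L' ^ 2) * s * (1 / L' ^ 2) * (M : ℝ)
          ≤ (M / L' ^ 2) * s * (1 / L' ^ 2) * (s * L' / c₂) := by gcongr
        _ = s ^ 2 * (M / L' ^ 2) * (1 / c₂) * (1 / L') := by field_simp
        _ ≤ s ^ 2 * (M / L' ^ 2) * (1 / c₂) * 1 := by
            gcongr
            rw [div_le_one hL'0]; linarith
        _ = _ := by ring
    rw [e1]
    linarith
  have h7 : s ^ 4 ≤ D * (s ^ 2 * (M / L' ^ 2) * (C ^ 2 + 1 / c₂)) :=
    hen.trans (mul_le_mul_of_nonneg_left hb1 hD0)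
  have h8 : s ^ 2 ≤ D * ((M / L' ^ 2) * (C ^ 2 + 1 / c₂)) := by
    have h9 : s ^ 2 * s ^ 2 ≤ s ^ 2 * (D * ((M / L' ^ 2) * (C ^ 2 + 1 / c₂))) := by
      calc s ^ 2 * s ^ 2 = s ^ 4 := by ring
        _ ≤ _ := h7
        _ = _ := by ring
    exact le_of_mul_le_mul_left h9 (by positivity)
  have h10 : (c₂ * M / L') ^ 2 ≤ D * ((M / L' ^ 2) * (C ^ 2 + 1 / c₂)) := by
    refine le_trans ?_ h8
    gcongr
  have h11 : c₂ ^ 2 * M ≤ D * (C ^ 2 + 1 / c₂) := by
    have e4 : (c₂ * M / L') ^ 2 = (M / L' ^ 2) * (c₂ ^ 2 * M) := by field_simp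
    have e5 : D * ((M / L' ^ 2) * (C ^ 2 + 1 / c₂)) = (M / L' ^ 2) * (D * (C ^ 2 + 1 / c₂)) := by
      ring
    rw [e4, e5] at h10
    exact le_of_mul_le_mul_left h10 (by positivity)
  rw [← hMcast, div_mul_eq_mul_div, div_le_iff₀ (by positivity)]
  exact h11

end Pool.Agent.Helper94.Rev
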