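import Mathlib
import Pool.Agent.Helper94.RevBasic

set_option autoImplicit false

namespace Pool.Agent.Helper94.Rev

open Finset

theorem norm_one_add_ex_le (t η : ℝ) (hη0 : 0 ≤ η) (hη1 : η ≤ 1 / 2)
    (h : ∀ n : ℤ, η ≤ |t - n|) : ‖1 + ex t‖ ≤ 2 - 4 * η ^ 2 := by
  set u : ℝ := t - round t with hu
  have h1 : ex t = ex u := by rw [hu, ex_sub_int]
  have hu2 : |u| ≤ 1 / 2 := abs_sub_round t
  have hδ : η ≤ |u| := h (round t)
  have h2 : ‖1 + ex u‖ ^ 2 = 2 + 2 * Real.cos (2 * Real.pi * u) := by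
    have hre : (ex u).re = Real.cos (2 * Real.pi * u) := by
      unfold ex; rw [Complex.exp_ofReal_mul_I_re]
    have him : (ex u).im = Real.sin (2 * Real.pi * u) := by
      unfold ex; rw [Complex.exp_ofReal_mul_I_im]
    rw [← Complex.normSq_eq_norm_sq, Complex.normSq_apply]
    simp only [Complex.add_re, Complex.add_im, Complex.one_re, Complex.one_im, hre, him]
    nlinarith [Real.sin_sq_add_cos_sq (2 * Real.pi * u)]
  have h3 : Real.cos (2 * Real.pi * u) ≤ 1 - 8 * u ^ 2 := by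
    have h4 : |2 * Real.pi * u| ≤ Real.pi := by
      rw [abs_mul, abs_of_pos (by positivity)]
      nlinarith [Real.pi_pos]
    have h5 := Real.cos_le_one_sub_mul_cos_sq h4
    have h6 : 1 - 2 / Real.pi ^ 2 * (2 * Real.pi * u) ^ 2 = 1 - 8 * u ^ 2 := by
      have : Real.pi ≠ 0 := Real.pi_ne_zero
      field_simp; ring
    linarith
  have hu2' : η ^ 2 ≤ u ^ 2 := by
    rw [← sq_abs u]; gcongr
  rw [h1]
  have h7 : ‖1 + ex u‖ ^ 2 ≤ (2 - 4 * η ^ 2) ^ 2 := by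
    rw [h2]; nlinarith [sq_nonneg (η ^ 2)]
  have h8 : 0 ≤ 2 - 4 * η ^ 2 := by nlinarith
  exact (pow_le_pow_iff_left₀ (norm_nonneg _) h8 (by norm_num)).mp h7

theorem norm_phi_le' (b : ℕ) (hb : 2 ≤ b) (t η : ℝ) (hη0 : 0 ≤ η) (hη1 : η ≤ 1 / 2)
    (h : ∀ n : ℤ, η ≤ |t - n|) : ‖phi b t‖ ≤ b - 4 * η ^ 2 := by
  obtain ⟨c, rfl⟩ : ∃ c, b = 2 + c := ⟨b - 2, by omega⟩
  unfold phi
  rw [Finset.sum_range_add]
  have h1 : ∑ x ∈ range 2, ex (x * t) = 1 + ex t := by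
    rw [Finset.sum_range_succ, Finset.sum_range_one]
    simp [ex_zero]
  rw [h1]
  have h2 : ‖∑ x ∈ range c, ex (((2 + x : ℕ) : ℝ) * t)‖ ≤ c := by
    refine (norm_sum_le _ _).trans ?_
    simp [norm_ex]
  refine (norm_add_le _ _).trans ?_
  have h3 := norm_one_add_ex_le t η hη0 hη1 h
  push_cast at h2 ⊢
  linarith

/-- Expanding a number by powers of `b` makes it eventually far from the integers. -/
theorem exists_far (b : ℕ) (hb : 2 ≤ b) (θ : ℝ) (k : ℕ)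
    (h : ∀ n : ℤ, 1 / (b : ℝ) ^ k ≤ |θ - n|) :
    ∃ j ≤ k, ∀ n : ℤ, 1 / (2 * (b : ℝ)) ≤ |(b : ℝ) ^ j * θ - n| := by
  by_contra hcon
  push Not at hcon
  have hb' : (2 : ℝ) ≤ b := by exact_mod_cast hb
  have hb0 : (0 : ℝ) < b := by linarith
  obtain ⟨n₀, hn₀⟩ := hcon 0 (Nat.zero_le _)
  have key : ∀ j ≤ k, ∃ n : ℤ, |(b : ℝ) ^ j * θ - n| < 1 / (2 * (b : ℝ)) ∧
      |(b : ℝ) ^ j * θ - n| = (b : ℝ) ^ j * |θ - n₀| := by
    intro j
    induction j with
    | zero => intro _; exact ⟨n₀, hn₀, by simp⟩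
    | succ j ih =>
      intro hj
      obtain ⟨n, hn1, hn2⟩ := ih (by omega)
      obtain ⟨n', hn'⟩ := hcon (j + 1) hj
      have h1 : |(b : ℝ) ^ (j + 1) * θ - (b * n : ℤ)| < 1 / 2 := by
        have e : (b : ℝ) ^ (j + 1) * θ - ((b * n : ℤ) : ℝ) = b * ((b : ℝ) ^ j * θ - n) := by
          push_cast; ring
        rw [e, abs_mul, abs_of_pos hb0]
        calc (b : ℝ) * |(b : ℝ) ^ j * θ - n| < b * (1 / (2 * b)) := by gcongr
          _ = 1 / 2 := by field_simp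
      have h2 : (1 : ℝ) / (2 * b) ≤ 1 / 2 := by
        rw [div_le_div_iff₀ (by positivity) (by norm_num)]
        nlinarith
      have h3 : |((n' - b * n : ℤ) : ℝ)| < 1 := by
        have e : ((n' - b * n : ℤ) : ℝ) = ((b : ℝ) ^ (j + 1) * θ - (b * n : ℤ)) -
            ((b : ℝ) ^ (j + 1) * θ - n') := by push_cast; ring
        rw [e]
        calc _ ≤ |(b : ℝ) ^ (j + 1) * θ - (b * n : ℤ)| + |(b : ℝ) ^ (j + 1) * θ - n'| :=
              abs_sub _ _
          _ < 1 := by linarith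
      have h4 : n' - b * n = 0 := by
        have : |n' - b * n| < 1 := by exact_mod_cast h3
        exact Int.abs_lt_one_iff.mp this
      have h5 : n' = b * n := by omega
      refine ⟨n', hn', ?_⟩
      rw [h5]
      have e : (b : ℝ) ^ (j + 1) * θ - ((b * n : ℤ) : ℝ) = b * ((b : ℝ) ^ j * θ - n) := by
        push_cast; ring
      rw [e, abs_mul, abs_of_pos hb0, hn2, pow_succ]; ring
  obtain ⟨n, hn1, hn2⟩ := key k le_rfl
  have h1 := h n₀
  have h2 : (1 : ℝ) ≤ (b : ℝ) ^ k * |θ - n₀| := by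
    have hbk : (0 : ℝ) < (b : ℝ) ^ k := by positivity
    rw [div_le_iff₀ hbk] at h1
    linarith
  rw [← hn2] at h2
  have h3 : (1 : ℝ) / (2 * b) ≤ 1 / 2 := by
    rw [div_le_div_iff₀ (by positivity) (by norm_num)]
    nlinarith
  linarith

/-- The constant saving. -/
noncomputable def cc (b : ℕ) : ℝ := 4 * (1 / (2 * (b : ℝ) * (b + 1))) ^ 2 / b

theorem cc_pos (b : ℕ) (hb : 2 ≤ b) : 0 < cc b := by
  have : (2 : ℝ) ≤ b := by exact_mod_cast hb
  unfold cc; positivity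

theorem cc_lt_one (b : ℕ) (hb : 2 ≤ b) : cc b < 1 := by
  have hb' : (2 : ℝ) ≤ b := by exact_mod_cast hb
  unfold cc
  rw [div_lt_one (by linarith)]
  have h1 : 1 / (2 * (b : ℝ) * (b + 1)) ≤ 1 / 2 := by
    rw [div_le_div_iff₀ (by positivity) (by norm_num)]
    nlinarith
  have h2 : 0 ≤ 1 / (2 * (b : ℝ) * (b + 1)) := by positivity
  nlinarith

theorem norm_P_two_le (b : ℕ) (hb : 2 ≤ b) (α β : ℝ)
    (h : ∀ n : ℤ, 1 / (2 * (b : ℝ)) ≤ |((b : ℝ) ^ 2 - 1) * β - n|) :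
    ‖P b 2 α β‖ ≤ (b : ℝ) ^ 2 * (1 - cc b) := by
  have hb0 : 0 < b := by omega
  have hb' : (2 : ℝ) ≤ b := by exact_mod_cast hb
  have hbp : (0 : ℝ) < b := by linarith
  set η : ℝ := 1 / (2 * (b : ℝ) * (b + 1)) with hη
  have hη0 : 0 < η := by positivity
  have hη1 : η ≤ 1 / 2 := by
    rw [hη, div_le_div_iff₀ (by positivity) (by norm_num)]
    nlinarith
  have hcc : (b : ℝ) - 4 * η ^ 2 = b * (1 - cc b) := by
    unfold cc; rw [← hη]; field_simp
  have e : P b 2 α β = phi b (α / b + β) * phi b (α / b / b + b * β) := by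
    rw [P_succ b 1 hb0, P_succ b 0 hb0, P_zero, mul_one]
  rw [e, norm_mul]
  have hor : (∀ n : ℤ, η ≤ |α / b + β - n|) ∨ (∀ n : ℤ, η ≤ |α / b / b + b * β - n|) := by
    by_contra hcon
    push Not at hcon
    obtain ⟨⟨n, hn⟩, ⟨n', hn'⟩⟩ := hcon
    have h1 := h (b * n' - n)
    have e2 : ((b : ℝ) ^ 2 - 1) * β - ((b * n' - n : ℤ) : ℝ) =
        b * (α / b / b + b * β - n') - (α / b + β - n) := by
      push_cast; field_simp; ring
    rw [e2] at h1
    have h2 : |b * (α / b / b + b * β - n') - (α / b + β - n)| < b * η + η := by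
      calc _ ≤ |b * (α / b / b + b * β - n')| + |α / b + β - n| := abs_sub _ _
        _ = b * |α / b / b + b * β - n'| + |α / b + β - n| := by rw [abs_mul, abs_of_pos hbp]
        _ < b * η + η := by gcongr
    have h3 : b * η + η = 1 / (2 * (b : ℝ)) := by
      rw [hη]; field_simp
    linarith
  have hc1 : 0 ≤ 1 - cc b := by have := cc_lt_one b hb; linarith
  rcases hor with h1 | h1
  · have h2 := norm_phi_le' b hb _ η hη0.le hη1 h1
    have h3 := norm_phi_le b (α / b / b + b * β)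
    rw [hcc] at h2
    calc _ ≤ (b * (1 - cc b)) * b := by gcongr
      _ = _ := by ring
  · have h2 := norm_phi_le' b hb _ η hη0.le hη1 h1
    have h3 := norm_phi_le b (α / b + β)
    rw [hcc] at h2
    calc _ ≤ b * (b * (1 - cc b)) := by gcongr
      _ = _ := by ring

theorem norm_P_block_le (b : ℕ) (hb : 2 ≤ b) (k : ℕ) (α β : ℝ)
    (h : ∀ n : ℤ, 1 / (b : ℝ) ^ k ≤ |((b : ℝ) ^ 2 - 1) * β - n|) :
    ‖P b (k + 2) α β‖ ≤ (b : ℝ) ^ (k + 2) * (1 - cc b) := by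
  have hb0 : 0 < b := by omega
  obtain ⟨j, hj, hfar⟩ := exists_far b hb _ k h
  have hL : k + 2 = j + (2 + (k - j)) := by omega
  have e1 : P b (k + 2) α β = P b j α β * (P b 2 (α / b ^ j) (b ^ j * β) *
      P b (k - j) (α / b ^ j / b ^ 2) (b ^ 2 * (b ^ j * β))) := by
    conv_lhs => rw [hL]
    rw [P_add b hb0, P_add b hb0]
  rw [e1, norm_mul, norm_mul]
  have h1 := norm_P_le b j α β
  have h2 := norm_P_two_le b hb (α / b ^ j) (b ^ j * β) (by
    intro n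
    have := hfar n
    have e : (b : ℝ) ^ j * (((b : ℝ) ^ 2 - 1) * β) = ((b : ℝ) ^ 2 - 1) * (b ^ j * β) := by ring
    rwa [e] at this)
  have h3 := norm_P_le b (k - j) (α / b ^ j / b ^ 2) (b ^ 2 * (b ^ j * β))
  have hc1 : 0 ≤ 1 - cc b := by have := cc_lt_one b hb; linarith
  calc _ ≤ (b : ℝ) ^ j * (((b : ℝ) ^ 2 * (1 - cc b)) * (b : ℝ) ^ (k - j)) := by gcongr
    _ = ((b : ℝ) ^ j * ((b : ℝ) ^ 2 * (b : ℝ) ^ (k - j))) * (1 - cc b) := by ring
    _ = _ := by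
      congr 1
      rw [← pow_add, ← pow_add]; congr 1; omega

theorem norm_P_far_le (b : ℕ) (hb : 2 ≤ b) (k t r : ℕ) (α β : ℝ)
    (h : ∀ (A : ℕ) (n : ℤ), 1 / (b : ℝ) ^ k ≤ |(b : ℝ) ^ A * (((b : ℝ) ^ 2 - 1) * β) - n|) :
    ‖P b ((k + 2) * t + r) α β‖ ≤ (b : ℝ) ^ ((k + 2) * t + r) * (1 - cc b) ^ t := by
  have hb0 : 0 < b := by omega
  have hc1 : 0 ≤ 1 - cc b := by have := cc_lt_one b hb; linarith
  induction t generalizing α β with
  | zero => simpa using norm_P_le b r α β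
  | succ t ih =>
    have e : (k + 2) * (t + 1) + r = (k + 2) + ((k + 2) * t + r) := by ring
    rw [e, P_add b hb0, norm_mul]
    have h1 := norm_P_block_le b hb k α β (fun n => by simpa using h 0 n)
    have h2 := ih (α / b ^ (k + 2)) (b ^ (k + 2) * β) (by
      intro A n
      have := h (A + (k + 2)) n
      rw [pow_add] at this
      have e : (b : ℝ) ^ A * (b : ℝ) ^ (k + 2) * (((b : ℝ) ^ 2 - 1) * β) =
        (b : ℝ) ^ A * (((b : ℝ) ^ 2 - 1) * ((b : ℝ) ^ (k + 2) * β)) := by ring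
      rwa [e] at this)
    calc _ ≤ ((b : ℝ) ^ (k + 2) * (1 - cc b)) *
          ((b : ℝ) ^ ((k + 2) * t + r) * (1 - cc b) ^ t) := by gcongr
      _ = _ := by rw [pow_add (b : ℝ) (k + 2)]; ring

/-- Far from integers for rational numbers with denominators coprime to `b (b^2 - 1)`. -/
theorem rat_far (b : ℕ) (hb : 2 ≤ b) (x : ℚ) (hx0 : 0 < x) (hx1 : x < 1)
    (hxb : Nat.Coprime x.den b) (hxb' : Nat.Coprime x.den (b ^ 2 - 1)) (k : ℕ)
    (hk : x.den ≤ b ^ k) (A : ℕ) (n : ℤ) :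
    1 / (b : ℝ) ^ k ≤ |(b : ℝ) ^ A * (((b : ℝ) ^ 2 - 1) * x) - n| := by
  have hb2 : 1 ≤ b ^ 2 := Nat.one_le_pow _ _ (by omega)
  have hxd : (0 : ℝ) < x.den := by exact_mod_cast x.den_pos
  have hxr : (x : ℝ) = x.num / x.den := by
    have := Rat.num_div_den x
    exact_mod_cast (congrArg (fun q : ℚ => (q : ℝ)) this).symm
  set M : ℤ := (b : ℤ) ^ A * ((b : ℤ) ^ 2 - 1) * x.num - n * x.den with hM
  have key : ((b : ℝ) ^ A * (((b : ℝ) ^ 2 - 1) * x) - n) * x.den = (M : ℝ) := by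
    rw [hM, hxr]; push_cast; field_simp
  have hden : x.den ≠ 1 := by
    intro h
    have h1 : x = x.num := by
      conv_lhs => rw [← Rat.num_div_den x, h]
      simp
    rw [h1] at hx0 hx1
    have h2 : 0 < x.num := by exact_mod_cast hx0
    have h3 : x.num < 1 := by exact_mod_cast hx1
    omega
  have hMne : M ≠ 0 := by
    intro h0
    have h1 : (x.den : ℤ) ∣ (b : ℤ) ^ A * ((b : ℤ) ^ 2 - 1) * x.num := ⟨n, by linarith⟩
    have c1 : IsCoprime (x.den : ℤ) ((b : ℤ) ^ A) :=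
      IsCoprime.pow_right (Nat.isCoprime_iff_coprime.mpr hxb)
    have c2 : IsCoprime (x.den : ℤ) ((b : ℤ) ^ 2 - 1) := by
      have := Nat.isCoprime_iff_coprime.mpr hxb'
      rw [Nat.cast_sub hb2] at this
      push_cast at this
      exact this
    have h2 : (x.den : ℤ) ∣ x.num := (c1.mul_right c2).dvd_of_dvd_mul_left h1
    have h3 : x.den ∣ x.num.natAbs := Int.natCast_dvd.mp h2
    have h4 := x.reduced
    have h5 : x.den = 1 := Nat.eq_one_of_dvd_coprimes h4 h3 dvd_rfl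
    exact hden h5
  have h1 : (1 : ℝ) ≤ |(M : ℝ)| := by
    have := Int.one_le_abs hMne
    exact_mod_cast this
  rw [← key, abs_mul, abs_of_pos hxd] at h1
  have hbk : (x.den : ℝ) ≤ (b : ℝ) ^ k := by exact_mod_cast hk
  have hbk0 : (0 : ℝ) < (b : ℝ) ^ k := lt_of_lt_of_le hxd hbk
  rw [div_le_iff₀ hbk0]
  calc (1 : ℝ) ≤ |(b : ℝ) ^ A * (((b : ℝ) ^ 2 - 1) * x) - n| * x.den := h1
    _ ≤ _ := by gcongr

theorem norm_P_rat_le (b : ℕ) (hb : 2 ≤ b) (L : ℕ) (α : ℝ) (x : ℚ) (hx0 : 0 < x) (hx1 : x < 1)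
    (hxb : Nat.Coprime x.den b) (hxb' : Nat.Coprime x.den (b ^ 2 - 1)) (k : ℕ)
    (hk : x.den ≤ b ^ k) :
    ‖P b L α x‖ ≤ (b : ℝ) ^ L * (1 - cc b) ^ (L / (k + 2)) := by
  have := norm_P_far_le b hb k (L / (k + 2)) (L % (k + 2)) α x
    (fun A n => rat_far b hb x hx0 hx1 hxb hxb' k hk A n)
  rwa [Nat.div_add_mod] at this

end Pool.Agent.Helper94.Rev
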