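import Pool.Agent.Helper94.RevLS

set_option autoImplicit false

namespace Pool.Agent.Helper94.Rev

open Finset

theorem rat_sep (b : ℕ) (x y : ℚ) (hx0 : 0 < x) (hx1 : x < 1) (hy0 : 0 < y) (hy1 : y < 1)
    (hxb : Nat.Coprime x.den b) (hyb : Nat.Coprime y.den b) (hne : x ≠ y) (D : ℕ)
    (hxD : x.den ≤ D) (hyD : y.den ≤ D) (k : ℕ) (n : ℤ) :
    1 / ((D ^ 2 : ℕ) : ℝ) ≤ |(b : ℝ) ^ k * x - (b : ℝ) ^ k * y - n| := by
  set E : ℤ := (x.den : ℤ) * y.den with hE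
  set M : ℤ := x.num * y.den - y.num * x.den with hM
  have hxd : (0 : ℝ) < x.den := by exact_mod_cast x.den_pos
  have hyd : (0 : ℝ) < y.den := by exact_mod_cast y.den_pos
  have hxr : (x : ℝ) = x.num / x.den := by
    have := Rat.num_div_den x
    exact_mod_cast (congrArg (fun q : ℚ => (q : ℝ)) this).symm
  have hyr : (y : ℝ) = y.num / y.den := by
    have := Rat.num_div_den y
    exact_mod_cast (congrArg (fun q : ℚ => (q : ℝ)) this).symm
  have hEpos : (0 : ℝ) < (E : ℝ) := by rw [hE]; push_cast; positivity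
  have key : ((b : ℝ) ^ k * x - (b : ℝ) ^ k * y - n) * E = ((b : ℤ) ^ k * M - n * E : ℤ) := by
    rw [hM]
    push_cast
    rw [hE, hxr, hyr]
    push_cast
    field_simp
  have hMne : M ≠ 0 := by
    intro h0
    apply hne
    have h1 : x.num * y.den = y.num * x.den := by linarith
    rw [← Rat.num_div_den x, ← Rat.num_div_den y]
    rw [div_eq_div_iff (by exact_mod_cast x.den_pos.ne') (by exact_mod_cast y.den_pos.ne')]
    exact_mod_cast h1
  have hMlt : |M| < E := by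
    have h1 : (M : ℝ) = ((x : ℝ) - y) * E := by
      rw [hM, hE, hxr, hyr]; push_cast; field_simp
    have hx0' : (0 : ℝ) < x := by exact_mod_cast hx0
    have hx1' : (x : ℝ) < 1 := by exact_mod_cast hx1
    have hy0' : (0 : ℝ) < y := by exact_mod_cast hy0
    have hy1' : (y : ℝ) < 1 := by exact_mod_cast hy1
    have h2 : |(x : ℝ) - y| < 1 := by rw [abs_lt]; constructor <;> linarith
    have h3 : |(M : ℝ)| < E := by
      rw [h1, abs_mul, abs_of_pos hEpos]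
      nlinarith
    exact_mod_cast h3
  have hcop : IsCoprime E ((b : ℤ) ^ k) := by
    apply IsCoprime.pow_right
    rw [hE]
    apply IsCoprime.mul_left
    · exact Nat.isCoprime_iff_coprime.mpr hxb
    · exact Nat.isCoprime_iff_coprime.mpr hyb
  have hnz : (b : ℤ) ^ k * M - n * E ≠ 0 := by
    intro h0
    have h1 : E ∣ (b : ℤ) ^ k * M := ⟨n, by linarith⟩
    have h2 : E ∣ M := hcop.dvd_of_dvd_mul_left h1
    have h3 := Int.le_of_dvd (abs_pos.mpr hMne) ((dvd_abs _ _).mpr h2)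
    omega
  have h1 : (1 : ℝ) ≤ |((b : ℤ) ^ k * M - n * E : ℤ)| := by
    have := Int.one_le_abs hnz
    exact_mod_cast this
  rw [Int.cast_abs, ← key, abs_mul, abs_of_pos hEpos] at h1
  have hED : (E : ℝ) ≤ ((D ^ 2 : ℕ) : ℝ) := by
    have : x.den * y.den ≤ D ^ 2 := by rw [pow_two]; exact Nat.mul_le_mul hxD hyD
    rw [hE]; push_cast
    exact_mod_cast this
  have hDpos : (0 : ℝ) < ((D ^ 2 : ℕ) : ℝ) := lt_of_lt_of_le hEpos hED
  rw [div_le_iff₀ hDpos]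
  calc (1 : ℝ) ≤ |(b : ℝ) ^ k * x - (b : ℝ) ^ k * y - n| * E := h1
    _ ≤ |(b : ℝ) ^ k * x - (b : ℝ) ^ k * y - n| * ((D ^ 2 : ℕ) : ℝ) := by gcongr

/-- The set of relevant rationals. -/
structure Good (b D : ℕ) (x : ℚ) : Prop where
  pos : 0 < x
  lt_one : x < 1
  cop : Nat.Coprime x.den b
  le : x.den ≤ D

theorem sum_sq_P_le (b : ℕ) (hb : 2 ≤ b) (J D : ℕ) (hD1 : 1 ≤ D) (hD : D ^ 2 ≤ b ^ J)
    (s : Finset ℚ) (hs : ∀ x ∈ s, Good b D x) (α : ℝ) (k : ℕ) :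
    ∑ x ∈ s, ‖P b J α ((b : ℝ) ^ k * x)‖ ^ 2 ≤
      (b : ℝ) ^ J * ((b : ℝ) ^ J * (2 + J * Real.log b)) := by
  have hR : 1 ≤ D ^ 2 := Nat.one_le_pow _ _ hD1
  have h1 := large_sieve s (fun x : ℚ => (b : ℝ) ^ k * x) (D ^ 2) hR
    (fun x hx y hy hne n => rat_sep b x y (hs x hx).pos (hs x hx).lt_one (hs y hy).pos
      (hs y hy).lt_one (hs x hx).cop (hs y hy).cop hne D (hs x hx).le (hs y hy).le k n)
    (b ^ J) (fun m => ex (α * rv b J m / b ^ J)) (fun m => (norm_ex _).le)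
  have h2 : ∀ x ∈ s, ‖P b J α ((b : ℝ) ^ k * x)‖ ^ 2 =
      ‖∑ m ∈ range (b ^ J), ex (α * rv b J m / b ^ J) * ex (m * ((b : ℝ) ^ k * x))‖ ^ 2 := by
    intro x _
    unfold P
    congr 2
    apply Finset.sum_congr rfl
    intro m _
    rw [← ex_add]; congr 1; ring
  rw [Finset.sum_congr rfl h2]
  refine h1.trans ?_
  have hbJ : (1 : ℝ) ≤ (b : ℝ) ^ J := one_le_pow₀ (by exact_mod_cast (by omega : 1 ≤ b))
  have h3 : ((D ^ 2 : ℕ) : ℝ) ≤ (b : ℝ) ^ J := by exact_mod_cast hD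
  have h4 : Real.log ((D ^ 2 : ℕ) : ℝ) ≤ J * Real.log b := by
    rw [← Real.log_pow]
    exact Real.log_le_log (by exact_mod_cast hR) h3
  have h5 : 0 ≤ Real.log ((D ^ 2 : ℕ) : ℝ) := Real.log_nonneg (by exact_mod_cast hR)
  push_cast at h3 h4 h5 ⊢
  rw [mul_comm]
  gcongr
  have : (b : ℝ) ^ J * (2 + J * Real.log b) = (b : ℝ) ^ J + (b : ℝ) ^ J * (1 + J * Real.log b) := by
    ring
  rw [this]
  gcongr

theorem sum_P_le (b : ℕ) (hb : 2 ≤ b) (L J D : ℕ) (hJ : 2 * J ≤ L) (hD1 : 1 ≤ D)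
    (hD : D ^ 2 ≤ b ^ J) (s : Finset ℚ) (hs : ∀ x ∈ s, Good b D x) (α : ℝ) :
    ∑ x ∈ s, ‖P b L α x‖ ≤ (b : ℝ) ^ L * (2 + J * Real.log b) := by
  have hb0 : 0 < b := by omega
  have hb0' : (0 : ℝ) < b := by exact_mod_cast hb0
  have hpt : ∀ x ∈ s, ‖P b L α x‖ ≤ (b : ℝ) ^ (L - 2 * J) *
      ((1 / 2) * ‖P b J α ((b : ℝ) ^ 0 * x)‖ ^ 2 +
        (1 / 2) * ‖P b J (α / b ^ (L - J)) ((b : ℝ) ^ (L - J) * x)‖ ^ 2) := by
    intro x _
    have hL : L = J + ((L - 2 * J) + J) := by omega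
    have e1 : P b L α x = P b J α x * (P b (L - 2 * J) (α / b ^ J) (b ^ J * x) *
        P b J (α / b ^ (L - J)) ((b : ℝ) ^ (L - J) * x)) := by
      conv_lhs => rw [hL]
      rw [P_add b hb0, P_add b hb0]
      congr 3
      · rw [div_div, ← pow_add]; congr 2; omega
      · rw [← mul_assoc, ← pow_add]; congr 2; omega
    rw [e1, norm_mul, norm_mul, pow_zero, one_mul]
    have h1 := norm_P_le b (L - 2 * J) (α / b ^ J) (b ^ J * x)
    set A := ‖P b J α x‖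
    set B := ‖P b J (α / b ^ (L - J)) ((b : ℝ) ^ (L - J) * x)‖
    have hA : 0 ≤ A := norm_nonneg _
    have hB : 0 ≤ B := norm_nonneg _
    calc A * (‖P b (L - 2 * J) (α / b ^ J) (b ^ J * x)‖ * B) ≤
        A * ((b : ℝ) ^ (L - 2 * J) * B) := by gcongr
      _ = (b : ℝ) ^ (L - 2 * J) * (A * B) := by ring
      _ ≤ _ := by
        gcongr
        nlinarith [sq_nonneg (A - B)]
  refine (Finset.sum_le_sum hpt).trans ?_
  rw [← Finset.mul_sum, Finset.sum_add_distrib, ← Finset.mul_sum, ← Finset.mul_sum]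
  have h1 := sum_sq_P_le b hb J D hD1 hD s hs α 0
  have h2 := sum_sq_P_le b hb J D hD1 hD s hs (α / b ^ (L - J)) (L - J)
  have h3 : (b : ℝ) ^ L = (b : ℝ) ^ (L - 2 * J) * ((b : ℝ) ^ J * (b : ℝ) ^ J) := by
    rw [← pow_add, ← pow_add]; congr 1; omega
  rw [h3, mul_assoc]
  gcongr
  linarith

end Pool.Agent.Helper94.Rev
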