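import Pool.Agent.Helper94.RevSieve

set_option autoImplicit false

namespace Pool.Agent.Helper94.Rev

open Finset

theorem sum_inv_sq_le (n : ℕ) : ∑ s ∈ Icc 1 n, 1 / (s : ℝ) ^ 2 ≤ 2 := by
  have h : ∀ n : ℕ, ∑ s ∈ Icc 1 (n + 1), 1 / (s : ℝ) ^ 2 ≤ 2 - 1 / ((n : ℝ) + 1) := by
    intro n
    induction n with
    | zero => norm_num
    | succ n ih =>
      rw [Finset.sum_Icc_succ_top (by omega)]
      have : (1 : ℝ) / (((n + 1 + 1 : ℕ) : ℝ)) ^ 2 ≤ 1 / ((n : ℝ) + 1) - 1 / ((n : ℝ) + 2) := by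
        rw [div_sub_div _ _ (by positivity) (by positivity), div_le_div_iff₀ (by positivity)
          (by positivity)]
        push_cast
        nlinarith
      push_cast at this ⊢
      have e : (n : ℝ) + 1 + 1 = n + 2 := by ring
      rw [e] at this ⊢
      linarith
  rcases n with _ | n
  · simp
  · have := h n
    have h2 : (0 : ℝ) < 1 / ((n : ℝ) + 1) := by positivity
    linarith

theorem GG_lower (z Q J : ℕ) (hQ : 1 ≤ Q) (hJ : Q * J ≤ z) :
    Real.log (J + 1) / (2 * Q) ≤ GG z Q := by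
  classical
  rcases Nat.eq_zero_or_pos J with rfl | hJpos
  · simp only [Nat.cast_zero, zero_add, Real.log_one, zero_div]
    unfold GG
    exact Finset.sum_nonneg fun _ _ => by positivity
  have hQ0 : (0 : ℝ) < Q := by exact_mod_cast hQ
  choose A B hAB using fun n : ℕ => Nat.sq_mul_squarefree n
  set nn : ℕ → ℕ := fun j => 1 + Q * j with hnn
  have hnpos : ∀ j, 0 < nn j := fun j => by simp only [hnn]; omega
  have hApos : ∀ j, 0 < A (nn j) := by
    intro j
    rcases Nat.eq_zero_or_pos (A (nn j)) with h | h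
    · have := (hAB (nn j)).1; rw [h, mul_zero] at this; have := hnpos j; omega
    · exact h
  have hBpos : ∀ j, 0 < B (nn j) := by
    intro j
    rcases Nat.eq_zero_or_pos (B (nn j)) with h | h
    · have h' := (hAB (nn j)).1
      have h'' := hnpos j
      rw [h] at h'
      simp at h'
      omega
    · exact h
  have hAle : ∀ j, A (nn j) ≤ nn j := fun j =>
    Nat.le_of_dvd (hnpos j) ⟨B (nn j) ^ 2, by rw [mul_comm]; exact (hAB (nn j)).1.symm⟩
  have hBle : ∀ j, B (nn j) ≤ nn j := fun j =>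
    Nat.le_of_dvd (hnpos j) ⟨B (nn j) * A (nn j), by rw [← mul_assoc, ← sq]; exact (hAB (nn j)).1.symm⟩
  have hnle : ∀ j ∈ range J, nn j ≤ z := by
    intro j hj
    have hj' : j < J := Finset.mem_range.mp hj
    have : Q * (j + 1) ≤ Q * J := Nat.mul_le_mul_left _ hj'
    simp only [hnn]; rw [mul_add, mul_one] at this; omega
  have h1 : ∑ j ∈ range J, 1 / (nn j : ℝ) ≤ 2 * GG z Q := by
    have hinj : Set.InjOn (fun j => (B (nn j), A (nn j))) (range J) := by
      intro i _ j _ hij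
      simp only [Prod.mk.injEq] at hij
      have h2 : nn i = nn j := by
        rw [← (hAB (nn i)).1, ← (hAB (nn j)).1, hij.1, hij.2]
      simp only [hnn] at h2
      have : Q * i = Q * j := by omega
      exact Nat.eq_of_mul_eq_mul_left (by omega) this
    calc ∑ j ∈ range J, 1 / (nn j : ℝ)
        = ∑ j ∈ range J, (fun q : ℕ × ℕ => 1 / (q.1 : ℝ) ^ 2 * (1 / (q.2 : ℝ)))
            ((fun j => (B (nn j), A (nn j))) j) := by
          apply Finset.sum_congr rfl
          intro j _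
          have := (hAB (nn j)).1
          have h' : (nn j : ℝ) = (B (nn j) : ℝ) ^ 2 * A (nn j) := by exact_mod_cast this.symm
          simp only
          rw [h']
          have p1 : (0 : ℝ) < A (nn j) := by exact_mod_cast hApos j
          have p2 : (0 : ℝ) < B (nn j) := by exact_mod_cast hBpos j
          field_simp
      _ = ∑ q ∈ (range J).image (fun j => (B (nn j), A (nn j))),
            1 / (q.1 : ℝ) ^ 2 * (1 / (q.2 : ℝ)) := by
          rw [Finset.sum_image hinj]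
      _ ≤ ∑ q ∈ (Icc 1 z) ×ˢ (Zs z Q), 1 / (q.1 : ℝ) ^ 2 * (1 / (q.2 : ℝ)) := by
          apply Finset.sum_le_sum_of_subset_of_nonneg
          · intro q hq
            rw [Finset.mem_image] at hq
            obtain ⟨j, hj, rfl⟩ := hq
            rw [Finset.mem_product, Finset.mem_Icc, mem_Zs]
            refine ⟨⟨hBpos j, (hBle j).trans (hnle j hj)⟩, ⟨hApos j, (hAle j).trans (hnle j hj)⟩,
              (hAB (nn j)).2, ?_⟩
            have hc : Nat.Coprime (nn j) Q := by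
              simp only [hnn]
              rw [Nat.coprime_add_mul_left_left]
              exact Nat.coprime_one_left Q
            exact hc.coprime_dvd_left ⟨B (nn j) ^ 2, by rw [mul_comm]; exact (hAB (nn j)).1.symm⟩
          · intro q _ _; positivity
      _ = (∑ s ∈ Icc 1 z, 1 / (s : ℝ) ^ 2) * GG z Q := by
          rw [Finset.sum_product, GG, Finset.sum_mul_sum]
      _ ≤ 2 * GG z Q := by
          have : 0 ≤ GG z Q := by
            unfold GG; exact Finset.sum_nonneg fun _ _ => by positivity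
          gcongr
          exact sum_inv_sq_le z
  have h2 : Real.log (J + 1) / Q ≤ ∑ j ∈ range J, 1 / (nn j : ℝ) := by
    calc Real.log (J + 1) / Q ≤ (∑ j ∈ range J, 1 / ((j : ℝ) + 1)) / Q := by
          gcongr
          have := log_add_one_le_harmonic J
          unfold harmonic at this
          push_cast at this
          simpa using this
      _ = ∑ j ∈ range J, 1 / ((j : ℝ) + 1) / Q := by rw [Finset.sum_div]
      _ ≤ ∑ j ∈ range J, 1 / (nn j : ℝ) := by
          apply Finset.sum_le_sum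
          intro j _
          simp only [hnn]
          push_cast
          rw [div_div]
          have h3 : (1 : ℝ) ≤ Q := by exact_mod_cast hQ
          have h4 : (0 : ℝ) ≤ j := Nat.cast_nonneg j
          apply one_div_le_one_div_of_le (by positivity)
          nlinarith
  rw [div_le_iff₀ (by positivity)]
  rw [div_le_iff₀ hQ0] at h2
  nlinarith

noncomputable def ww (z Q f : ℕ) : ℝ :=
  ∑ d₁ ∈ Zs z Q, ∑ d₂ ∈ Zs z Q, if f ∣ Nat.lcm d₁ d₂ then 1 / (Nat.lcm d₁ d₂ : ℝ) else 0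

theorem lcm_factor (d₁ d₂ f : ℕ) (h₁ : 0 < d₁) (h₂ : 0 < d₂) (hf : 0 < f)
    (hdvd : f ∣ Nat.lcm d₁ d₂) :
    ∃ α β γ g u v : ℕ, α ∈ f.divisors ∧ β ∈ f.divisors ∧ γ = f / (α * β) ∧ 0 < γ ∧
      0 < g ∧ 0 < u ∧ 0 < v ∧
      g ≤ d₁ ∧ u ≤ d₁ ∧ v ≤ d₂ ∧ d₁ = (α * g) * (β * u) ∧ d₂ = (α * g) * (γ * v) ∧
      Nat.lcm d₁ d₂ = f * (g * u * v) := by
  set g₀ := Nat.gcd d₁ d₂ with hg₀
  have hg₀pos : 0 < g₀ := Nat.gcd_pos_of_pos_left _ h₁
  obtain ⟨u₀, hu₀⟩ : g₀ ∣ d₁ := Nat.gcd_dvd_left _ _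
  obtain ⟨v₀, hv₀⟩ : g₀ ∣ d₂ := Nat.gcd_dvd_right _ _
  have hu₀pos : 0 < u₀ := by
    rcases Nat.eq_zero_or_pos u₀ with h | h
    · rw [h, mul_zero] at hu₀; omega
    · exact h
  have hv₀pos : 0 < v₀ := by
    rcases Nat.eq_zero_or_pos v₀ with h | h
    · rw [h, mul_zero] at hv₀; omega
    · exact h
  have hlcm : Nat.lcm d₁ d₂ = g₀ * u₀ * v₀ := by
    have h1 := Nat.gcd_mul_lcm d₁ d₂
    rw [← hg₀] at h1
    apply Nat.eq_of_mul_eq_mul_left hg₀pos
    rw [h1]
    conv_lhs => rw [hu₀, hv₀]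
    ring
  set α := Nat.gcd f g₀ with hα
  have hαpos : 0 < α := Nat.gcd_pos_of_pos_left _ hf
  obtain ⟨f₁, hf₁⟩ : α ∣ f := Nat.gcd_dvd_left _ _
  obtain ⟨g, hg⟩ : α ∣ g₀ := Nat.gcd_dvd_right _ _
  have hf₁pos : 0 < f₁ := by
    rcases Nat.eq_zero_or_pos f₁ with h | h
    · rw [h, mul_zero] at hf₁; omega
    · exact h
  have hgpos : 0 < g := by
    rcases Nat.eq_zero_or_pos g with h | h
    · rw [h, mul_zero] at hg; omega
    · exact h
  have hcop1 : Nat.Coprime f₁ g := by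
    have h1 : Nat.gcd (α * f₁) (α * g) = α := by rw [← hf₁, ← hg]
    rw [Nat.gcd_mul_left] at h1
    exact Nat.eq_of_mul_eq_mul_left hαpos (by rw [h1, mul_one])
  have hd1 : f₁ ∣ u₀ * v₀ := by
    have h1 : α * f₁ ∣ α * (g * (u₀ * v₀)) := by
      rw [← hf₁]
      have : α * (g * (u₀ * v₀)) = g₀ * u₀ * v₀ := by rw [hg]; ring
      rw [this, ← hlcm]; exact hdvd
    exact hcop1.dvd_of_dvd_mul_left (Nat.dvd_of_mul_dvd_mul_left hαpos h1)
  set β := Nat.gcd f₁ u₀ with hβ
  have hβpos : 0 < β := Nat.gcd_pos_of_pos_left _ hf₁pos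
  obtain ⟨γ, hγ⟩ : β ∣ f₁ := Nat.gcd_dvd_left _ _
  obtain ⟨u, hu⟩ : β ∣ u₀ := Nat.gcd_dvd_right _ _
  have hγpos : 0 < γ := by
    rcases Nat.eq_zero_or_pos γ with h | h
    · rw [h, mul_zero] at hγ; omega
    · exact h
  have hupos : 0 < u := by
    rcases Nat.eq_zero_or_pos u with h | h
    · rw [h, mul_zero] at hu; omega
    · exact h
  have hcop2 : Nat.Coprime γ u := by
    have h1 : Nat.gcd (β * γ) (β * u) = β := by rw [← hγ, ← hu]
    rw [Nat.gcd_mul_left] at h1
    exact Nat.eq_of_mul_eq_mul_left hβpos (by rw [h1, mul_one])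
  have hd2 : γ ∣ v₀ := by
    have h1 : β * γ ∣ β * (u * v₀) := by
      rw [← hγ]
      have : β * (u * v₀) = u₀ * v₀ := by rw [hu]; ring
      rw [this]; exact hd1
    exact hcop2.dvd_of_dvd_mul_left (Nat.dvd_of_mul_dvd_mul_left hβpos h1)
  obtain ⟨v, hv⟩ := hd2
  have hvpos : 0 < v := by
    rcases Nat.eq_zero_or_pos v with h | h
    · rw [h, mul_zero] at hv; omega
    · exact h
  have hfabc : f = α * β * γ := by rw [hf₁, hγ]; ring
  refine ⟨α, β, γ, g, u, v, ?_, ?_, ?_, hγpos, hgpos, hupos, hvpos, ?_, ?_, ?_, ?_, ?_, ?_⟩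
  · exact Nat.mem_divisors.mpr ⟨⟨f₁, hf₁⟩, hf.ne'⟩
  · exact Nat.mem_divisors.mpr ⟨⟨α * γ, by rw [hfabc]; ring⟩, hf.ne'⟩
  · rw [hfabc, Nat.mul_div_cancel_left _ (by positivity)]
  · apply Nat.le_of_dvd h₁
    exact ⟨α * u₀, by rw [hu₀, hg]; ring⟩
  · apply Nat.le_of_dvd h₁
    exact ⟨g₀ * β, by rw [hu₀, hu]; ring⟩
  · apply Nat.le_of_dvd h₂
    exact ⟨g₀ * γ, by rw [hv₀, hv]; ring⟩
  · rw [← hg, ← hu]; exact hu₀
  · rw [← hg, ← hv]; exact hv₀
  · rw [hlcm, hfabc, hg, hu, hv]; ring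

theorem ww_le_aux (z Q f : ℕ) (hf : 0 < f) :
    ww z Q f ≤ (f.divisors.card : ℝ) ^ 2 / f * (∑ n ∈ Icc 1 z, 1 / (n : ℝ)) ^ 3 := by
  classical
  unfold ww
  rw [← Finset.sum_product', ← Finset.sum_filter]
  set S := ((Zs z Q) ×ˢ (Zs z Q)).filter (fun q : ℕ × ℕ => f ∣ Nat.lcm q.1 q.2) with hS
  have hex : ∀ q : ℕ × ℕ, ∃ r : (ℕ × ℕ) × (ℕ × ℕ × ℕ), q ∈ S →
      r ∈ ((f.divisors ×ˢ f.divisors) ×ˢ ((Icc 1 z) ×ˢ (Icc 1 z) ×ˢ (Icc 1 z))) ∧
      q.1 = (r.1.1 * r.2.1) * (r.1.2 * r.2.2.1) ∧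
      q.2 = (r.1.1 * r.2.1) * ((f / (r.1.1 * r.1.2)) * r.2.2.2) ∧
      Nat.lcm q.1 q.2 = f * (r.2.1 * r.2.2.1 * r.2.2.2) := by
    intro q
    by_cases hq : q ∈ S
    · rw [hS, Finset.mem_filter, Finset.mem_product] at hq
      obtain ⟨⟨h1, h2⟩, h3⟩ := hq
      rw [mem_Zs] at h1 h2
      obtain ⟨α, β, γ, g, u, v, a1, a2, a3, a4, a5, a6, a7, a8, a9, a10, a11, a12, a13⟩ :=
        lcm_factor q.1 q.2 f (by omega) (by omega) hf h3
      refine ⟨((α, β), (g, u, v)), fun _ => ⟨?_, ?_, ?_, ?_⟩⟩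
      · simp only [Finset.mem_product, Finset.mem_Icc]
        refine ⟨⟨a1, a2⟩, ⟨a5, by omega⟩, ⟨a6, by omega⟩, ⟨a7, by omega⟩⟩
      · exact a11
      · rw [← a3]; exact a12
      · exact a13
    · exact ⟨((0, 0), (0, 0, 0)), fun h => absurd h hq⟩
  choose Φ hΦ using hex
  have hinj : Set.InjOn Φ S := by
    intro q hq q' hq' hqq
    have h1 := hΦ q hq
    have h2 := hΦ q' hq'
    rw [hqq] at h1
    apply Prod.ext
    · rw [h1.2.1, h2.2.1]
    · rw [h1.2.2.1, h2.2.2.1]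
  have hf0 : (0 : ℝ) < f := by exact_mod_cast hf
  set F : (ℕ × ℕ) × (ℕ × ℕ × ℕ) → ℝ := fun r =>
    (1 / (f : ℝ)) * ((1 / (r.2.1 : ℝ)) * ((1 / (r.2.2.1 : ℝ)) * (1 / (r.2.2.2 : ℝ)))) with hF
  have hFS : ∀ q ∈ S, 1 / (Nat.lcm q.1 q.2 : ℝ) = F (Φ q) := by
    intro q hq
    obtain ⟨h1, -, -, h2⟩ := hΦ q hq
    simp only [Finset.mem_product, Finset.mem_Icc] at h1
    obtain ⟨-, ⟨p1, -⟩, ⟨p2, -⟩, ⟨p3, -⟩⟩ := h1
    have h3 : (Nat.lcm q.1 q.2 : ℝ) = f * ((Φ q).2.1 * (Φ q).2.2.1 * (Φ q).2.2.2) := by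
      rw [h2]; push_cast; ring
    rw [h3, hF]
    simp only
    have q1 : (0 : ℝ) < (Φ q).2.1 := by exact_mod_cast p1
    have q2 : (0 : ℝ) < (Φ q).2.2.1 := by exact_mod_cast p2
    have q3 : (0 : ℝ) < (Φ q).2.2.2 := by exact_mod_cast p3
    field_simp
  calc ∑ q ∈ S, 1 / (Nat.lcm q.1 q.2 : ℝ) = ∑ q ∈ S, F (Φ q) := Finset.sum_congr rfl hFS
    _ = ∑ r ∈ S.image Φ, F r := by rw [Finset.sum_image hinj]
    _ ≤ ∑ r ∈ ((f.divisors ×ˢ f.divisors) ×ˢ ((Icc 1 z) ×ˢ (Icc 1 z) ×ˢ (Icc 1 z))), F r := by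
        apply Finset.sum_le_sum_of_subset_of_nonneg
        · intro r hr
          rw [Finset.mem_image] at hr
          obtain ⟨q, hq, rfl⟩ := hr
          exact (hΦ q hq).1
        · intro r _ _; simp only [hF]; positivity
    _ = (f.divisors.card : ℝ) ^ 2 / f * (∑ n ∈ Icc 1 z, 1 / (n : ℝ)) ^ 3 := by
        rw [Finset.sum_product]
        simp only [hF]
        rw [Finset.sum_const, Finset.card_product]
        simp only [← Finset.mul_sum, Finset.sum_product]
        simp only [← Finset.sum_mul]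
        rw [nsmul_eq_mul]
        push_cast
        ring

theorem card_divisors_sq_le (f : ℕ) (hf : Squarefree f) :
    (f.divisors.card : ℝ) ^ 2 ≤ 4 ^ 17 * Real.sqrt f := by
  classical
  have hf0 : f ≠ 0 := hf.ne_zero
  have h1 : f.divisors.card = 2 ^ f.primeFactors.card := by
    rw [Nat.card_divisors hf0]
    have : ∀ p ∈ f.primeFactors, f.factorization p + 1 = 2 := by
      intro p hp
      have hp' := Nat.mem_primeFactors.mp hp
      have h2 : f.factorization p ≤ 1 := (Nat.squarefree_iff_factorization_le_one hf0).mp hf p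
      have h3 : 1 ≤ f.factorization p := (hp'.1.dvd_iff_one_le_factorization hf0).mp hp'.2.1
      omega
    rw [Finset.prod_congr rfl this, Finset.prod_const]
  have h2 : 16 ^ f.primeFactors.card ≤ 16 ^ 17 * f := by
    rw [← Finset.prod_const, ← Finset.prod_filter_mul_prod_filter_not f.primeFactors (fun p => p < 17)]
    apply Nat.mul_le_mul
    · rw [Finset.prod_const]
      apply Nat.pow_le_pow_right (by norm_num)
      calc (f.primeFactors.filter (fun p => p < 17)).card ≤ (range 17).card := by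
            apply Finset.card_le_card
            intro p hp
            rw [Finset.mem_filter] at hp
            exact Finset.mem_range.mpr hp.2
        _ = 17 := Finset.card_range 17
    · calc ∏ p ∈ f.primeFactors.filter (fun p => ¬ p < 17), 16 ≤
            ∏ p ∈ f.primeFactors.filter (fun p => ¬ p < 17), p := by
            apply Finset.prod_le_prod'
            intro p hp
            rw [Finset.mem_filter] at hp
            omega
        _ ≤ ∏ p ∈ f.primeFactors, p := by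
            apply Finset.prod_le_prod_of_subset_of_one_le' (Finset.filter_subset _ _)
            intro p hp _
            exact (Nat.mem_primeFactors.mp hp).1.one_lt.le
        _ = f := Nat.prod_primeFactors_of_squarefree hf
  have h3 : ((f.divisors.card : ℝ) ^ 2) ^ 2 ≤ (4 ^ 17 * Real.sqrt f) ^ 2 := by
    rw [mul_pow, Real.sq_sqrt (Nat.cast_nonneg f), h1]
    push_cast
    rw [← pow_mul, ← pow_mul, ← pow_mul]
    have h4 : (2 : ℝ) ^ (f.primeFactors.card * 2 * 2) = 16 ^ f.primeFactors.card := by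
      rw [mul_assoc, mul_comm, pow_mul]; norm_num
    have h4' : (2 : ℝ) ^ (f.primeFactors.card * (2 * 2)) = 16 ^ f.primeFactors.card := by
      rw [mul_comm, pow_mul]; norm_num
    have h5 : (4 : ℝ) ^ (17 * 2) = 16 ^ 17 := by norm_num
    rw [h5]
    first
      | rw [h4]
      | rw [h4']
    exact_mod_cast h2
  exact (pow_le_pow_iff_left₀ (by positivity) (by positivity) (by norm_num)).mp h3

theorem ww_le (z Q f : ℕ) (hz : 1 ≤ z) (hf : 0 < f) :
    ww z Q f ≤ 4 ^ 17 * (1 + Real.log z) ^ 3 / Real.sqrt f := by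
  classical
  have hlogz : 0 ≤ Real.log z := Real.log_nonneg (by exact_mod_cast hz)
  by_cases hsq : Squarefree f
  · have hf0 : (0 : ℝ) < f := by exact_mod_cast hf
    have hs : 0 < Real.sqrt f := Real.sqrt_pos.mpr hf0
    have hss : Real.sqrt f * Real.sqrt f = f := Real.mul_self_sqrt hf0.le
    have hH : ∑ n ∈ Icc 1 z, 1 / (n : ℝ) ≤ 1 + Real.log z := by
      have h6 := harmonic_le_one_add_log z
      rw [harmonic_eq_sum_Icc] at h6
      push_cast at h6
      simpa using h6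
    have hH0 : 0 ≤ ∑ n ∈ Icc 1 z, 1 / (n : ℝ) := Finset.sum_nonneg fun _ _ => by positivity
    refine (ww_le_aux z Q f hf).trans ?_
    have h1 := card_divisors_sq_le f hsq
    calc (f.divisors.card : ℝ) ^ 2 / f * (∑ n ∈ Icc 1 z, 1 / (n : ℝ)) ^ 3
        ≤ (4 ^ 17 * Real.sqrt f) / f * (1 + Real.log z) ^ 3 := by gcongr
      _ = 4 ^ 17 * (1 + Real.log z) ^ 3 / Real.sqrt f := by
          nth_rewrite 2 [← hss]
          field_simp
  · have h0 : ww z Q f = 0 := by
      unfold ww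
      apply Finset.sum_eq_zero
      intro d₁ hd₁
      apply Finset.sum_eq_zero
      intro d₂ hd₂
      rw [if_neg]
      intro hdvd
      apply hsq
      apply Squarefree.squarefree_of_dvd hdvd
      have p1 := (mem_Zs.mp hd₁).1.1
      have p2 := (mem_Zs.mp hd₂).1.1
      have s1 := (Nat.squarefree_iff_factorization_le_one (by omega)).mp (mem_Zs.mp hd₁).2.1
      have s2 := (Nat.squarefree_iff_factorization_le_one (by omega)).mp (mem_Zs.mp hd₂).2.1
      rw [Nat.squarefree_iff_factorization_le_one (Nat.lcm_pos p1 p2).ne',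
        Nat.factorization_lcm (by omega) (by omega)]
      intro p
      rw [Finsupp.sup_apply]
      exact sup_le (s1 p) (s2 p)
    rw [h0]
    positivity

end Pool.Agent.Helper94.Rev
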