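import Mathlib
import Pool.Agent.Helper94.RevW
import Pool.Agent.Helper94.RevPoint
import Pool.Agent.Helper94.RevSum

set_option autoImplicit false

namespace Pool.Agent.Helper94.Rev

open Finset

noncomputable def nu (z Q m : ℕ) : ℝ :=
  (∑ d ∈ (Zs z Q).filter (fun d => d ∣ m), lam z Q d) ^ 2

noncomputable def FF (b L z Q : ℕ) (a : ℝ) : ℂ :=
  ∑ m ∈ range (b ^ L), (nu z Q m : ℂ) * ex (a * rv b L m / b ^ L)

theorem nu_nonneg (z Q m : ℕ) : 0 ≤ nu z Q m := sq_nonneg _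

theorem nu_prime (z Q p : ℕ) (hz : 1 ≤ z) (hp : p.Prime) (hpz : z < p) : nu z Q p = 1 := by
  classical
  unfold nu
  have : (Zs z Q).filter (fun d => d ∣ p) = {1} := by
    ext d
    rw [Finset.mem_filter, Finset.mem_singleton]
    constructor
    · rintro ⟨h1, h2⟩
      rcases (Nat.dvd_prime hp).mp h2 with h | h
      · exact h
      · have := (mem_Zs.mp h1).1.2; omega
    · rintro rfl
      exact ⟨one_mem_Zs hz, one_dvd _⟩
  rw [this, Finset.sum_singleton, lam_one hz]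
  norm_num

theorem nu_eq (z Q m : ℕ) : nu z Q m = ∑ d₁ ∈ Zs z Q, ∑ d₂ ∈ Zs z Q,
    lam z Q d₁ * lam z Q d₂ * (if Nat.lcm d₁ d₂ ∣ m then 1 else 0) := by
  classical
  unfold nu
  rw [Finset.sum_filter, sq, Finset.sum_mul_sum]
  apply Finset.sum_congr rfl
  intro d₁ _
  apply Finset.sum_congr rfl
  intro d₂ _
  by_cases h1 : d₁ ∣ m <;> by_cases h2 : d₂ ∣ m
  · simp [h1, h2, Nat.lcm_dvd h1 h2]
  · have : ¬ Nat.lcm d₁ d₂ ∣ m := fun h => h2 ((Nat.dvd_lcm_right _ _).trans h)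
    simp [h2, this]
  · have : ¬ Nat.lcm d₁ d₂ ∣ m := fun h => h1 ((Nat.dvd_lcm_left _ _).trans h)
    simp [h1, this]
  · have : ¬ Nat.lcm d₁ d₂ ∣ m := fun h => h1 ((Nat.dvd_lcm_left _ _).trans h)
    simp [h1, this]

theorem FF_expand (b L z Q : ℕ) (a : ℝ) :
    FF b L z Q a = ∑ d₁ ∈ Zs z Q, ∑ d₂ ∈ Zs z Q,
      ((lam z Q d₁ * lam z Q d₂ / (Nat.lcm d₁ d₂ : ℝ) : ℝ) : ℂ) *
        ∑ c ∈ range (Nat.lcm d₁ d₂), P b L a ((c : ℝ) / (Nat.lcm d₁ d₂ : ℕ)) := by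
  classical
  unfold FF
  have h1 : ∀ m ∈ range (b ^ L), (nu z Q m : ℂ) * ex (a * rv b L m / b ^ L) =
      ∑ d₁ ∈ Zs z Q, ∑ d₂ ∈ Zs z Q,
      ((lam z Q d₁ * lam z Q d₂ / (Nat.lcm d₁ d₂ : ℝ) : ℝ) : ℂ) *
        ∑ c ∈ range (Nat.lcm d₁ d₂), ex (a * rv b L m / b ^ L + (c : ℝ) / (Nat.lcm d₁ d₂ : ℕ) * m) := by
    intro m _
    rw [nu_eq]
    push_cast
    rw [Finset.sum_mul]
    apply Finset.sum_congr rfl
    intro d₁ hd₁
    rw [Finset.sum_mul]
    apply Finset.sum_congr rfl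
    intro d₂ hd₂
    have p1 := (mem_Zs.mp hd₁).1.1
    have p2 := (mem_Zs.mp hd₂).1.1
    have hlpos : 0 < Nat.lcm d₁ d₂ := Nat.lcm_pos p1 p2
    have hl0 : ((Nat.lcm d₁ d₂ : ℕ) : ℂ) ≠ 0 := by exact_mod_cast hlpos.ne'
    have h2 : ∑ c ∈ range (Nat.lcm d₁ d₂),
        ex (a * rv b L m / b ^ L + (c : ℝ) / (Nat.lcm d₁ d₂ : ℕ) * m) =
        ex (a * rv b L m / b ^ L) * (if Nat.lcm d₁ d₂ ∣ m then ((Nat.lcm d₁ d₂ : ℕ) : ℂ) else 0) := by
      have h3 := sum_ex_div (Nat.lcm d₁ d₂) hlpos (m : ℤ)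
      have h4 : (((Nat.lcm d₁ d₂ : ℕ) : ℤ) ∣ (m : ℤ)) ↔ Nat.lcm d₁ d₂ ∣ m := Int.natCast_dvd_natCast
      simp only [h4] at h3
      rw [← h3, Finset.mul_sum]
      apply Finset.sum_congr rfl
      intro c _
      rw [← ex_add]
      congr 1
      push_cast
      ring
    rw [h2]
    split_ifs with h5
    · field_simp
      push_cast
      ring
    · simp
  rw [Finset.sum_congr rfl h1, Finset.sum_comm]
  apply Finset.sum_congr rfl
  intro d₁ _
  rw [Finset.sum_comm]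
  apply Finset.sum_congr rfl
  intro d₂ _
  rw [← Finset.mul_sum, Finset.sum_comm]
  rfl

/-- The finite set of fractions. -/
def Frac (D Q : ℕ) : Finset ℚ :=
  (((Icc 1 D) ×ˢ (Icc 1 D)).image (fun q : ℕ × ℕ => (q.1 : ℚ) / q.2)).filter
    (fun x => 0 < x ∧ x < 1 ∧ x.den ≤ D ∧ Nat.Coprime x.den Q)

theorem sum_frac_le (D Q e : ℕ) (he : 0 < e) (heD : e ≤ D) (heQ : Nat.Coprime e Q)
    (g : ℚ → ℝ) (hg : ∀ x, 0 ≤ g x) :
    ∑ c ∈ Ico 1 e, g ((c : ℚ) / e) ≤ ∑ x ∈ Frac D Q, if x.den ∣ e then g x else 0 := by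
  classical
  have he0 : (e : ℚ) ≠ 0 := by exact_mod_cast he.ne'
  have hinj : Set.InjOn (fun c : ℕ => (c : ℚ) / e) (Ico 1 e : Finset ℕ) := by
    intro c _ d _ hcd
    simp only at hcd
    rw [div_left_inj' he0] at hcd
    exact_mod_cast hcd
  rw [← Finset.sum_filter]
  calc ∑ c ∈ Ico 1 e, g ((c : ℚ) / e) = ∑ x ∈ (Ico 1 e).image (fun c : ℕ => (c : ℚ) / e), g x := by
        rw [Finset.sum_image hinj]
    _ ≤ _ := by
        apply Finset.sum_le_sum_of_subset_of_nonneg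
        · intro x hx
          rw [Finset.mem_image] at hx
          obtain ⟨c, hc, rfl⟩ := hx
          rw [Finset.mem_Ico] at hc
          have hden : ((c : ℚ) / e).den ∣ e := by
            have h3 := Rat.den_dvd (c : ℤ) (e : ℤ)
            have h4 : ((c : ℤ) : ℚ) / ((e : ℤ) : ℚ) = (c : ℚ) / e := by push_cast; rfl
            rw [Rat.divInt_eq_div, h4] at h3
            exact_mod_cast h3
          rw [Finset.mem_filter, Frac, Finset.mem_filter, Finset.mem_image]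
          refine ⟨⟨⟨(c, e), ?_, rfl⟩, ?_, ?_, ?_, ?_⟩, hden⟩
          · rw [Finset.mem_product, Finset.mem_Icc, Finset.mem_Icc]
            simp only; omega
          · have h1 : (0 : ℚ) < c := by exact_mod_cast hc.1
            have h2 : (0 : ℚ) < e := by exact_mod_cast he
            positivity
          · rw [div_lt_one (by exact_mod_cast he)]
            exact_mod_cast hc.2
          · exact (Nat.le_of_dvd he hden).trans heD
          · exact heQ.coprime_dvd_left hden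
        · intro x _ _; exact hg x

theorem norm_FF_le (b L z Q : ℕ) (hz : 1 ≤ z) (a : ℝ) :
    ‖FF b L z Q a‖ ≤ 1 / GG z Q * ‖P b L a 0‖ +
      ∑ x ∈ Frac (z ^ 2) Q, ‖P b L a x‖ * ww z Q x.den := by
  classical
  rw [FF_expand]
  have h1 : ∀ d₁ ∈ Zs z Q, ∀ d₂ ∈ Zs z Q,
      ((lam z Q d₁ * lam z Q d₂ / (Nat.lcm d₁ d₂ : ℝ) : ℝ) : ℂ) *
        ∑ c ∈ range (Nat.lcm d₁ d₂), P b L a ((c : ℝ) / (Nat.lcm d₁ d₂ : ℕ)) =
      ((lam z Q d₁ * lam z Q d₂ / (Nat.lcm d₁ d₂ : ℝ) : ℝ) : ℂ) * P b L a 0 +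
      ((lam z Q d₁ * lam z Q d₂ / (Nat.lcm d₁ d₂ : ℝ) : ℝ) : ℂ) *
        ∑ c ∈ Ico 1 (Nat.lcm d₁ d₂), P b L a ((c : ℝ) / (Nat.lcm d₁ d₂ : ℕ)) := by
    intro d₁ hd₁ d₂ hd₂
    have p1 := (mem_Zs.mp hd₁).1.1
    have p2 := (mem_Zs.mp hd₂).1.1
    have hlpos : 0 < Nat.lcm d₁ d₂ := Nat.lcm_pos p1 p2
    rw [← mul_add, Finset.range_eq_Ico, Finset.sum_eq_sum_Ico_succ_bot hlpos]
    simp
  rw [Finset.sum_congr rfl (fun d₁ hd₁ => Finset.sum_congr rfl (h1 d₁ hd₁))]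
  simp only [Finset.sum_add_distrib]
  refine (norm_add_le _ _).trans (add_le_add ?_ ?_)
  · have h2 : (∑ d₁ ∈ Zs z Q, ∑ d₂ ∈ Zs z Q,
        ((lam z Q d₁ * lam z Q d₂ / (Nat.lcm d₁ d₂ : ℝ) : ℝ) : ℂ) * P b L a 0) =
        ((∑ d₁ ∈ Zs z Q, ∑ d₂ ∈ Zs z Q, lam z Q d₁ * lam z Q d₂ / (Nat.lcm d₁ d₂ : ℝ) : ℝ) : ℂ) *
          P b L a 0 := by
      rw [Complex.ofReal_sum, Finset.sum_mul]
      apply Finset.sum_congr rfl
      intro d₁ _
      rw [Complex.ofReal_sum, Finset.sum_mul]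
    rw [h2, norm_mul, Complex.norm_real, Real.norm_eq_abs, abs_of_nonneg (quad_le hz).2]
    gcongr
    exact (quad_le hz).1
  · have h3 : ∀ d₁ ∈ Zs z Q, ∀ d₂ ∈ Zs z Q,
        ‖((lam z Q d₁ * lam z Q d₂ / (Nat.lcm d₁ d₂ : ℝ) : ℝ) : ℂ) *
        ∑ c ∈ Ico 1 (Nat.lcm d₁ d₂), P b L a ((c : ℝ) / (Nat.lcm d₁ d₂ : ℕ))‖ ≤
        ∑ x ∈ Frac (z ^ 2) Q, ‖P b L a x‖ *
          (if x.den ∣ Nat.lcm d₁ d₂ then 1 / (Nat.lcm d₁ d₂ : ℝ) else 0) := by
      intro d₁ hd₁ d₂ hd₂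
      obtain ⟨⟨p1, q1⟩, _, r1⟩ := mem_Zs.mp hd₁
      obtain ⟨⟨p2, q2⟩, _, r2⟩ := mem_Zs.mp hd₂
      have hlpos : 0 < Nat.lcm d₁ d₂ := Nat.lcm_pos p1 p2
      have hlle : Nat.lcm d₁ d₂ ≤ z ^ 2 := by
        calc Nat.lcm d₁ d₂ ≤ d₁ * d₂ := Nat.le_of_dvd (Nat.mul_pos p1 p2) (Nat.lcm_dvd_mul _ _)
          _ ≤ z * z := Nat.mul_le_mul q1 q2
          _ = z ^ 2 := (sq z).symm
      have hlcop : Nat.Coprime (Nat.lcm d₁ d₂) Q :=
        (Nat.Coprime.mul_left r1 r2).coprime_dvd_left (Nat.lcm_dvd_mul _ _)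
      have hl0 : (0 : ℝ) < (Nat.lcm d₁ d₂ : ℝ) := by exact_mod_cast hlpos
      rw [norm_mul, Complex.norm_real, Real.norm_eq_abs, abs_div, abs_mul, abs_of_pos hl0]
      have hab : |lam z Q d₁| * |lam z Q d₂| / (Nat.lcm d₁ d₂ : ℝ) ≤ 1 / (Nat.lcm d₁ d₂ : ℝ) := by
        gcongr
        have := abs_lam_le (Q := Q) hz p1
        have := abs_lam_le (Q := Q) hz p2
        have h4 := abs_nonneg (lam z Q d₁)
        have h5 := abs_nonneg (lam z Q d₂)
        nlinarith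
      have hs := sum_frac_le (z ^ 2) Q (Nat.lcm d₁ d₂) hlpos hlle hlcop
        (fun x => ‖P b L a x‖) (fun _ => norm_nonneg _)
      calc _ ≤ 1 / (Nat.lcm d₁ d₂ : ℝ) *
            ∑ c ∈ Ico 1 (Nat.lcm d₁ d₂), ‖P b L a ((c : ℝ) / (Nat.lcm d₁ d₂ : ℕ))‖ := by
            gcongr
            exact norm_sum_le _ _
        _ ≤ 1 / (Nat.lcm d₁ d₂ : ℝ) *
            ∑ x ∈ Frac (z ^ 2) Q, (if x.den ∣ Nat.lcm d₁ d₂ then ‖P b L a x‖ else 0) := by
            gcongr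
            refine le_trans (le_of_eq ?_) hs
            apply Finset.sum_congr rfl
            intro c _
            push_cast
            rfl
        _ = _ := by
            rw [Finset.mul_sum]
            apply Finset.sum_congr rfl
            intro x _
            split_ifs <;> ring
    calc _ ≤ ∑ d₁ ∈ Zs z Q, ∑ d₂ ∈ Zs z Q, ∑ x ∈ Frac (z ^ 2) Q, ‖P b L a x‖ *
          (if x.den ∣ Nat.lcm d₁ d₂ then 1 / (Nat.lcm d₁ d₂ : ℝ) else 0) := by
          refine (norm_sum_le _ _).trans (Finset.sum_le_sum fun d₁ hd₁ => ?_)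
          exact (norm_sum_le _ _).trans (Finset.sum_le_sum fun d₂ hd₂ => h3 d₁ hd₁ d₂ hd₂)
      _ = ∑ x ∈ Frac (z ^ 2) Q, ‖P b L a x‖ * ww z Q x.den := by
          calc _ = ∑ d₁ ∈ Zs z Q, ∑ x ∈ Frac (z ^ 2) Q, ∑ d₂ ∈ Zs z Q, ‖P b L a x‖ *
                (if x.den ∣ Nat.lcm d₁ d₂ then 1 / (Nat.lcm d₁ d₂ : ℝ) else 0) :=
                Finset.sum_congr rfl (fun d₁ _ => Finset.sum_comm)
            _ = ∑ x ∈ Frac (z ^ 2) Q, ∑ d₁ ∈ Zs z Q, ∑ d₂ ∈ Zs z Q, ‖P b L a x‖ *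
                (if x.den ∣ Nat.lcm d₁ d₂ then 1 / (Nat.lcm d₁ d₂ : ℝ) else 0) :=
                Finset.sum_comm
            _ = _ := by
                apply Finset.sum_congr rfl
                intro x _
                unfold ww
                rw [Finset.mul_sum]
                apply Finset.sum_congr rfl
                intro d₁ _
                rw [Finset.mul_sum]

theorem P_int_zero (b : ℕ) (hb : 0 < b) (L : ℕ) (a : ℤ) (ha : ¬ ((b : ℤ) ^ L ∣ a)) :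
    P b L a 0 = 0 := by
  induction L generalizing a with
  | zero => simp at ha
  | succ L ih =>
    rw [P_succ b L hb, add_zero, mul_zero]
    have hb0 : (b : ℝ) ≠ 0 := by positivity
    by_cases hd : (b : ℤ) ∣ a
    · obtain ⟨c, rfl⟩ := hd
      have h1 : (((b : ℤ) * c : ℤ) : ℝ) / b = (c : ℝ) := by
        push_cast; field_simp
      rw [h1, ih c, mul_zero]
      intro h
      apply ha
      rw [pow_succ, mul_comm]
      exact mul_dvd_mul_left _ h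
    · have h1 : phi b ((a : ℝ) / b) = 0 := by
        unfold phi
        have := sum_ex_div b hb a
        rw [if_neg hd] at this
        rw [← this]
        apply Finset.sum_congr rfl
        intro c _
        congr 1; ring
      rw [h1, zero_mul]

theorem card_Frac_filter_le (D Q D₀ : ℕ) :
    ((Frac D Q).filter (fun x => x.den ≤ D₀)).card ≤ D₀ ^ 2 := by
  classical
  have hsub : (Frac D Q).filter (fun x => x.den ≤ D₀) ⊆
      ((Icc 1 D₀) ×ˢ (Icc 1 D₀)).image (fun q : ℕ × ℕ => (q.1 : ℚ) / q.2) := by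
    intro x hx
    rw [Finset.mem_filter, Frac, Finset.mem_filter] at hx
    obtain ⟨⟨_, h0, h1, _, _⟩, h2⟩ := hx
    rw [Finset.mem_image]
    have hnum : 0 < x.num := Rat.num_pos.mpr h0
    have hlt : x.num < x.den := by
      have h3 : x = x.num / x.den := (Rat.num_div_den x).symm
      rw [h3, div_lt_one (by exact_mod_cast x.den_pos)] at h1
      exact_mod_cast h1
    refine ⟨(x.num.toNat, x.den), ?_, ?_⟩
    · rw [Finset.mem_product, Finset.mem_Icc, Finset.mem_Icc]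
      have := x.den_pos
      simp only; omega
    · simp only
      have h3 : ((x.num.toNat : ℕ) : ℚ) = (x.num : ℚ) := by
        have : ((x.num.toNat : ℕ) : ℤ) = x.num := Int.toNat_of_nonneg hnum.le
        exact_mod_cast congrArg (fun n : ℤ => (n : ℚ)) this
      rw [h3]
      exact Rat.num_div_den x
  calc _ ≤ _ := Finset.card_le_card hsub
    _ ≤ ((Icc 1 D₀) ×ˢ (Icc 1 D₀)).card := Finset.card_image_le
    _ = D₀ ^ 2 := by rw [Finset.card_product, Nat.card_Icc]; simp [sq]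

/-- The error bound. -/
theorem error_le (b : ℕ) (hb : 2 ≤ b) (L z k J : ℕ) (hz : 1 ≤ z) (hJ : 2 * J ≤ L)
    (hzJ : (z ^ 2) ^ 2 ≤ b ^ J) (a : ℝ) :
    ∑ x ∈ Frac (z ^ 2) (b * (b ^ 2 - 1)), ‖P b L a x‖ * ww z (b * (b ^ 2 - 1)) x.den ≤
      (b : ℝ) ^ L * (4 ^ 17 * (1 + Real.log z) ^ 3) *
        ((2 + J * Real.log b) / Real.sqrt ((b : ℝ) ^ k) +
          ((b : ℝ) ^ k) ^ 2 * (1 - cc b) ^ (L / (k + 2))) := by
  classical
  set Q := b * (b ^ 2 - 1) with hQ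
  have hb0 : (0 : ℝ) < b := by exact_mod_cast (by omega : 0 < b)
  have hlogz : 0 ≤ Real.log z := Real.log_nonneg (by exact_mod_cast hz)
  have hlogb : 0 ≤ Real.log b := Real.log_nonneg (by exact_mod_cast (by omega : 1 ≤ b))
  set W : ℝ := 4 ^ 17 * (1 + Real.log z) ^ 3 with hW
  have hW0 : 0 ≤ W := by positivity
  have hc1 : 0 ≤ 1 - cc b := by have := cc_lt_one b hb; linarith
  have hmem : ∀ x ∈ Frac (z ^ 2) Q, 0 < x ∧ x < 1 ∧ x.den ≤ z ^ 2 ∧ Nat.Coprime x.den b ∧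
      Nat.Coprime x.den (b ^ 2 - 1) := by
    intro x hx
    rw [Frac, Finset.mem_filter] at hx
    obtain ⟨_, h0, h1, h2, h3⟩ := hx
    exact ⟨h0, h1, h2, h3.coprime_dvd_right ⟨b ^ 2 - 1, rfl⟩,
      h3.coprime_dvd_right ⟨b, by rw [hQ, mul_comm]⟩⟩
  rw [← Finset.sum_filter_add_sum_filter_not (Frac (z ^ 2) Q) (fun x => x.den ≤ b ^ k)]
  have hlarge : ∑ x ∈ (Frac (z ^ 2) Q).filter (fun x => ¬ x.den ≤ b ^ k),
      ‖P b L a x‖ * ww z Q x.den ≤ (b : ℝ) ^ L * W * ((2 + J * Real.log b) / Real.sqrt ((b : ℝ) ^ k)) := by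
    have h1 : ∀ x ∈ (Frac (z ^ 2) Q).filter (fun x => ¬ x.den ≤ b ^ k),
        ‖P b L a x‖ * ww z Q x.den ≤ ‖P b L a x‖ * (W / Real.sqrt ((b : ℝ) ^ k)) := by
      intro x hx
      rw [Finset.mem_filter] at hx
      gcongr
      refine (ww_le z Q x.den hz x.den_pos).trans ?_
      rw [← hW]
      have h2 : ((b : ℝ) ^ k) ≤ x.den := by
        have : b ^ k ≤ x.den := by omega
        exact_mod_cast this
      gcongr
    refine (Finset.sum_le_sum h1).trans ?_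
    rw [← Finset.sum_mul]
    have h2 := sum_P_le b hb L J (z ^ 2) hJ (Nat.one_le_pow _ _ hz) hzJ
      ((Frac (z ^ 2) Q).filter (fun x => ¬ x.den ≤ b ^ k))
      (fun x hx => by
        rw [Finset.mem_filter] at hx
        obtain ⟨h0, h1, h2, h3, _⟩ := hmem x hx.1
        exact ⟨h0, h1, h3, h2⟩) a
    calc _ ≤ ((b : ℝ) ^ L * (2 + J * Real.log b)) * (W / Real.sqrt ((b : ℝ) ^ k)) := by gcongr
      _ = _ := by ring
  have hsmall : ∑ x ∈ (Frac (z ^ 2) Q).filter (fun x => x.den ≤ b ^ k),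
      ‖P b L a x‖ * ww z Q x.den ≤
        (b : ℝ) ^ L * W * (((b : ℝ) ^ k) ^ 2 * (1 - cc b) ^ (L / (k + 2))) := by
    have h1 : ∀ x ∈ (Frac (z ^ 2) Q).filter (fun x => x.den ≤ b ^ k),
        ‖P b L a x‖ * ww z Q x.den ≤ ((b : ℝ) ^ L * (1 - cc b) ^ (L / (k + 2))) * W := by
      intro x hx
      rw [Finset.mem_filter] at hx
      obtain ⟨h0, h1, h2, h3, h4⟩ := hmem x hx.1
      have h5 := norm_P_rat_le b hb L a x h0 h1 h3 h4 k hx.2
      have h6 : ww z Q x.den ≤ W := by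
        refine (ww_le z Q x.den hz x.den_pos).trans ?_
        rw [← hW]
        have h7 : 1 ≤ Real.sqrt x.den := by
          rw [Real.one_le_sqrt]; exact_mod_cast x.den_pos
        exact div_le_self hW0 h7
      have h7 : 0 ≤ ww z Q x.den := by
        unfold ww
        apply Finset.sum_nonneg; intro _ _
        apply Finset.sum_nonneg; intro _ _
        split_ifs <;> positivity
      gcongr
    refine (Finset.sum_le_sum h1).trans ?_
    rw [Finset.sum_const, nsmul_eq_mul]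
    have h2 : ((((Frac (z ^ 2) Q).filter (fun x => x.den ≤ b ^ k)).card : ℕ) : ℝ) ≤
        ((b : ℝ) ^ k) ^ 2 := by
      have := card_Frac_filter_le (z ^ 2) Q (b ^ k)
      exact_mod_cast this
    calc _ ≤ ((b : ℝ) ^ k) ^ 2 * (((b : ℝ) ^ L * (1 - cc b) ^ (L / (k + 2))) * W) := by gcongr
      _ = _ := by ring
  calc _ ≤ (b : ℝ) ^ L * W * (((b : ℝ) ^ k) ^ 2 * (1 - cc b) ^ (L / (k + 2))) +
        (b : ℝ) ^ L * W * ((2 + J * Real.log b) / Real.sqrt ((b : ℝ) ^ k)) :=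
        add_le_add hsmall hlarge
    _ = _ := by ring

end Pool.Agent.Helper94.Rev
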