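import Mathlib

set_option autoImplicit false

namespace Pool.Agent.Helper94.Rev

open Finset Classical

/-- number of elements of `A` in `[1,n]`. -/
noncomputable def cnt (A : Set ℕ) (n : ℕ) : ℕ := ((Ioc 0 n).filter (fun a => a ∈ A)).card

theorem cnt_zero (A : Set ℕ) : cnt A 0 = 0 := by simp [cnt]

theorem cnt_le (A : Set ℕ) (n : ℕ) : cnt A n ≤ n := by
  refine (Finset.card_filter_le _ _).trans ?_
  simp

theorem cnt_mono {A B : Set ℕ} (h : A ⊆ B) (n : ℕ) : cnt A n ≤ cnt B n := by
  apply Finset.card_le_card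
  intro x hx
  rw [Finset.mem_filter] at hx ⊢
  exact ⟨hx.1, h hx.2⟩

theorem cnt_mono_right (A : Set ℕ) {m n : ℕ} (h : m ≤ n) : cnt A m ≤ cnt A n := by
  apply Finset.card_le_card
  intro x hx
  rw [Finset.mem_filter, Finset.mem_Ioc] at hx ⊢
  exact ⟨⟨hx.1.1, hx.1.2.trans h⟩, hx.2⟩

/-- Schnirelmann's inequality, in counting form. -/
theorem schn1 (A B C : Set ℕ) (hB0 : 0 ∈ B) (hA0 : 0 ∈ A) (hC : ∀ a ∈ A, ∀ b ∈ B, a + b ∈ C)
    (β : ℝ) (hβ : ∀ n : ℕ, β * n ≤ cnt B n) :
    ∀ n : ℕ, (cnt A n : ℝ) + β * (n - cnt A n) ≤ cnt C n := by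
  intro n
  induction n using Nat.strong_induction_on with
  | _ n ih =>
    by_cases hne : ((Ioc 0 n).filter (fun a => a ∈ A)).Nonempty
    · set a := ((Ioc 0 n).filter (fun a => a ∈ A)).max' hne with ha
      have hamem := Finset.max'_mem _ hne
      rw [← ha, Finset.mem_filter, Finset.mem_Ioc] at hamem
      obtain ⟨⟨ha0, han⟩, haA⟩ := hamem
      have hmax : ∀ x, 0 < x → x ≤ n → x ∈ A → x ≤ a := by
        intro x h1 h2 h3
        apply Finset.le_max'
        rw [Finset.mem_filter, Finset.mem_Ioc]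
        exact ⟨⟨h1, h2⟩, h3⟩
      -- count of A
      have hcA : cnt A n = cnt A (a - 1) + 1 := by
        unfold cnt
        have : (Ioc 0 n).filter (fun a => a ∈ A) =
            insert a ((Ioc 0 (a - 1)).filter (fun a => a ∈ A)) := by
          ext x
          rw [Finset.mem_insert, Finset.mem_filter, Finset.mem_filter, Finset.mem_Ioc,
            Finset.mem_Ioc]
          constructor
          · rintro ⟨⟨h1, h2⟩, h3⟩
            have := hmax x h1 h2 h3
            by_cases hx : x = a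
            · left; exact hx
            · right; exact ⟨⟨h1, by omega⟩, h3⟩
          · rintro (rfl | ⟨⟨h1, h2⟩, h3⟩)
            · exact ⟨⟨ha0, han⟩, haA⟩
            · exact ⟨⟨h1, by omega⟩, h3⟩
        rw [this, Finset.card_insert_of_notMem]
        rw [Finset.mem_filter, Finset.mem_Ioc]
        rintro ⟨⟨_, h2⟩, _⟩
        omega
      have hcC : cnt C (a - 1) + 1 + cnt B (n - a) ≤ cnt C n := by
        unfold cnt
        have hsub : insert a ((Ioc 0 (a - 1)).filter (fun x => x ∈ C)) ∪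
            ((Ioc 0 (n - a)).filter (fun x => x ∈ B)).image (fun x => a + x) ⊆
            (Ioc 0 n).filter (fun x => x ∈ C) := by
          intro x hx
          rw [Finset.mem_union, Finset.mem_insert, Finset.mem_filter, Finset.mem_image,
            Finset.mem_Ioc] at hx
          rw [Finset.mem_filter, Finset.mem_Ioc]
          rcases hx with (rfl | ⟨⟨h1, h2⟩, h3⟩) | ⟨y, hy, rfl⟩
          · exact ⟨⟨ha0, han⟩, by simpa using hC _ haA 0 hB0⟩
          · exact ⟨⟨h1, by omega⟩, h3⟩
          · rw [Finset.mem_filter, Finset.mem_Ioc] at hy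
            exact ⟨⟨by omega, by omega⟩, hC _ haA y hy.2⟩
        have hdisj : Disjoint (insert a ((Ioc 0 (a - 1)).filter (fun x => x ∈ C)))
            (((Ioc 0 (n - a)).filter (fun x => x ∈ B)).image (fun x => a + x)) := by
          rw [Finset.disjoint_left]
          intro x hx hy
          rw [Finset.mem_insert, Finset.mem_filter, Finset.mem_Ioc] at hx
          rw [Finset.mem_image] at hy
          obtain ⟨y, hy, rfl⟩ := hy
          rw [Finset.mem_filter, Finset.mem_Ioc] at hy
          rcases hx with h | ⟨⟨h1, h2⟩, h3⟩ <;> omega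
        have hcard := Finset.card_le_card hsub
        rw [Finset.card_union_of_disjoint hdisj, Finset.card_insert_of_notMem,
          Finset.card_image_of_injective _ (add_right_injective a)] at hcard
        · exact hcard
        · rw [Finset.mem_filter, Finset.mem_Ioc]
          rintro ⟨⟨_, h2⟩, _⟩
          omega
      have hih := ih (a - 1) (by omega)
      have hβ' := hβ (n - a)
      have e1 : ((a - 1 : ℕ) : ℝ) = (a : ℝ) - 1 := by
        rw [Nat.cast_sub (by omega)]; simp
      have e2 : ((n - a : ℕ) : ℝ) = (n : ℝ) - a := by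
        rw [Nat.cast_sub han]
      rw [e1] at hih
      rw [e2] at hβ'
      have hcA' : (cnt A n : ℝ) = cnt A (a - 1) + 1 := by exact_mod_cast hcA
      have hcC' : (cnt C (a - 1) : ℝ) + 1 + cnt B (n - a) ≤ cnt C n := by exact_mod_cast hcC
      rw [hcA']
      have : β * ((n : ℝ) - (cnt A (a - 1) + 1)) =
        β * ((a : ℝ) - 1 - cnt A (a - 1)) + β * ((n : ℝ) - a) := by ring
      rw [this]
      linarith
    · have h0 : cnt A n = 0 := by
        unfold cnt
        rw [Finset.not_nonempty_iff_eq_empty] at hne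
        rw [hne]; simp
      rw [h0]
      have h1 : cnt B n ≤ cnt C n := by
        apply cnt_mono
        intro x hx
        simpa using hC 0 hA0 x hx
      have h2 : (cnt B n : ℝ) ≤ cnt C n := by exact_mod_cast h1
      have := hβ n
      simp only [Nat.cast_zero, sub_zero, zero_add]
      linarith

theorem schn2 (C : Set ℕ) (hC0 : 0 ∈ C) (h : ∀ n : ℕ, (n : ℝ) / 2 ≤ cnt C n) (n : ℕ) :
    ∃ x ∈ C, ∃ y ∈ C, x + y = n := by
  by_cases hn : n ∈ C
  · exact ⟨n, hn, 0, hC0, by simp⟩
  · have hn0 : 0 < n := by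
      rcases Nat.eq_zero_or_pos n with h0 | h0
      · rw [h0] at hn; exact absurd hC0 hn
      · exact h0
    set U := (Ioc 0 n).filter (fun a => a ∈ C) with hU
    have hUle : ∀ x ∈ U, 0 < x ∧ x < n ∧ x ∈ C := by
      intro x hx
      rw [hU, Finset.mem_filter, Finset.mem_Ioc] at hx
      refine ⟨hx.1.1, ?_, hx.2⟩
      rcases Nat.lt_or_ge x n with h1 | h1
      · exact h1
      · have : x = n := le_antisymm hx.1.2 h1
        rw [this] at hx; exact absurd hx.2 hn
    set V := U.image (fun x => n - x) with hV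
    have hcardV : V.card = U.card := by
      apply Finset.card_image_of_injOn
      intro x hx y hy hxy
      have h1 := hUle x hx
      have h2 := hUle y hy
      simp only at hxy
      omega
    have hnd : ¬ Disjoint U V := by
      intro hd
      have h1 : U ∪ V ⊆ Ioo 0 n := by
        intro x hx
        rw [Finset.mem_union] at hx
        rw [Finset.mem_Ioo]
        rcases hx with hx | hx
        · exact ⟨(hUle x hx).1, (hUle x hx).2.1⟩
        · rw [hV, Finset.mem_image] at hx
          obtain ⟨y, hy, rfl⟩ := hx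
          have := hUle y hy
          omega
      have h2 := Finset.card_le_card h1
      rw [Finset.card_union_of_disjoint hd, hcardV, Nat.card_Ioo] at h2
      have h3 : (n : ℝ) / 2 ≤ U.card := h n
      have h4 : (n : ℝ) ≤ (U.card + U.card : ℕ) := by push_cast; linarith
      have h5 : n ≤ U.card + U.card := by exact_mod_cast h4
      omega
    rw [Finset.not_disjoint_iff] at hnd
    obtain ⟨x, hxU, hxV⟩ := hnd
    rw [hV, Finset.mem_image] at hxV
    obtain ⟨y, hyU, hyx⟩ := hxV
    have h1 := hUle x hxU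
    have h2 := hUle y hyU
    exact ⟨x, h1.2.2, y, h2.2.2, by omega⟩

/-- Sums of exactly `h` elements of `A`. -/
def SS (A : Set ℕ) (h : ℕ) : Set ℕ :=
  {n | ∃ s : Multiset ℕ, s.card = h ∧ (∀ x ∈ s, x ∈ A) ∧ s.sum = n}

theorem SS_zero_mem (A : Set ℕ) (hA : 0 ∈ A) (h : ℕ) : 0 ∈ SS A h := by
  refine ⟨Multiset.replicate h 0, by simp, ?_, by simp⟩
  intro x hx
  rw [Multiset.eq_of_mem_replicate hx]; exact hA

theorem SS_succ (A : Set ℕ) (h : ℕ) : ∀ a ∈ SS A h, ∀ b ∈ A, a + b ∈ SS A (h + 1) := by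
  rintro a ⟨s, hs1, hs2, hs3⟩ b hb
  refine ⟨b ::ₘ s, by simp [hs1], ?_, by simp [hs3, add_comm]⟩
  intro x hx
  rw [Multiset.mem_cons] at hx
  rcases hx with rfl | hx
  · exact hb
  · exact hs2 x hx

theorem SS_density (A : Set ℕ) (hA : 0 ∈ A) (δ : ℝ) (hδ1 : δ ≤ 1)
    (h : ∀ n : ℕ, δ * n ≤ cnt A n) (k : ℕ) :
    ∀ n : ℕ, (1 - (1 - δ) ^ k) * n ≤ cnt (SS A k) n := by
  induction k with
  | zero => intro n; simp
  | succ k ih =>
    intro n
    have h1 := schn1 (SS A k) A (SS A (k + 1)) hA (SS_zero_mem A hA k) (SS_succ A k) δ h n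
    have h2 := ih n
    calc (1 - (1 - δ) ^ (k + 1)) * n = (1 - δ) * ((1 - (1 - δ) ^ k) * n) + δ * n := by ring
      _ ≤ (1 - δ) * cnt (SS A k) n + δ * n := by
          have : 0 ≤ 1 - δ := by linarith
          gcongr
      _ = cnt (SS A k) n + δ * (n - cnt (SS A k) n) := by ring
      _ ≤ _ := h1

/-- Schnirelmann's theorem: a set containing `0` of positive Schnirelmann density is a basis. -/
theorem schnirelmann_basis (A : Set ℕ) (hA : 0 ∈ A) (δ : ℝ) (hδ : 0 < δ)
    (h : ∀ n : ℕ, δ * n ≤ cnt A n) : ∃ H : ℕ, ∀ n : ℕ, n ∈ SS A H := by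
  have hδ1 : δ ≤ 1 := by
    have h1 := h 1
    have h2 : (cnt A 1 : ℝ) ≤ (1 : ℕ) := by exact_mod_cast cnt_le A 1
    push_cast at h1 h2
    linarith
  obtain ⟨k, hk⟩ : ∃ k : ℕ, (1 - δ) ^ k < 1 / 2 :=
    exists_pow_lt_of_lt_one (by norm_num) (by linarith)
  refine ⟨k + k, fun n => ?_⟩
  have h1 : ∀ n : ℕ, (n : ℝ) / 2 ≤ cnt (SS A k) n := by
    intro n
    refine le_trans ?_ (SS_density A hA δ hδ1 h k n)
    have : (0 : ℝ) ≤ n := Nat.cast_nonneg n
    nlinarith
  obtain ⟨x, ⟨s, hs1, hs2, hs3⟩, y, ⟨t, ht1, ht2, ht3⟩, hxy⟩ :=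
    schn2 (SS A k) (SS_zero_mem A hA k) h1 n
  refine ⟨s + t, by simp [hs1, ht1], ?_, by simp [hs3, ht3, hxy]⟩
  intro x hx
  rw [Multiset.mem_add] at hx
  rcases hx with hx | hx
  · exact hs2 x hx
  · exact ht2 x hx

end Pool.Agent.Helper94.Rev
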