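import Pool.Agent.Helper94.RevDens
import Pool.Agent.Helper94.RevSchn

set_option autoImplicit false

namespace Pool.Agent.Helper94.Rev

open Finset

/-- `x` is the base-`b` reversal of a prime. -/
def IsRP (b x : ℕ) : Prop := ∃ p : ℕ, p.Prime ∧ x = Nat.ofDigits b (Nat.digits b p).reverse

theorem rv_zero (b L : ℕ) : rv b L 0 = 0 := by
  induction L with
  | zero => simp [rv]
  | succ L ih => rw [rv]; simp [ih]

theorem rv_eq_rev (b : ℕ) (hb : 2 ≤ b) : ∀ m : ℕ,
    rv b (Nat.digits b m).length m = Nat.ofDigits b (Nat.digits b m).reverse := by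
  intro m
  induction m using Nat.strong_induction_on with
  | _ m ih =>
    rcases Nat.eq_zero_or_pos m with rfl | hm
    · simp [rv]
    · rw [Nat.digits_def' (by omega) hm, List.length_cons, rv, Nat.ofDigits_reverse_cons,
        ih (m / b) (Nat.div_lt_self hm (by omega))]
      ring

theorem RT_isRP (b L : ℕ) (hb : 2 ≤ b) (hL : 1 ≤ L) : ∀ x ∈ RT b L, IsRP b x := by
  intro x hx
  rw [RT, Finset.mem_image] at hx
  obtain ⟨p, hp, rfl⟩ := hx
  simp only [PR, Finset.mem_filter, Finset.mem_range] at hp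
  refine ⟨p, hp.2.1, ?_⟩
  have hlen : (Nat.digits b p).length = L := by
    rw [Nat.length_digits b p (by omega) hp.2.1.ne_zero]
    have h1 : Nat.log b p = L - 1 := by
      rw [Nat.log_eq_iff (Or.inr ⟨by omega, hp.2.1.ne_zero⟩)]
      refine ⟨hp.2.2, ?_⟩
      rw [Nat.sub_add_cancel hL]; exact hp.1
    omega
  rw [← rv_eq_rev b hb p, hlen]

theorem RT_pos (b L : ℕ) (hb : 2 ≤ b) : ∀ x ∈ RT b L, 0 < x := by
  intro x hx
  rw [RT, Finset.mem_image] at hx
  obtain ⟨p, hp, rfl⟩ := hx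
  simp only [PR, Finset.mem_filter, Finset.mem_range] at hp
  rcases Nat.eq_zero_or_pos (rv b L p) with h | h
  · have h2 : rv b L p = rv b L 0 := by rw [h, rv_zero]
    have := rv_inj b (by omega) L p 0 hp.1 (Nat.pow_pos (by omega)) h2
    exact absurd this hp.2.1.ne_zero
  · exact h

/-- Sums of two reversed primes together with `0` and `1`. -/
def AA (b : ℕ) : Set ℕ := {x | x = 0 ∨ x = 1 ∨ ∃ u v, IsRP b u ∧ IsRP b v ∧ x = u + v}

theorem AA_density (b : ℕ) (hb : 2 ≤ b) : ∃ δ : ℝ, 0 < δ ∧ ∀ n : ℕ, δ * n ≤ cnt (AA b) n := by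
  classical
  have hb' : (2 : ℝ) ≤ b := by exact_mod_cast hb
  have hb0 : (0 : ℝ) < b := by linarith
  obtain ⟨δ, hδ, L₀, hL₀⟩ := density_step b hb
  set L₁ := L₀ + 4 with hL₁
  refine ⟨min (1 / (2 * (b : ℝ) ^ L₁)) (δ / (2 * (b : ℝ) ^ 4)), by positivity, ?_⟩
  intro n
  rcases Nat.eq_zero_or_pos n with rfl | hn
  · simp
  have hnr : (0 : ℝ) < n := by exact_mod_cast hn
  by_cases hsmall : n < 2 * b ^ L₁
  · have h1 : 1 ≤ cnt (AA b) n := by
      unfold cnt
      rw [Nat.one_le_iff_ne_zero, ← Nat.pos_iff_ne_zero, Finset.card_pos]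
      refine ⟨1, ?_⟩
      rw [Finset.mem_filter, Finset.mem_Ioc]
      exact ⟨⟨by omega, by omega⟩, Or.inr (Or.inl rfl)⟩
    have h2 : (1 : ℝ) ≤ cnt (AA b) n := by exact_mod_cast h1
    have h3 : (n : ℝ) ≤ 2 * (b : ℝ) ^ L₁ := by exact_mod_cast hsmall.le
    calc min (1 / (2 * (b : ℝ) ^ L₁)) (δ / (2 * (b : ℝ) ^ 4)) * n
        ≤ (1 / (2 * (b : ℝ) ^ L₁)) * (2 * (b : ℝ) ^ L₁) := by
          apply mul_le_mul (min_le_left _ _) h3 hnr.le (by positivity)
      _ = 1 := by field_simp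
      _ ≤ _ := h2
  · push Not at hsmall
    set L := Nat.log b (n / 2) with hL
    have hn2 : b ^ L₁ ≤ n / 2 := by omega
    have hn2pos : n / 2 ≠ 0 := by
      have : 0 < b ^ L₁ := Nat.pow_pos (by omega)
      omega
    have hLL : L₁ ≤ L := by
      rw [hL]; exact Nat.le_log_of_pow_le (by omega) hn2
    have hpow1 : b ^ L ≤ n / 2 := Nat.pow_log_le_self b hn2pos
    have hpow2 : n / 2 < b ^ (L + 1) := Nat.lt_pow_succ_log_self (by omega) _
    obtain ⟨L', h1, h2, h3⟩ := hL₀ L (by omega)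
    have hL'1 : 1 ≤ L' := by omega
    have hcard : ((RT b L' ×ˢ RT b L').image (fun q : ℕ × ℕ => q.1 + q.2)).card ≤
        cnt (AA b) n := by
      apply Finset.card_le_card
      intro x hx
      rw [Finset.mem_image] at hx
      obtain ⟨⟨u, v⟩, huv, rfl⟩ := hx
      rw [Finset.mem_product] at huv
      simp only at huv ⊢
      have hu := RT_sub b L' (by omega) huv.1
      have hv := RT_sub b L' (by omega) huv.2
      rw [Finset.mem_range] at hu hv
      have hle : b ^ L' ≤ b ^ L := Nat.pow_le_pow_right (by omega) h1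
      have hu0 := RT_pos b L' hb u huv.1
      rw [Finset.mem_filter, Finset.mem_Ioc]
      refine ⟨⟨by omega, by omega⟩, Or.inr (Or.inr ⟨u, v, ?_, ?_, rfl⟩)⟩
      · exact RT_isRP b L' hb hL'1 u huv.1
      · exact RT_isRP b L' hb hL'1 v huv.2
    have hcard' : ((((RT b L' ×ˢ RT b L').image (fun q : ℕ × ℕ => q.1 + q.2)).card : ℕ) : ℝ) ≤
        cnt (AA b) n := by exact_mod_cast hcard
    have hn3 : (n : ℝ) ≤ 2 * (b : ℝ) ^ 4 * (b : ℝ) ^ L' := by
      have h4 : n ≤ 2 * b ^ (L + 1) := by omega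
      have h5 : b ^ (L + 1) ≤ b ^ (4 + L') := Nat.pow_le_pow_right (by omega) (by omega)
      have h6 : n ≤ 2 * b ^ (4 + L') := by omega
      have h7 : (n : ℝ) ≤ 2 * (b : ℝ) ^ (4 + L') := by exact_mod_cast h6
      rw [pow_add] at h7
      linarith
    calc min (1 / (2 * (b : ℝ) ^ L₁)) (δ / (2 * (b : ℝ) ^ 4)) * n
        ≤ (δ / (2 * (b : ℝ) ^ 4)) * (2 * (b : ℝ) ^ 4 * (b : ℝ) ^ L') := by
          apply mul_le_mul (min_le_right _ _) hn3 hnr.le (by positivity)
      _ = δ * (b : ℝ) ^ L' := by field_simp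
      _ ≤ _ := h3.trans hcard'

theorem split_AA (b : ℕ) (s : Multiset ℕ) (hs : ∀ x ∈ s, x ∈ AA b) :
    ∃ t : ℕ, t ≤ s.card ∧ ∃ r : Multiset ℕ, r.card ≤ 2 * s.card ∧ (∀ x ∈ r, IsRP b x) ∧
      r.sum + t = s.sum := by
  induction s using Multiset.induction with
  | empty => exact ⟨0, by simp, 0, by simp, by simp, by simp⟩
  | cons a s ih =>
    obtain ⟨t, ht, r, hr1, hr2, hr3⟩ := ih (fun x hx => hs x (Multiset.mem_cons_of_mem hx))
    rcases hs a (Multiset.mem_cons_self a s) with h | h | ⟨u, v, hu, hv, huv⟩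
    · refine ⟨t, ?_, r, ?_, hr2, ?_⟩
      · rw [Multiset.card_cons]; omega
      · rw [Multiset.card_cons]; omega
      · rw [Multiset.sum_cons, h]; omega
    · refine ⟨t + 1, ?_, r, ?_, hr2, ?_⟩
      · rw [Multiset.card_cons]; omega
      · rw [Multiset.card_cons]; omega
      · rw [Multiset.sum_cons, h]; omega
    · refine ⟨t, ?_, u ::ₘ v ::ₘ r, ?_, ?_, ?_⟩
      · rw [Multiset.card_cons]; omega
      · rw [Multiset.card_cons, Multiset.card_cons, Multiset.card_cons]; omega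
      · intro x hx
        rw [Multiset.mem_cons, Multiset.mem_cons] at hx
        rcases hx with rfl | rfl | hx
        · exact hu
        · exact hv
        · exact hr2 x hx
      · rw [Multiset.sum_cons, Multiset.sum_cons, Multiset.sum_cons]; omega

theorem isRP_one (b : ℕ) (hb : b.Prime) : IsRP b 1 := by
  refine ⟨b, hb, ?_⟩
  have h2 := hb.two_le
  have h1 : Nat.digits b b = [0, 1] := by
    rw [Nat.digits_def' (by omega) (by omega), Nat.mod_self, Nat.div_self (by omega),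
      Nat.digits_of_lt b 1 (by omega) (by omega)]
  rw [h1]
  simp [Nat.ofDigits]

theorem isRP_small (b p : ℕ) (hp : p.Prime) (hpb : p < b) : IsRP b p := by
  refine ⟨p, hp, ?_⟩
  rw [Nat.digits_of_lt b p hp.ne_zero hpb]
  simp [Nat.ofDigits]

/-- For every base `b ≥ 2` there are `K > 1` and `N₀` such that every `N ≥ N₀` is a sum of at most
`K` reversed primes in base `b`. -/
theorem reversed_primes_basis (b : ℕ) (hb : 2 ≤ b) : ∃ K N₀ : ℕ, 1 < K ∧ ∀ N ≥ N₀,
    ∃ s : Multiset ℕ, s.card ≤ K ∧ (∀ x ∈ s, IsRP b x) ∧ s.sum = N := by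
  obtain ⟨δ, hδ, hd⟩ := AA_density b hb
  obtain ⟨H, hH⟩ := schnirelmann_basis (AA b) (Or.inl rfl) δ hδ hd
  refine ⟨3 * H + 2, 2, by omega, ?_⟩
  intro N hN
  obtain ⟨s, hs1, hs2, hs3⟩ := hH (N - 2)
  obtain ⟨t, ht, r, hr1, hr2, hr3⟩ := split_AA b s hs2
  rw [hs1] at ht hr1
  rw [hs3] at hr3
  by_cases hb4 : b < 4
  · have hbp : b.Prime := by
      have : b = 2 ∨ b = 3 := by omega
      rcases this with rfl | rfl
      · exact Nat.prime_two
      · exact Nat.prime_three
    refine ⟨r + Multiset.replicate (t + 2) 1, ?_, ?_, ?_⟩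
    · rw [Multiset.card_add, Multiset.card_replicate]; omega
    · intro x hx
      rw [Multiset.mem_add] at hx
      rcases hx with hx | hx
      · exact hr2 x hx
      · rw [Multiset.eq_of_mem_replicate hx]; exact isRP_one b hbp
    · rw [Multiset.sum_add, Multiset.sum_replicate]
      simp only [smul_eq_mul, mul_one]
      omega
  · have h2 : IsRP b 2 := isRP_small b 2 Nat.prime_two (by omega)
    have h3 : IsRP b 3 := isRP_small b 3 Nat.prime_three (by omega)
    obtain ⟨x, y, hxy, hle⟩ : ∃ x y : ℕ, 2 * x + 3 * y = t + 2 ∧ x + y ≤ t + 2 := by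
      rcases Nat.even_or_odd' t with ⟨c, hc | hc⟩
      · exact ⟨c + 1, 0, by omega, by omega⟩
      · exact ⟨c, 1, by omega, by omega⟩
    refine ⟨r + (Multiset.replicate x 2 + Multiset.replicate y 3), ?_, ?_, ?_⟩
    · rw [Multiset.card_add, Multiset.card_add, Multiset.card_replicate,
        Multiset.card_replicate]; omega
    · intro w hw
      rw [Multiset.mem_add, Multiset.mem_add] at hw
      rcases hw with hw | hw | hw
      · exact hr2 w hw
      · rw [Multiset.eq_of_mem_replicate hw]; exact h2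
      · rw [Multiset.eq_of_mem_replicate hw]; exact h3
    · rw [Multiset.sum_add, Multiset.sum_add, Multiset.sum_replicate, Multiset.sum_replicate]
      simp only [smul_eq_mul]
      omega

end Pool.Agent.Helper94.Rev
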