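import Pool.Agent.Helper94.RevBasic

set_option autoImplicit false

namespace Pool.Agent.Helper94.Rev

open Finset

/-- Sum of reciprocals of separated points. -/
theorem sum_inv_sep {ι : Type*} (s : Finset ι) (t : ι → ℝ) (R : ℕ) (hR : 1 ≤ R)
    (h1 : ∀ i ∈ s, 1 / (R : ℝ) ≤ t i) (h2 : ∀ i ∈ s, t i < 1)
    (h3 : ∀ i ∈ s, ∀ j ∈ s, i ≠ j → 1 / (R : ℝ) ≤ |t i - t j|) :
    ∑ i ∈ s, 1 / t i ≤ R * (1 + Real.log R) := by
  classical
  have hR0 : (0 : ℝ) < R := by exact_mod_cast hR
  set n : ι → ℕ := fun i => ⌊(R : ℝ) * t i⌋₊ with hn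
  have hpos : ∀ i ∈ s, 0 < t i := fun i hi => lt_of_lt_of_le (by positivity) (h1 i hi)
  have hn1 : ∀ i ∈ s, 1 ≤ n i := by
    intro i hi
    apply Nat.le_floor
    have := h1 i hi
    rw [div_le_iff₀ hR0] at this
    rw [Nat.cast_one]; linarith
  have hnR : ∀ i ∈ s, n i < R := by
    intro i hi
    have h4 : (n i : ℝ) ≤ R * t i := Nat.floor_le (by have := hpos i hi; positivity)
    have h5 : (R : ℝ) * t i < R := by have := h2 i hi; nlinarith
    exact_mod_cast lt_of_le_of_lt h4 h5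
  have hinj : Set.InjOn n s := by
    intro i hi j hj hij
    by_contra hne
    have h4 := h3 i hi j hj hne
    have a1 : (n i : ℝ) ≤ R * t i := Nat.floor_le (by have := hpos i hi; positivity)
    have a2 : (R : ℝ) * t i < n i + 1 := Nat.lt_floor_add_one _
    have b1 : (n j : ℝ) ≤ R * t j := Nat.floor_le (by have := hpos j hj; positivity)
    have b2 : (R : ℝ) * t j < n j + 1 := Nat.lt_floor_add_one _
    rw [hij] at a1 a2
    have h5 : |(R : ℝ) * t i - R * t j| < 1 := by
      rw [abs_lt]; constructor <;> linarith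
    rw [← mul_sub, abs_mul, abs_of_pos hR0] at h5
    rw [div_le_iff₀ hR0] at h4
    linarith
  calc ∑ i ∈ s, 1 / t i ≤ ∑ i ∈ s, (R : ℝ) * (1 / (n i : ℝ)) := by
        apply Finset.sum_le_sum
        intro i hi
        have a1 : (n i : ℝ) ≤ R * t i := Nat.floor_le (by have := hpos i hi; positivity)
        have a0 : (0 : ℝ) < n i := by exact_mod_cast hn1 i hi
        have := hpos i hi
        rw [← mul_div_assoc, mul_one, div_le_div_iff₀ this a0]
        linarith
    _ = (R : ℝ) * ∑ k ∈ s.image n, 1 / (k : ℝ) := by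
        rw [← Finset.mul_sum, Finset.sum_image hinj]
    _ ≤ (R : ℝ) * ∑ k ∈ Icc 1 R, 1 / (k : ℝ) := by
        gcongr
        intro k hk
        rw [Finset.mem_image] at hk
        obtain ⟨i, hi, rfl⟩ := hk
        rw [Finset.mem_Icc]
        exact ⟨hn1 i hi, (hnR i hi).le⟩
    _ ≤ R * (1 + Real.log R) := by
        gcongr
        have h6 := harmonic_le_one_add_log R
        rw [harmonic_eq_sum_Icc] at h6
        push_cast at h6
        simpa using h6

theorem large_sieve {ι : Type*} (s : Finset ι) (x : ι → ℝ) (R : ℕ) (hR : 1 ≤ R)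
    (hsep : ∀ i ∈ s, ∀ j ∈ s, i ≠ j → ∀ n : ℤ, 1 / (R : ℝ) ≤ |x i - x j - n|)
    (N : ℕ) (c : ℕ → ℂ) (hc : ∀ m, ‖c m‖ ≤ 1) :
    ∑ i ∈ s, ‖∑ m ∈ range N, c m * ex (m * x i)‖ ^ 2 ≤ (N + R * (1 + Real.log R)) * N := by
  classical
  have hR0 : (0 : ℝ) < R := by exact_mod_cast hR
  have hlog : 0 ≤ Real.log R := Real.log_nonneg (by exact_mod_cast hR)
  set Δ : ℝ := N + R * (1 + Real.log R) with hΔ
  have hΔ0 : 0 ≤ Δ := by positivity
  set T : ι → ℂ := fun i => ∑ m ∈ range N, c m * ex (m * x i) with hT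
  -- row sums
  have hrow : ∀ i ∈ s, ∑ j ∈ s, ‖∑ m ∈ range N, ex (m * (x j - x i))‖ ≤ Δ := by
    intro i hi
    rw [← Finset.add_sum_erase s _ hi]
    have hdiag : ‖∑ m ∈ range N, ex (m * (x i - x i))‖ = N := by
      simp [ex_zero]
    rw [hdiag, hΔ]
    gcongr
    set t : ι → ℝ := fun j => Int.fract (x j - x i) with ht
    have ht0 : ∀ j ∈ s.erase i, 1 / (R : ℝ) ≤ t j := by
      intro j hj
      have hj' := Finset.mem_of_mem_erase hj
      have hne := Finset.ne_of_mem_erase hj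
      have h1 := hsep j hj' i hi hne ⌊x j - x i⌋
      have h2 : x j - x i - ⌊x j - x i⌋ = t j := rfl
      rw [h2, abs_of_nonneg (Int.fract_nonneg _)] at h1
      exact h1
    have ht1 : ∀ j ∈ s.erase i, 1 / (R : ℝ) ≤ 1 - t j := by
      intro j hj
      have hj' := Finset.mem_of_mem_erase hj
      have hne := Finset.ne_of_mem_erase hj
      have h1 := hsep j hj' i hi hne (⌊x j - x i⌋ + 1)
      have h2 : x j - x i - ((⌊x j - x i⌋ + 1 : ℤ) : ℝ) = -(1 - t j) := by
        have : t j = x j - x i - ⌊x j - x i⌋ := rfl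
        rw [this]; push_cast; ring
      have h3 : 0 < 1 - t j := by have := Int.fract_lt_one (x j - x i); simp only [ht]; linarith
      rw [h2, abs_neg, abs_of_pos h3] at h1
      exact h1
    have htsep : ∀ j ∈ s.erase i, ∀ k ∈ s.erase i, j ≠ k → 1 / (R : ℝ) ≤ |t j - t k| := by
      intro j hj k hk hjk
      have h1 := hsep j (Finset.mem_of_mem_erase hj) k (Finset.mem_of_mem_erase hk) hjk
        (⌊x j - x i⌋ - ⌊x k - x i⌋)
      have h2 : x j - x k - ((⌊x j - x i⌋ - ⌊x k - x i⌋ : ℤ) : ℝ) = t j - t k := by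
        have e1 : t j = x j - x i - ⌊x j - x i⌋ := rfl
        have e2 : t k = x k - x i - ⌊x k - x i⌋ := rfl
        rw [e1, e2]; push_cast; ring
      rwa [h2] at h1
    have hb : ∀ j ∈ s.erase i, ‖∑ m ∈ range N, ex (m * (x j - x i))‖ ≤
        (1 / 2) * (1 / t j) + (1 / 2) * (1 / (1 - t j)) := by
      intro j hj
      have p0 : 0 < t j := lt_of_lt_of_le (by positivity) (ht0 j hj)
      have p1 : 0 < 1 - t j := lt_of_lt_of_le (by positivity) (ht1 j hj)
      have hdist : ∀ n : ℤ, min (t j) (1 - t j) ≤ |x j - x i - n| := by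
        intro n
        have e1 : x j - x i - n = t j + ((⌊x j - x i⌋ - n : ℤ) : ℝ) := by
          have e1 : t j = x j - x i - ⌊x j - x i⌋ := rfl
          rw [e1]; push_cast; ring
        rw [e1]
        rcases lt_or_ge (⌊x j - x i⌋ - n) 0 with hneg | hnn
        · have h5 : ((⌊x j - x i⌋ - n : ℤ) : ℝ) ≤ -1 := by
            have : (⌊x j - x i⌋ - n : ℤ) ≤ -1 := by omega
            exact_mod_cast this
          refine (min_le_right _ _).trans ?_
          rw [abs_of_nonpos (by linarith)]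
          linarith
        · have h5 : (0 : ℝ) ≤ ((⌊x j - x i⌋ - n : ℤ) : ℝ) := by exact_mod_cast hnn
          refine (min_le_left _ _).trans ?_
          rw [abs_of_nonneg (by linarith)]
          linarith
      have hmin : 0 < min (t j) (1 - t j) := lt_min p0 p1
      refine (norm_geom_le N (x j - x i) _ hmin hdist).trans ?_
      rcases le_total (t j) (1 - t j) with h | h
      · rw [min_eq_left h]
        have : 1 / (2 * t j) = (1 / 2) * (1 / t j) := by field_simp
        rw [this]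
        have : 0 ≤ (1 / 2) * (1 / (1 - t j)) := by positivity
        linarith
      · rw [min_eq_right h]
        have : 1 / (2 * (1 - t j)) = (1 / 2) * (1 / (1 - t j)) := by field_simp
        rw [this]
        have : 0 ≤ (1 / 2) * (1 / t j) := by positivity
        linarith
    refine (Finset.sum_le_sum hb).trans ?_
    rw [Finset.sum_add_distrib, ← Finset.mul_sum, ← Finset.mul_sum]
    have s1 := sum_inv_sep (s.erase i) t R hR ht0 (fun j _ => Int.fract_lt_one _) htsep
    have s2 := sum_inv_sep (s.erase i) (fun j => 1 - t j) R hR ht1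
      (fun j hj => by
        have : 0 < t j := lt_of_lt_of_le (by positivity) (ht0 j hj)
        linarith)
      (fun j hj k hk hjk => by
        have := htsep j hj k hk hjk
        have e : (1 - t j) - (1 - t k) = -(t j - t k) := by ring
        rw [e, abs_neg]; exact this)
    linarith
  -- the total
  set S : ℝ := ∑ i ∈ s, ‖T i‖ ^ 2 with hS
  have hS0 : 0 ≤ S := Finset.sum_nonneg fun _ _ => by positivity
  set U : ℕ → ℂ := fun m => ∑ i ∈ s, (starRingEnd ℂ) (T i) * ex (m * x i) with hU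
  have e1 : (S : ℂ) = ∑ m ∈ range N, c m * U m := by
    rw [hS]; push_cast
    have : ∀ i ∈ s, ((‖T i‖ : ℂ)) ^ 2 = (starRingEnd ℂ) (T i) * T i := by
      intro i _
      rw [mul_comm, Complex.mul_conj, Complex.normSq_eq_norm_sq]; push_cast; rfl
    rw [Finset.sum_congr rfl this]
    simp only [hU, Finset.mul_sum]
    rw [Finset.sum_comm]
    apply Finset.sum_congr rfl
    intro i _
    conv_lhs => rw [hT]
    simp only
    rw [Finset.mul_sum]
    apply Finset.sum_congr rfl
    intro m _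
    ring
  have e2 : S ≤ ∑ m ∈ range N, ‖U m‖ := by
    have : S = ‖(S : ℂ)‖ := by rw [Complex.norm_real, Real.norm_eq_abs, abs_of_nonneg hS0]
    rw [this, e1]
    refine (norm_sum_le _ _).trans (Finset.sum_le_sum fun m _ => ?_)
    rw [norm_mul]
    calc ‖c m‖ * ‖U m‖ ≤ 1 * ‖U m‖ := by gcongr; exact hc m
      _ = ‖U m‖ := one_mul _
  have e3 : (∑ m ∈ range N, ‖U m‖) ^ 2 ≤ N * ∑ m ∈ range N, ‖U m‖ ^ 2 := by
    have := sq_sum_le_card_mul_sum_sq (s := range N) (f := fun m => ‖U m‖)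
    simpa using this
  have e4 : ∑ m ∈ range N, ‖U m‖ ^ 2 ≤ Δ * S := by
    have f1 : ((∑ m ∈ range N, ‖U m‖ ^ 2 : ℝ) : ℂ) =
        ∑ i ∈ s, ∑ j ∈ s, T i * (starRingEnd ℂ) (T j) * ∑ m ∈ range N, ex (m * (x j - x i)) := by
      push_cast
      have : ∀ m ∈ range N, ((‖U m‖ : ℂ)) ^ 2 = ∑ i ∈ s, ∑ j ∈ s,
          T i * (starRingEnd ℂ) (T j) * ex (m * (x j - x i)) := by
        intro m _
        have h1 : ((‖U m‖ : ℂ)) ^ 2 = (starRingEnd ℂ) (U m) * U m := by
          rw [mul_comm, Complex.mul_conj, Complex.normSq_eq_norm_sq]; push_cast; rfl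
        rw [h1, hU]
        simp only [map_sum, map_mul, Complex.conj_conj, conj_ex]
        rw [Finset.sum_mul_sum]
        apply Finset.sum_congr rfl
        intro i _
        apply Finset.sum_congr rfl
        intro j _
        have h2 : (m : ℝ) * (x j - x i) = -(m * x i) + m * x j := by ring
        rw [h2, ex_add]; ring
      rw [Finset.sum_congr rfl this, Finset.sum_comm]
      apply Finset.sum_congr rfl
      intro i _
      rw [Finset.sum_comm]
      apply Finset.sum_congr rfl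
      intro j _
      rw [Finset.mul_sum]
    have f2 : 0 ≤ ∑ m ∈ range N, ‖U m‖ ^ 2 := Finset.sum_nonneg fun _ _ => by positivity
    have f3 : ∑ m ∈ range N, ‖U m‖ ^ 2 = ‖((∑ m ∈ range N, ‖U m‖ ^ 2 : ℝ) : ℂ)‖ := by
      rw [Complex.norm_real, Real.norm_eq_abs, abs_of_nonneg f2]
    rw [f3, f1]
    refine (norm_sum_le _ _).trans ?_
    have f4 : ∀ i ∈ s, ‖∑ j ∈ s, T i * (starRingEnd ℂ) (T j) * ∑ m ∈ range N, ex (m * (x j - x i))‖
        ≤ ∑ j ∈ s, ((1 / 2) * ‖T i‖ ^ 2 + (1 / 2) * ‖T j‖ ^ 2) *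
          ‖∑ m ∈ range N, ex (m * (x j - x i))‖ := by
      intro i _
      refine (norm_sum_le _ _).trans (Finset.sum_le_sum fun j _ => ?_)
      rw [norm_mul, norm_mul]
      have : ‖(starRingEnd ℂ) (T j)‖ = ‖T j‖ := RCLike.norm_conj _
      rw [this]
      gcongr
      nlinarith [sq_nonneg (‖T i‖ - ‖T j‖)]
    refine (Finset.sum_le_sum f4).trans ?_
    have f5 : ∑ i ∈ s, ∑ j ∈ s, ((1 / 2) * ‖T i‖ ^ 2 + (1 / 2) * ‖T j‖ ^ 2) *
          ‖∑ m ∈ range N, ex (m * (x j - x i))‖ =
        (1 / 2) * ∑ i ∈ s, ‖T i‖ ^ 2 * ∑ j ∈ s, ‖∑ m ∈ range N, ex (m * (x j - x i))‖ +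
        (1 / 2) * ∑ j ∈ s, ‖T j‖ ^ 2 * ∑ i ∈ s, ‖∑ m ∈ range N, ex (m * (x j - x i))‖ := by
      rw [Finset.mul_sum, Finset.mul_sum]
      simp only [add_mul, Finset.sum_add_distrib, Finset.mul_sum]
      congr 1
      · apply Finset.sum_congr rfl; intro i _; apply Finset.sum_congr rfl; intro j _; ring
      · rw [Finset.sum_comm]
        apply Finset.sum_congr rfl; intro i _; apply Finset.sum_congr rfl; intro j _; ring
    rw [f5]
    have hsymm : ∀ i j, ‖∑ m ∈ range N, ex (m * (x j - x i))‖ =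
        ‖∑ m ∈ range N, ex (m * (x i - x j))‖ := by
      intro i j
      rw [← RCLike.norm_conj (K := ℂ) (∑ m ∈ range N, ex (m * (x j - x i)))]
      congr 1
      rw [map_sum]
      apply Finset.sum_congr rfl
      intro m _
      rw [conj_ex]; congr 1; ring
    have g1 : ∑ i ∈ s, ‖T i‖ ^ 2 * ∑ j ∈ s, ‖∑ m ∈ range N, ex (m * (x j - x i))‖ ≤ Δ * S := by
      rw [hS, Finset.mul_sum]
      apply Finset.sum_le_sum
      intro i hi
      rw [mul_comm Δ]
      gcongr
      exact hrow i hi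
    have g2 : ∑ j ∈ s, ‖T j‖ ^ 2 * ∑ i ∈ s, ‖∑ m ∈ range N, ex (m * (x j - x i))‖ ≤ Δ * S := by
      rw [hS, Finset.mul_sum]
      apply Finset.sum_le_sum
      intro j hj
      rw [mul_comm Δ]
      gcongr
      simp_rw [fun i => hsymm i j]
      exact hrow j hj
    linarith
  -- conclude
  have e5 : S ^ 2 ≤ N * (Δ * S) := by
    calc S ^ 2 ≤ (∑ m ∈ range N, ‖U m‖) ^ 2 := by gcongr
      _ ≤ N * ∑ m ∈ range N, ‖U m‖ ^ 2 := e3
      _ ≤ N * (Δ * S) := by gcongr
  by_contra hcon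
  push Not at hcon
  have hSpos : 0 < S := lt_of_le_of_lt (by positivity) hcon
  have : S * S ≤ (Δ * N) * S := by nlinarith
  have h7 := le_of_mul_le_mul_right this hSpos
  linarith

end Pool.Agent.Helper94.Rev
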