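import Mathlib

set_option autoImplicit false

namespace Pool.Agent.Helper94.Rev

open Finset

/-- Squarefree numbers up to `z`, coprime to `Q`. -/
def Zs (z Q : ℕ) : Finset ℕ := (Icc 1 z).filter (fun d => Squarefree d ∧ Nat.Coprime d Q)

theorem mem_Zs {z Q d : ℕ} : d ∈ Zs z Q ↔ (1 ≤ d ∧ d ≤ z) ∧ Squarefree d ∧ Nat.Coprime d Q := by
  unfold Zs; rw [Finset.mem_filter, Finset.mem_Icc]

theorem mem_Zs_of_dvd {z Q d e : ℕ} (hd : d ∈ Zs z Q) (he : e ∣ d) : e ∈ Zs z Q := by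
  rw [mem_Zs] at hd ⊢
  obtain ⟨⟨h1, h2⟩, h3, h4⟩ := hd
  refine ⟨⟨Nat.pos_of_dvd_of_pos he h1, (Nat.le_of_dvd h1 he).trans h2⟩, h3.squarefree_of_dvd he,
    h4.coprime_dvd_left he⟩

noncomputable def GG (z Q : ℕ) : ℝ := ∑ k ∈ Zs z Q, 1 / (k : ℝ)

noncomputable def lam (z Q d : ℕ) : ℝ :=
  (ArithmeticFunction.moebius d : ℝ) / GG z Q *
    ∑ k ∈ (Zs z Q).filter (fun k => d ∣ k), (d : ℝ) / k

theorem one_mem_Zs {z Q : ℕ} (hz : 1 ≤ z) : 1 ∈ Zs z Q := by
  rw [mem_Zs]; exact ⟨⟨le_rfl, hz⟩, squarefree_one, Nat.coprime_one_left Q⟩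

theorem GG_pos {z Q : ℕ} (hz : 1 ≤ z) : 0 < GG z Q := by
  unfold GG
  apply Finset.sum_pos
  · intro i hi
    rw [mem_Zs] at hi
    have : (0 : ℝ) < i := by exact_mod_cast hi.1.1
    positivity
  · exact ⟨1, one_mem_Zs hz⟩

theorem lam_one {z Q : ℕ} (hz : 1 ≤ z) : lam z Q 1 = 1 := by
  unfold lam
  have h := GG_pos (Q := Q) hz
  have : (Zs z Q).filter (fun k => 1 ∣ k) = Zs z Q := by
    apply Finset.filter_true_of_mem; intro x _; exact one_dvd x
  rw [this]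
  simp only [ArithmeticFunction.moebius_apply_one, Int.cast_one, Nat.cast_one]
  have e : ∑ k ∈ Zs z Q, (1 : ℝ) / k = GG z Q := rfl
  rw [e]; field_simp

theorem abs_lam_le {z Q d : ℕ} (hz : 1 ≤ z) (hd : 1 ≤ d) : |lam z Q d| ≤ 1 := by
  classical
  unfold lam
  have hG := GG_pos (Q := Q) hz
  have h1 : |(ArithmeticFunction.moebius d : ℝ)| ≤ 1 := by
    have := ArithmeticFunction.abs_moebius_le_one (n := d)
    exact_mod_cast this
  have h2 : ∑ k ∈ (Zs z Q).filter (fun k => d ∣ k), (d : ℝ) / k ≤ GG z Q := by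
    have hinj : Set.InjOn (fun k : ℕ => k / d) ((Zs z Q).filter (fun k => d ∣ k)) := by
      intro a ha b hb hab
      simp only [Finset.coe_filter, Set.mem_ofPred_eq] at ha hb
      have := Nat.div_mul_cancel ha.2
      have h' := Nat.div_mul_cancel hb.2
      simp only at hab
      rw [hab] at this; omega
    calc ∑ k ∈ (Zs z Q).filter (fun k => d ∣ k), (d : ℝ) / k
        = ∑ k ∈ (Zs z Q).filter (fun k => d ∣ k), 1 / ((k / d : ℕ) : ℝ) := by
          apply Finset.sum_congr rfl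
          intro k hk
          rw [Finset.mem_filter, mem_Zs] at hk
          obtain ⟨⟨⟨hk1, _⟩, _⟩, hdk⟩ := hk
          have : (d : ℝ) ≠ 0 := by positivity
          rw [Nat.cast_div hdk this]
          have : (k : ℝ) ≠ 0 := by positivity
          field_simp
      _ = ∑ k ∈ ((Zs z Q).filter (fun k => d ∣ k)).image (fun k => k / d), 1 / (k : ℝ) := by
          rw [Finset.sum_image hinj]
      _ ≤ GG z Q := by
          unfold GG
          apply Finset.sum_le_sum_of_subset_of_nonneg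
          · intro k hk
            rw [Finset.mem_image] at hk
            obtain ⟨l, hl, rfl⟩ := hk
            rw [Finset.mem_filter] at hl
            exact mem_Zs_of_dvd hl.1 (Nat.div_dvd_of_dvd hl.2)
          · intro i _ _; positivity
  have h3 : 0 ≤ ∑ k ∈ (Zs z Q).filter (fun k => d ∣ k), (d : ℝ) / k :=
    Finset.sum_nonneg fun _ _ => by positivity
  rw [abs_mul, abs_div, abs_of_pos hG, abs_of_nonneg h3]
  calc _ ≤ 1 / GG z Q * GG z Q := by gcongr
    _ = 1 := by field_simp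

/-- Sum of the Moebius function over multiples of `k` dividing a squarefree `l`. -/
theorem sum_moebius_mult {k l : ℕ} (hl : Squarefree l) (hkl : k ∣ l) :
    ∑ d ∈ l.divisors.filter (fun d => k ∣ d), (ArithmeticFunction.moebius d : ℤ) =
      if l = k then ArithmeticFunction.moebius k else 0 := by
  classical
  have hl0 : l ≠ 0 := hl.ne_zero
  obtain ⟨e, rfl⟩ := hkl
  have hk0 : k ≠ 0 := left_ne_zero_of_mul hl0
  have he0 : e ≠ 0 := right_ne_zero_of_mul hl0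
  have hset : (k * e).divisors.filter (fun d => k ∣ d) = e.divisors.image (fun d => k * d) := by
    ext d
    simp only [Finset.mem_filter, Nat.mem_divisors, Finset.mem_image]
    constructor
    · rintro ⟨⟨h1, _⟩, ⟨c, rfl⟩⟩
      exact ⟨c, ⟨Nat.dvd_of_mul_dvd_mul_left (Nat.pos_of_ne_zero hk0) h1, he0⟩, rfl⟩
    · rintro ⟨c, ⟨h1, _⟩, rfl⟩
      exact ⟨⟨Nat.mul_dvd_mul_left k h1, hl0⟩, dvd_mul_right _ _⟩
  rw [hset, Finset.sum_image (fun a _ b _ h => Nat.eq_of_mul_eq_mul_left (Nat.pos_of_ne_zero hk0) h)]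
  have hcop : ∀ d ∈ e.divisors, (ArithmeticFunction.moebius (k * d) : ℤ) =
      ArithmeticFunction.moebius k * ArithmeticFunction.moebius d := by
    intro d hd
    have hde := (Nat.mem_divisors.mp hd).1
    have hc : Nat.Coprime k e := Nat.coprime_of_squarefree_mul hl
    exact ArithmeticFunction.isMultiplicative_moebius.map_mul_of_coprime (hc.coprime_dvd_right hde)
  rw [Finset.sum_congr rfl hcop, ← Finset.mul_sum]
  have h1 : ∑ d ∈ e.divisors, (ArithmeticFunction.moebius d : ℤ) = if e = 1 then 1 else 0 := by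
    have := congrArg (fun f : ArithmeticFunction ℤ => f e) ArithmeticFunction.moebius_mul_coe_zeta
    rw [ArithmeticFunction.coe_mul_zeta_apply] at this
    rw [this, ArithmeticFunction.one_apply]
  rw [h1]
  by_cases h : e = 1
  · subst h; simp
  · have : k * e ≠ k := by
      intro h2
      apply h
      exact Nat.eq_of_mul_eq_mul_left (Nat.pos_of_ne_zero hk0) (by rw [h2, mul_one])
    rw [if_neg h, if_neg this, mul_zero]

theorem y_eq {z Q k : ℕ} (hk : k ∈ Zs z Q) :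
    ∑ d ∈ (Zs z Q).filter (fun d => k ∣ d), lam z Q d / d =
      (ArithmeticFunction.moebius k : ℝ) / (k * GG z Q) := by
  classical
  have hz : 1 ≤ z := by rw [mem_Zs] at hk; omega
  have hG := GG_pos (Q := Q) hz
  have hk1 : 1 ≤ k := (mem_Zs.mp hk).1.1
  have h1 : ∀ d ∈ (Zs z Q).filter (fun d => k ∣ d), lam z Q d / d =
      ∑ l ∈ Zs z Q, if d ∣ l then (ArithmeticFunction.moebius d : ℝ) / (GG z Q * l) else 0 := by
    intro d hd
    rw [Finset.mem_filter, mem_Zs] at hd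
    have hd0 : (d : ℝ) ≠ 0 := by have := hd.1.1.1; positivity
    unfold lam
    rw [← Finset.sum_filter, Finset.mul_sum, Finset.sum_div]
    apply Finset.sum_congr rfl
    intro l hl
    rw [Finset.mem_filter, mem_Zs] at hl
    have hl0 : (l : ℝ) ≠ 0 := by have := hl.1.1.1; positivity
    field_simp
  rw [Finset.sum_congr rfl h1, Finset.sum_comm]
  have h2 : ∀ l ∈ Zs z Q, (∑ d ∈ (Zs z Q).filter (fun d => k ∣ d),
      if d ∣ l then (ArithmeticFunction.moebius d : ℝ) / (GG z Q * l) else 0) =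
      if l = k then (ArithmeticFunction.moebius k : ℝ) / (GG z Q * k) else 0 := by
    intro l hl
    have hl1 := (mem_Zs.mp hl).1.1
    have hsq := (mem_Zs.mp hl).2.1
    rw [← Finset.sum_filter]
    have hset : ((Zs z Q).filter (fun d => k ∣ d)).filter (fun d => d ∣ l) =
        l.divisors.filter (fun d => k ∣ d) := by
      ext d
      simp only [Finset.mem_filter, Nat.mem_divisors]
      constructor
      · rintro ⟨⟨_, h3⟩, h4⟩
        exact ⟨⟨h4, by omega⟩, h3⟩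
      · rintro ⟨⟨h3, _⟩, h4⟩
        exact ⟨⟨mem_Zs_of_dvd hl h3, h4⟩, h3⟩
    rw [hset, ← Finset.sum_div]
    by_cases hkl : k ∣ l
    · have h3 := sum_moebius_mult hsq hkl
      have h4 : (∑ d ∈ l.divisors.filter (fun d => k ∣ d), (ArithmeticFunction.moebius d : ℝ)) =
          if l = k then (ArithmeticFunction.moebius k : ℝ) else 0 := by
        have h5 := congrArg (fun n : ℤ => (n : ℝ)) h3
        push_cast at h5
        rw [h5]
      rw [h4]
      by_cases h : l = k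
      · subst h; simp
      · simp [h]
    · have hempty : l.divisors.filter (fun d => k ∣ d) = ∅ := by
        apply Finset.filter_eq_empty_iff.mpr
        intro d hd hkd
        exact hkl (hkd.trans (Nat.mem_divisors.mp hd).1)
      rw [hempty]
      have h : l ≠ k := by rintro rfl; exact hkl dvd_rfl
      simp [h]
  rw [Finset.sum_congr rfl h2, Finset.sum_ite_eq' (Zs z Q) k, if_pos hk, mul_comm (k : ℝ)]

/-- The quadratic form. -/
theorem quad_le {z Q : ℕ} (hz : 1 ≤ z) :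
    ∑ d₁ ∈ Zs z Q, ∑ d₂ ∈ Zs z Q, lam z Q d₁ * lam z Q d₂ / (Nat.lcm d₁ d₂ : ℝ) ≤
      1 / GG z Q ∧
    0 ≤ ∑ d₁ ∈ Zs z Q, ∑ d₂ ∈ Zs z Q, lam z Q d₁ * lam z Q d₂ / (Nat.lcm d₁ d₂ : ℝ) := by
  classical
  have hG := GG_pos (Q := Q) hz
  have h1 : ∑ d₁ ∈ Zs z Q, ∑ d₂ ∈ Zs z Q, lam z Q d₁ * lam z Q d₂ / (Nat.lcm d₁ d₂ : ℝ) =
      ∑ k ∈ Zs z Q, (Nat.totient k : ℝ) *
        (∑ d ∈ (Zs z Q).filter (fun d => k ∣ d), lam z Q d / d) ^ 2 := by
    have e1 : ∀ d₁ ∈ Zs z Q, ∀ d₂ ∈ Zs z Q, lam z Q d₁ * lam z Q d₂ / (Nat.lcm d₁ d₂ : ℝ) =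
        ∑ k ∈ Zs z Q, if k ∣ d₁ ∧ k ∣ d₂ then
          (Nat.totient k : ℝ) * (lam z Q d₁ / d₁) * (lam z Q d₂ / d₂) else 0 := by
      intro d₁ hd₁ d₂ hd₂
      have p1 : 1 ≤ d₁ := (mem_Zs.mp hd₁).1.1
      have p2 : 1 ≤ d₂ := (mem_Zs.mp hd₂).1.1
      have hgcd : (Nat.gcd d₁ d₂ : ℝ) = ∑ k ∈ Zs z Q, if k ∣ d₁ ∧ k ∣ d₂ then
          (Nat.totient k : ℝ) else 0 := by
        rw [← Finset.sum_filter]
        have hset : (Zs z Q).filter (fun k => k ∣ d₁ ∧ k ∣ d₂) = (Nat.gcd d₁ d₂).divisors := by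
          ext k
          simp only [Finset.mem_filter, Nat.mem_divisors]
          constructor
          · rintro ⟨_, h3, h4⟩
            exact ⟨Nat.dvd_gcd h3 h4, (Nat.gcd_pos_of_pos_left _ p1).ne'⟩
          · rintro ⟨h3, _⟩
            exact ⟨mem_Zs_of_dvd hd₁ (h3.trans (Nat.gcd_dvd_left _ _)),
              h3.trans (Nat.gcd_dvd_left _ _), h3.trans (Nat.gcd_dvd_right _ _)⟩
        rw [hset]
        have := Nat.sum_totient (Nat.gcd d₁ d₂)
        exact_mod_cast this.symm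
      have hlcm : (Nat.lcm d₁ d₂ : ℝ) * (Nat.gcd d₁ d₂ : ℝ) = d₁ * d₂ := by
        have := Nat.gcd_mul_lcm d₁ d₂
        rw [mul_comm]
        exact_mod_cast this
      have q1 : (0 : ℝ) < d₁ := by exact_mod_cast p1
      have q2 : (0 : ℝ) < d₂ := by exact_mod_cast p2
      have q3 : (0 : ℝ) < (Nat.lcm d₁ d₂ : ℝ) := by
        exact_mod_cast Nat.lcm_pos p1 p2
      have e2 : lam z Q d₁ * lam z Q d₂ / (Nat.lcm d₁ d₂ : ℝ) =
          (Nat.gcd d₁ d₂ : ℝ) * ((lam z Q d₁ / d₁) * (lam z Q d₂ / d₂)) := by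
        rw [div_eq_iff q3.ne']
        have : (Nat.gcd d₁ d₂ : ℝ) * ((lam z Q d₁ / d₁) * (lam z Q d₂ / d₂)) *
            (Nat.lcm d₁ d₂ : ℝ) = ((Nat.lcm d₁ d₂ : ℝ) * (Nat.gcd d₁ d₂ : ℝ)) *
            ((lam z Q d₁ / d₁) * (lam z Q d₂ / d₂)) := by ring
        rw [this, hlcm]; field_simp
      rw [e2, hgcd, Finset.sum_mul]
      apply Finset.sum_congr rfl
      intro k _
      split_ifs <;> ring
    rw [Finset.sum_congr rfl (fun d₁ hd₁ => Finset.sum_congr rfl (e1 d₁ hd₁))]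
    have e3 : ∑ d₁ ∈ Zs z Q, ∑ d₂ ∈ Zs z Q, (∑ k ∈ Zs z Q, if k ∣ d₁ ∧ k ∣ d₂ then
          (Nat.totient k : ℝ) * (lam z Q d₁ / d₁) * (lam z Q d₂ / d₂) else 0) =
        ∑ k ∈ Zs z Q, ∑ d₁ ∈ Zs z Q, ∑ d₂ ∈ Zs z Q, if k ∣ d₁ ∧ k ∣ d₂ then
          (Nat.totient k : ℝ) * (lam z Q d₁ / d₁) * (lam z Q d₂ / d₂) else 0 := by
      calc _ = ∑ d₁ ∈ Zs z Q, ∑ k ∈ Zs z Q, ∑ d₂ ∈ Zs z Q, (if k ∣ d₁ ∧ k ∣ d₂ then
            (Nat.totient k : ℝ) * (lam z Q d₁ / d₁) * (lam z Q d₂ / d₂) else 0) :=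
            Finset.sum_congr rfl (fun d₁ _ => Finset.sum_comm)
        _ = _ := Finset.sum_comm
    rw [e3]
    apply Finset.sum_congr rfl
    intro k _
    rw [Finset.sum_filter, sq, Finset.sum_mul_sum, Finset.mul_sum]
    apply Finset.sum_congr rfl
    intro d₁ _
    rw [Finset.mul_sum]
    apply Finset.sum_congr rfl
    intro d₂ _
    by_cases h3 : k ∣ d₁ <;> by_cases h4 : k ∣ d₂ <;> simp [h3, h4]
    ring
  have h2 : ∀ k ∈ Zs z Q, (Nat.totient k : ℝ) *
        (∑ d ∈ (Zs z Q).filter (fun d => k ∣ d), lam z Q d / d) ^ 2 ≤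
        1 / GG z Q ^ 2 * (1 / (k : ℝ)) := by
    intro k hk
    rw [y_eq hk]
    have p1 : (0 : ℝ) < k := by exact_mod_cast (mem_Zs.mp hk).1.1
    have p2 : (Nat.totient k : ℝ) ≤ k := by exact_mod_cast Nat.totient_le k
    have p3 : ((ArithmeticFunction.moebius k : ℝ)) ^ 2 ≤ 1 := by
      have := ArithmeticFunction.abs_moebius_le_one (n := k)
      have h' : |(ArithmeticFunction.moebius k : ℝ)| ≤ 1 := by exact_mod_cast this
      rw [← sq_abs]
      nlinarith [abs_nonneg (ArithmeticFunction.moebius k : ℝ)]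
    rw [div_pow, mul_pow]
    calc (Nat.totient k : ℝ) * ((ArithmeticFunction.moebius k : ℝ) ^ 2 / ((k : ℝ) ^ 2 * GG z Q ^ 2))
        ≤ k * (1 / ((k : ℝ) ^ 2 * GG z Q ^ 2)) := by gcongr
      _ = 1 / GG z Q ^ 2 * (1 / (k : ℝ)) := by field_simp
  constructor
  · rw [h1]
    refine (Finset.sum_le_sum h2).trans ?_
    rw [← Finset.mul_sum]
    have : ∑ k ∈ Zs z Q, 1 / (k : ℝ) = GG z Q := rfl
    rw [this]
    apply le_of_eq
    field_simp
  · rw [h1]
    exact Finset.sum_nonneg fun _ _ => by positivity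

end Pool.Agent.Helper94.Rev
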